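import Pool.Agent.J6H69.GB.Nonvan
import Pool.Agent.Results.MP_c2a07f_nt.FiveAndPowersOfThree

/-!
# Finitely many characters: the values of a fixed weight are units at almost all primes
-/

set_option autoImplicit false

namespace Pool.Agent.J6H69.GB

open Finset
open Pool.Agent.Results.MP_c2a07f_nt.FiveAndPowersOfThree (lValue genBernoulli IsUnitAt)

lemma isUnitAt_mul {p : ℕ} {z w : ℂ} (hz : IsUnitAt p z) (hw : IsUnitAt p w) : IsUnitAt p (z * w) := by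
  obtain ⟨hz0, c, hc, h1, h2⟩ := hz
  obtain ⟨hw0, d, hd, h3, h4⟩ := hw
  refine ⟨mul_ne_zero hz0 hw0, c * d, hc.mul_right hd, ?_, ?_⟩
  · have : ((c * d : ℤ) : ℂ) * (z * w) = ((c : ℂ) * z) * ((d : ℂ) * w) := by
      push_cast
      ring
    rw [this]
    exact h1.mul h3
  · have : ((c * d : ℤ) : ℂ) * (z * w)⁻¹ = ((c : ℂ) * z⁻¹) * ((d : ℂ) * w⁻¹) := by
      push_cast
      rw [mul_inv]
      ring
    rw [this]
    exact h2.mul h4

/-- a nonzero algebraic number is a unit at almost all primes -/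
lemma almost_all {z : ℂ} (hz : z ≠ 0) (halg : IsAlgebraic ℤ z) :
    ∃ P : ℕ, ∀ p : ℕ, p.Prime → P < p → IsUnitAt p z := by
  obtain ⟨c, hc0, hc⟩ := halg.exists_integral_multiple
  obtain ⟨d, hd0, hd⟩ := (halg.inv).exists_integral_multiple
  refine ⟨(c * d).natAbs, fun p hp hP => ⟨hz, c * d, ?_, ?_, ?_⟩⟩
  · rw [Int.isCoprime_iff_gcd_eq_one, Int.gcd_eq_natAbs, Int.natAbs_natCast]
    refine (Nat.Prime.coprime_iff_not_dvd hp).2 fun h => ?_
    have := Nat.le_of_dvd (Int.natAbs_pos.2 (mul_ne_zero hc0 hd0)) h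
    omega
  · have : ((c * d : ℤ) : ℂ) * z = (d : ℂ) * (c • z) := by
      rw [zsmul_eq_mul]
      push_cast
      ring
    rw [this]
    exact (isIntegral_algebraMap (x := d)).mul hc
  · have : ((c * d : ℤ) : ℂ) * z⁻¹ = (c : ℂ) * (d • z⁻¹) := by
      rw [zsmul_eq_mul]
      push_cast
      ring
    rw [this]
    exact (isIntegral_algebraMap (x := c)).mul hd

lemma isIntegral_root {ζ : ℂ} {n : ℕ} (hn : n ≠ 0) (h : ζ ^ n = 1) : IsIntegral ℤ ζ :=
  IsIntegral.of_pow (Nat.pos_of_ne_zero hn) (by rw [h]; exact isIntegral_one)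

/-- the Euler factor in weight at least two -/
lemma euler_unit {p : ℕ} (hp : p.Prime) {ζ : ℂ} {n : ℕ} (hn : n ≠ 0) (h : ζ ^ n = 1) {m : ℕ} (hm : 2 ≤ m) :
    IsUnitAt p (1 - ζ * (p : ℂ) ^ (m - 1)) := by
  have hζ := isIntegral_root hn h
  have hpi : IsIntegral ℤ (p : ℂ) := by
    have := isIntegral_algebraMap (R := ℤ) (A := ℂ) (x := (p : ℤ))
    simpa using this
  have hx : IsIntegral ℤ (ζ * (p : ℂ) ^ (m - 1)) := hζ.mul (hpi.pow _)
  have hk : 1 ≤ (m - 1) * n := Nat.mul_pos (by omega) (Nat.pos_of_ne_zero hn)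
  have hgeom : (1 - ζ * (p : ℂ) ^ (m - 1)) * ∑ i ∈ range n, (ζ * (p : ℂ) ^ (m - 1)) ^ i =
      ((1 - (p : ℤ) ^ ((m - 1) * n) : ℤ) : ℂ) := by
    rw [mul_neg_geom_sum, mul_pow, h, one_mul, ← pow_mul]
    push_cast
    ring
  have hc0 : ((1 - (p : ℤ) ^ ((m - 1) * n) : ℤ) : ℂ) ≠ 0 := by
    have h1 : (1 - (p : ℤ) ^ ((m - 1) * n) : ℤ) ≠ 0 := by
      have h2 : 1 < p ^ ((m - 1) * n) := Nat.one_lt_pow (by omega) hp.one_lt
      have h3 : (1 : ℤ) < (p : ℤ) ^ ((m - 1) * n) := by exact_mod_cast h2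
      omega
    exact_mod_cast h1
  have hne : (1 - ζ * (p : ℂ) ^ (m - 1)) ≠ 0 := by
    intro h0
    rw [h0, zero_mul] at hgeom
    exact hc0 hgeom.symm
  refine ⟨hne, 1 - (p : ℤ) ^ ((m - 1) * n), ?_, ?_, ?_⟩
  · have h1 : IsCoprime (p : ℤ) (1 + (p : ℤ) * (-(p : ℤ) ^ ((m - 1) * n - 1))) :=
      isCoprime_one_right.add_mul_left_right _
    have h2 : 1 + (p : ℤ) * (-(p : ℤ) ^ ((m - 1) * n - 1)) = 1 - (p : ℤ) ^ ((m - 1) * n) := by
      have h3 : (p : ℤ) ^ ((m - 1) * n) = (p : ℤ) * (p : ℤ) ^ ((m - 1) * n - 1) := by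
        rw [← pow_succ']
        congr 1
        omega
      rw [h3]
      ring
    rw [h2] at h1
    exact h1
  · exact (isIntegral_algebraMap (R := ℤ) (A := ℂ) (x := 1 - (p : ℤ) ^ ((m - 1) * n))).mul
      (isIntegral_one.sub hx)
  · rw [← hgeom, mul_comm (1 - ζ * (p : ℂ) ^ (m - 1)), mul_assoc, mul_inv_cancel₀ hne, mul_one]
    exact IsIntegral.sum _ fun i _ => hx.pow i

/-- the Euler factor in weight one -/
lemma euler_unit_one {p : ℕ} {ζ : ℂ} {n : ℕ} (hn : n ≠ 0) (h : ζ ^ n = 1) (hζ1 : ζ ≠ 1)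
    (hpn : IsCoprime (p : ℤ) (n : ℤ)) :
    IsUnitAt p (1 - ζ) := by
  have hζ := isIntegral_root hn h
  have hne : 1 - ζ ≠ 0 := sub_ne_zero.2 (Ne.symm hζ1)
  have hsum : ∑ i ∈ range n, ζ ^ i = 0 := by
    have h1 := mul_neg_geom_sum ζ n
    rw [h, sub_self] at h1
    exact (mul_eq_zero.1 h1).resolve_left hne
  have hkey : (n : ℂ) = (1 - ζ) * ∑ i ∈ range n, ∑ j ∈ range i, ζ ^ j := by
    rw [mul_sum]
    have h1 : ∀ i ∈ range n, (1 - ζ) * ∑ j ∈ range i, ζ ^ j = 1 - ζ ^ i := fun i _ => mul_neg_geom_sum ζ i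
    rw [Finset.sum_congr rfl h1, Finset.sum_sub_distrib, hsum]
    simp
  refine ⟨hne, n, hpn, ?_, ?_⟩
  · have := isIntegral_algebraMap (R := ℤ) (A := ℂ) (x := (n : ℤ))
    exact this.mul (isIntegral_one.sub hζ)
  · have h1 : ((n : ℤ) : ℂ) * (1 - ζ)⁻¹ = ∑ i ∈ range n, ∑ j ∈ range i, ζ ^ j := by
      have h2 : ((n : ℤ) : ℂ) = (n : ℂ) := by push_cast; rfl
      rw [h2, hkey, mul_comm (1 - ζ), mul_assoc, mul_inv_cancel₀ hne, mul_one]
    rw [h1]
    exact IsIntegral.sum _ fun i _ => IsIntegral.sum _ fun j _ => hζ.pow j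

lemma genBernoulli_ne_zero {N : ℕ} [NeZero N] (ψ : DirichletCharacter ℂ N) (hprim : ψ.IsPrimitive) {m : ℕ}
    (hm1 : 1 ≤ m) (hpar : ψ (-1) = (-1) ^ m) : genBernoulli m ψ ≠ 0 := by
  unfold Pool.Agent.Results.MP_c2a07f_nt.FiveAndPowersOfThree.genBernoulli
  exact mul_ne_zero (pow_ne_zero _ (Nat.cast_ne_zero.mpr (NeZero.ne N))) (sum_ne_zero ψ hprim hm1 hpar)

lemma isIntegral_char {N : ℕ} [NeZero N] (ψ : DirichletCharacter ℂ N) (x : ZMod N) : IsIntegral ℤ (ψ x) := by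
  by_cases hx : IsUnit x
  · obtain ⟨U, rfl⟩ := hx
    refine isIntegral_root (n := N.totient) (Nat.totient_pos.2 (NeZero.pos N)).ne' ?_
    rw [← map_pow, ← Units.val_pow_eq_pow_val, ZMod.pow_totient, Units.val_one, map_one]
  · rw [MulChar.map_nonunit _ hx]
    exact isIntegral_zero

lemma isAlgebraic_sum {ι : Type} (s : Finset ι) (f : ι → ℂ) (h : ∀ i, IsAlgebraic ℤ (f i)) :
    IsAlgebraic ℤ (∑ i ∈ s, f i) := by
  classical
  induction s using Finset.induction_on with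
  | empty => rw [Finset.sum_empty]; exact isAlgebraic_zero
  | insert a s ha ih => rw [Finset.sum_insert ha]; exact (h a).add ih

lemma genBernoulli_alg {N : ℕ} [NeZero N] (ψ : DirichletCharacter ℂ N) (m : ℕ) :
    IsAlgebraic ℤ (genBernoulli m ψ / m) := by
  unfold Pool.Agent.Results.MP_c2a07f_nt.FiveAndPowersOfThree.genBernoulli
  have hrat : ∀ q : ℚ, IsAlgebraic ℤ ((q : ℚ) : ℂ) := by
    intro q
    have h1 : IsAlgebraic ℤ (q : ℚ) := by
      have : Algebra.IsAlgebraic ℤ ℚ := IsLocalization.isAlgebraic ℚ (nonZeroDivisors ℤ)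
      exact Algebra.IsAlgebraic.isAlgebraic q
    have h2 := h1.algebraMap (A := ℂ)
    simpa using h2
  have hnat : ∀ n : ℕ, IsAlgebraic ℤ ((n : ℕ) : ℂ) := by
    intro n
    have := hrat (n : ℚ)
    simpa using this
  rw [div_eq_mul_inv]
  refine ((hnat N).pow _ |>.mul ?_).mul (hnat m).inv
  refine isAlgebraic_sum _ _ fun a => ?_
  exact (isIntegral_char ψ _).isAlgebraic.mul (hrat _)

/-- One character: almost all primes. -/
lemma one_char {N : ℕ} [NeZero N] (ψ : DirichletCharacter ℂ N) {m : ℕ} (hm1 : 1 ≤ m) :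
    ∃ P : ℕ, ∀ p : ℕ, p.Prime → P < p → ψ.IsPrimitive → ψ (-1) = (-1) ^ m →
      ¬ (m = 1 ∧ ψ (p : ZMod N) = 1) → IsUnitAt p (lValue p m ψ) := by
  by_cases hψ : ψ.IsPrimitive ∧ ψ (-1) = (-1) ^ m
  swap
  · exact ⟨0, fun p _ _ h1 h2 _ => absurd ⟨h1, h2⟩ hψ⟩
  obtain ⟨hprim, hpar⟩ := hψ
  have hm0 : (m : ℂ) ≠ 0 := Nat.cast_ne_zero.mpr (by omega)
  obtain ⟨P, hP⟩ := almost_all (z := genBernoulli m ψ / m)
    (div_ne_zero (genBernoulli_ne_zero ψ hprim hm1 hpar) hm0) (genBernoulli_alg ψ m)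
  refine ⟨max P N, fun p hp hlt _ _ hexc => ?_⟩
  have hPp : P < p := lt_of_le_of_lt (le_max_left _ _) hlt
  have hNp : N < p := lt_of_le_of_lt (le_max_right _ _) hlt
  have h1 : lValue p m ψ = (1 - ψ (p : ZMod N) * (p : ℂ) ^ (m - 1)) * (genBernoulli m ψ / m) := by
    unfold Pool.Agent.Results.MP_c2a07f_nt.FiveAndPowersOfThree.lValue
    rw [mul_div_assoc]
  rw [h1]
  refine isUnitAt_mul ?_ (hP p hp hPp)
  have hcop : p.Coprime N := (Nat.Prime.coprime_iff_not_dvd hp).2 fun h => by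
    have := Nat.le_of_dvd (NeZero.pos N) h
    omega
  have hroot : ψ (p : ZMod N) ^ N.totient = 1 := by
    have h2 := ZMod.unitOfCoprime p hcop
    rw [← map_pow, ← ZMod.coe_unitOfCoprime p hcop, ← Units.val_pow_eq_pow_val, ZMod.pow_totient,
      Units.val_one, map_one]
  have hφ : N.totient ≠ 0 := (Nat.totient_pos.2 (NeZero.pos N)).ne'
  rcases Nat.lt_or_ge 1 m with hm | hm
  · exact euler_unit hp hφ hroot hm
  · have hm' : m = 1 := by omega
    subst hm'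
    rw [Nat.sub_self, pow_zero, mul_one]
    refine euler_unit_one hφ hroot (fun h => hexc ⟨rfl, h⟩) ?_
    rw [Nat.isCoprime_iff_coprime]
    refine (Nat.Prime.coprime_iff_not_dvd hp).2 fun h => ?_
    have h3 := Nat.le_of_dvd (Nat.pos_of_ne_zero hφ) h
    have h4 := Nat.totient_le N
    omega

/-- Conductors up to `B`: almost all primes. -/
theorem bounded (B : ℕ) {m : ℕ} (hm1 : 1 ≤ m) :
    ∃ P : ℕ, ∀ p : ℕ, p.Prime → P < p → ∀ N : ℕ, N ≠ 0 → N ≤ B → ∀ ψ : DirichletCharacter ℂ N,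
      ψ.IsPrimitive → ψ (-1) = (-1) ^ m → ¬ (m = 1 ∧ ψ (p : ZMod N) = 1) → IsUnitAt p (lValue p m ψ) := by
  induction B with
  | zero => exact ⟨0, fun p _ _ N h1 h2 => absurd (Nat.le_zero.1 h2) h1⟩
  | succ B ih =>
    obtain ⟨P, hP⟩ := ih
    have : NeZero (B + 1) := ⟨Nat.succ_ne_zero B⟩
    have hfin : Finite (DirichletCharacter ℂ (B + 1)) := inferInstance
    choose Q hQ using fun ψ : DirichletCharacter ℂ (B + 1) => one_char ψ hm1
    have hbdd : ∃ R, ∀ ψ, Q ψ ≤ R := by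
      cases nonempty_fintype (DirichletCharacter ℂ (B + 1))
      exact ⟨Finset.univ.sup Q, fun ψ => Finset.le_sup (f := Q) (Finset.mem_univ ψ)⟩
    obtain ⟨R, hR⟩ := hbdd
    refine ⟨max P R, fun p hp hlt N hN0 hN => ?_⟩
    have hPp : P < p := lt_of_le_of_lt (le_max_left _ _) hlt
    have hRp : R < p := lt_of_le_of_lt (le_max_right _ _) hlt
    rcases Nat.lt_or_ge B N with h | h
    · have hNB : N = B + 1 := by omega
      subst hNB
      exact fun ψ h1 h2 h3 => hQ ψ p hp (lt_of_le_of_lt (hR ψ) hRp) h1 h2 h3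
    · exact hP p hp hPp N hN0 h

end Pool.Agent.J6H69.GB
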