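import Pool.Agent.J6H69.GB.UnitS
import Pool.Agent.J6H69.GB.Small

/-!
# All levels `N₁ (∏ ℓ) ^ K`, for a finite set of wild primes
-/

set_option autoImplicit false

namespace Pool.Agent.J6H69.GB

open Finset
open Pool.Agent.Results.MP_c2a07f_nt.FiveAndPowersOfThree (lValue)

/-- the part of `N` outside of `T` -/
lemma split_level {T : Finset ℕ} (hT : ∀ ℓ ∈ T, ℓ.Prime) {N₁ K N : ℕ} (hN₁ : N₁ ≠ 0)
    (hN : N ∣ N₁ * (∏ ℓ ∈ T, ℓ) ^ K) :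
    ∃ (N₂ : ℕ) (a : ℕ → ℕ), N₂ ≠ 0 ∧ N₂ ≤ N₁ ∧ N₂ ∣ N₁ ∧ N₂.Coprime (∏ ℓ ∈ T, ℓ ^ a ℓ) ∧
      N = N₂ * ∏ ℓ ∈ T, ℓ ^ a ℓ := by
  have hP0 : (∏ ℓ ∈ T, ℓ) ≠ 0 := Finset.prod_ne_zero_iff.2 fun r hr => (hT r hr).ne_zero
  have hN0 : N ≠ 0 := by
    rintro rfl
    rw [zero_dvd_iff] at hN
    exact mul_ne_zero hN₁ (pow_ne_zero _ hP0) hN
  set a : ℕ → ℕ := fun ℓ => padicValNat ℓ N with ha
  have h1 : (∏ ℓ ∈ T, ℓ ^ a ℓ) ∣ N := by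
    have h2 : ((∏ ℓ ∈ T, ℓ ^ a ℓ : ℕ) : ℤ) ∣ (N : ℤ) := by
      rw [prod_dvd_iff hT a]
      intro ℓ _
      exact Int.natCast_dvd_natCast.2 pow_padicValNat_dvd
    exact Int.natCast_dvd_natCast.1 h2
  obtain ⟨N₂, hN₂⟩ := h1
  have hN₂0 : N₂ ≠ 0 := by
    rintro rfl
    rw [mul_zero] at hN₂
    exact hN0 hN₂
  have hcop : ∀ ℓ ∈ T, N₂.Coprime ℓ := by
    intro ℓ hℓ
    rw [Nat.coprime_comm, Nat.Prime.coprime_iff_not_dvd (hT ℓ hℓ)]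
    intro h2
    have hFact : Fact ℓ.Prime := ⟨hT ℓ hℓ⟩
    have h3 : ℓ ^ (a ℓ + 1) ∣ N := by
      rw [hN₂, pow_succ]
      exact Nat.mul_dvd_mul (Finset.dvd_prod_of_mem (fun ℓ => ℓ ^ a ℓ) hℓ) h2
    have h4 := (padicValNat_dvd_iff_le hN0).1 h3
    simp only [ha] at h4
    omega
  have hc2 : N₂.Coprime (∏ ℓ ∈ T, ℓ ^ a ℓ) := Nat.Coprime.prod_right fun ℓ hℓ => (hcop ℓ hℓ).pow_right _
  have hc3 : N₂.Coprime ((∏ ℓ ∈ T, ℓ) ^ K) := (Nat.Coprime.prod_right fun ℓ hℓ => hcop ℓ hℓ).pow_right _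
  have hd : N₂ ∣ N₁ := hc3.dvd_of_dvd_mul_right ((Dvd.intro_left _ hN₂.symm).trans hN)
  exact ⟨N₂, a, hN₂0, Nat.le_of_dvd (Nat.pos_of_ne_zero hN₁) hd, hd, hc2, by rw [hN₂, mul_comm]⟩

/-- The uniform theorem for a fixed weight. -/
theorem allS (n : ℕ) {m : ℕ} (hm1 : 1 ≤ m) (S : Finset ℕ) : (∀ ℓ ∈ S, ℓ.Prime) → ∀ N₁ : ℕ, N₁ ≠ 0 →
    ∃ P : ℕ, ∀ p : ℕ, p.Prime → P < p → (∀ ℓ ∈ S, ¬ ℓ ^ (n + 1) ∣ p ^ (ℓ * (ℓ - 1)) - 1) →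
      ∀ K N : ℕ, N ∣ N₁ * (∏ ℓ ∈ S, ℓ) ^ K → ∀ ψ : DirichletCharacter ℂ N, ψ.IsPrimitive →
        ψ (-1) = (-1) ^ m → ¬ (m = 1 ∧ ψ (p : ZMod N) = 1) →
        Pool.Agent.Results.MP_c2a07f_nt.FiveAndPowersOfThree.IsUnitAt p (lValue p m ψ) := by
  classical
  induction S using Finset.strongInduction with
  | H S ih =>
    intro hS N₁ hN₁
    rcases S.eq_empty_or_nonempty with hSe | hne
    · obtain ⟨P, hP⟩ := bounded N₁ hm1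
      refine ⟨P, fun p hp hlt _ K N hN ψ h1 h2 h3 => ?_⟩
      rw [hSe, Finset.prod_empty, one_pow, mul_one] at hN
      have hN0 : N ≠ 0 := by
        rintro rfl
        exact hN₁ (zero_dvd_iff.1 hN)
      exact hP p hp hlt N hN0 (Nat.le_of_dvd (Nat.pos_of_ne_zero hN₁) hN) ψ h1 h2 h3
    · -- the large conductors
      have hlarge : ∀ N₂ : ℕ, ∃ A P : ℕ, 0 < N₂ → ∀ p : ℕ, p.Prime → P < p →
          (∀ ℓ ∈ S, ¬ ℓ ^ (n + 1) ∣ p ^ (ℓ * (ℓ - 1)) - 1) →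
          ∀ a : ℕ → ℕ, (∀ ℓ ∈ S, A ≤ a ℓ) → ∀ M : ℕ, M = ∏ ℓ ∈ S, ℓ ^ a ℓ → N₂.Coprime M → ∀ N : ℕ, N = N₂ * M →
          ∀ ψ : DirichletCharacter ℂ N, ψ.IsPrimitive → ψ (-1) = (-1) ^ m →
          Pool.Agent.Results.MP_c2a07f_nt.FiveAndPowersOfThree.IsUnitAt p (lValue p m ψ) := by
        intro N₂
        rcases Nat.eq_zero_or_pos N₂ with h | h
        · exact ⟨0, 0, fun h1 => absurd h h1.ne'⟩
        · obtain ⟨A, P, hAP⟩ := unitS hS hne h n hm1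
          exact ⟨A, P, fun _ => hAP⟩
      choose A P hAP using hlarge
      set A₀ := (range (N₁ + 1)).sup A with hA₀
      set P₀ := (range (N₁ + 1)).sup P with hP₀
      -- the others
      have hsmall : ∀ ℓ : ℕ, ∃ Q : ℕ, ℓ ∈ S → ∀ p : ℕ, p.Prime → Q < p →
          (∀ r ∈ S.erase ℓ, ¬ r ^ (n + 1) ∣ p ^ (r * (r - 1)) - 1) →
          ∀ K N : ℕ, N ∣ (N₁ * ℓ ^ A₀) * (∏ r ∈ S.erase ℓ, r) ^ K → ∀ ψ : DirichletCharacter ℂ N, ψ.IsPrimitive →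
          ψ (-1) = (-1) ^ m → ¬ (m = 1 ∧ ψ (p : ZMod N) = 1) →
          Pool.Agent.Results.MP_c2a07f_nt.FiveAndPowersOfThree.IsUnitAt p (lValue p m ψ) := by
        intro ℓ
        by_cases hℓ : ℓ ∈ S
        · obtain ⟨Q, hQ⟩ := ih (S.erase ℓ) (Finset.erase_ssubset hℓ)
            (fun r hr => hS r (Finset.mem_of_mem_erase hr)) (N₁ * ℓ ^ A₀)
            (mul_ne_zero hN₁ (pow_ne_zero _ (hS ℓ hℓ).ne_zero))
          exact ⟨Q, fun _ => hQ⟩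
        · exact ⟨0, fun h => absurd h hℓ⟩
      choose Q hQ using hsmall
      refine ⟨max P₀ (S.sup Q), fun p hp hlt hn K N hN ψ h1 h2 h3 => ?_⟩
      obtain ⟨N₂, a, hN₂0, hN₂le, hN₂d, hcop, hNeq⟩ := split_level hS hN₁ hN
      by_cases hall : ∀ ℓ ∈ S, A₀ ≤ a ℓ
      · have hmem : N₂ ∈ range (N₁ + 1) := mem_range.2 (by omega)
        have hA : A N₂ ≤ A₀ := Finset.le_sup (f := A) hmem
        have hP : P N₂ ≤ P₀ := Finset.le_sup (f := P) hmem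
        have hP' : P₀ < p := lt_of_le_of_lt (le_max_left _ _) hlt
        exact hAP N₂ (Nat.pos_of_ne_zero hN₂0) p hp (by omega) hn a (fun ℓ hℓ => hA.trans (hall ℓ hℓ)) _ rfl hcop N
          hNeq ψ h1 h2
      · push Not at hall
        obtain ⟨ℓ, hℓ, hlt'⟩ := hall
        have hQ1 : Q ℓ ≤ S.sup Q := Finset.le_sup (f := Q) hℓ
        have hQ2 : S.sup Q < p := lt_of_le_of_lt (le_max_right _ _) hlt
        refine hQ ℓ hℓ p hp (by omega) (fun r hr => hn r (Finset.mem_of_mem_erase hr)) (∑ r ∈ S, a r) N ?_ ψ h1 h2 h3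
        rw [hNeq, ← Finset.mul_prod_erase S (fun r => r ^ a r) hℓ, ← mul_assoc, ← Finset.prod_pow]
        refine Nat.mul_dvd_mul (Nat.mul_dvd_mul hN₂d (pow_dvd_pow _ hlt'.le)) (Finset.prod_dvd_prod_of_dvd _ _ ?_)
        intro r hr
        exact pow_dvd_pow _ (Finset.single_le_sum (f := a) (fun _ _ => Nat.zero_le _) (Finset.mem_of_mem_erase hr))

end Pool.Agent.J6H69.GB
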