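import Pool.Agent.J6H69.GB.GeoS
import Pool.Agent.J6H69.GB.Small

/-!
# The sums in characteristic `p` do not vanish if all wild parts of the conductor are large
-/

set_option autoImplicit false

namespace Pool.Agent.J6H69.GB

open Finset Polynomial
open Pool.Agent.Y18.GX (FF)

lemma FF_step {k : Type} [CommRing k] (m : ℕ) (x : k) :
    aeval (1 + x) (FF m) - aeval x (FF m) = (m.factorial * m : ℕ) * x ^ (m - 1) := by
  have hinj : Function.Injective (Polynomial.map (Int.castRingHom ℚ)) :=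
    Polynomial.map_injective _ (Int.castRingHom ℚ).injective_int
  have h1 : (FF m).comp (1 + X) - FF m = C ((m.factorial * m : ℕ) : ℤ) * X ^ (m - 1) := by
    apply hinj
    have h2 := Polynomial.bernoulli_comp_one_add_X m
    rw [Polynomial.map_sub, Polynomial.map_comp, Pool.Agent.Y18.GX.FF_map, Polynomial.map_add, Polynomial.map_one,
      map_X, mul_comp, C_comp, sub_comp, C_comp, h2, Polynomial.map_mul, map_C, Polynomial.map_pow, map_X]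
    rw [nsmul_eq_mul]
    push_cast
    simp only [map_mul, map_natCast]
    ring
  have h3 := congrArg (fun P => aeval x P) h1
  simp only [map_sub, aeval_comp, map_add, map_one, aeval_X, map_mul, aeval_C, map_pow] at h3
  rw [h3]
  push_cast
  simp

theorem coreS {T : Finset ℕ} (hT : ∀ ℓ ∈ T, ℓ.Prime) (hne : T.Nonempty) {N₂ e m : ℕ} (hN₂ : 0 < N₂) (he : 2 ≤ e)
    (hm1 : 1 ≤ m) :
    ∃ A : ℕ, ∀ a : ℕ → ℕ, (∀ ℓ ∈ T, A ≤ a ℓ) → ∀ p g : ℕ, p.Prime → 2 < p → m < p → p ∉ T → ¬ p ∣ N₂ →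
      (∀ ℓ ∈ T, padicValNat ℓ (p ^ g - 1) = e) → (∀ ℓ ∈ T, Lf ℓ ∣ p ^ g - 1) → 1 < p ^ g → N₂.totient ∣ g →
      ∀ M : ℕ, M = ∏ ℓ ∈ T, ℓ ^ a ℓ → N₂.Coprime M →
      ∀ (k : Type) [Field k] [CharP k p] (χ₁ : MulChar (ZMod N₂) k) (χ₂ : MulChar (ZMod M) k),
        (∀ x, χ₁ x ^ p ^ g = χ₁ x) →
        (∀ r : ℕ, r.Prime → r ∣ M → ∃ y : ℤ, ((M / r : ℕ) : ℤ) ∣ y - 1 ∧ χ₂ (y : ZMod M) ≠ 1) →
        χ₁ (-1) * χ₂ (-1) = (-1) ^ m →
        (∑ x ∈ range (N₂ * M), χ₁ (x : ZMod N₂) * χ₂ (x : ZMod M) *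
          aeval ((x : k) / (N₂ * M : ℕ)) (FF m) ≠ 0) ∧
        (m = 1 → χ₁ (p : ZMod N₂) * χ₂ (p : ZMod M) ≠ 1) := by
  classical
  obtain ⟨A, hA⟩ := geoS (n := m + 1) hT hne hN₂ (by omega : 1 ≤ e)
  refine ⟨A + 2 * e, fun a ha p g hp h2p hmp hpT hpN hqe hqL hq hφg M hM hcopN k _ _ χ₁ χ₂ hχ₁ hprim hpar => ?_⟩
  have hFact : Fact p.Prime := ⟨hp⟩
  have ha1 : ∀ ℓ ∈ T, A ≤ a ℓ := fun ℓ hℓ => (Nat.le_add_right _ _).trans (ha ℓ hℓ)
  have ha2 : ∀ ℓ ∈ T, 2 * e ≤ a ℓ := fun ℓ hℓ => (Nat.le_add_left _ _).trans (ha ℓ hℓ)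
  choose! h hh using fun (ℓ : ℕ) (hℓ : ℓ ∈ T) => exists_root (hT ℓ hℓ) (a ℓ)
  obtain ⟨z, δ, s, E, hz, hδ, hδT, hs0, hsE, hED, hz0, hδ0, hz1, hδ1, hscop, hps, hmain⟩ :=
    hA a h ha1 (fun ℓ hℓ => by have := ha2 ℓ hℓ; omega) (fun ℓ hℓ => (hh ℓ hℓ).cyc) p hp hpT hpN
  set D : ℕ := ∏ ℓ ∈ T, ℓ ^ (a ℓ - e) with hD
  set Re : ℕ := ∏ ℓ ∈ T, ℓ ^ e with hRe
  have hM0 : 0 < M := by
    rw [hM]
    exact Finset.prod_pos fun ℓ hℓ => pow_pos (hT ℓ hℓ).pos _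
  have hD0 : 0 < D := Finset.prod_pos fun ℓ hℓ => pow_pos (hT ℓ hℓ).pos _
  have hMD : M = Re * D := by
    rw [hM, hD, hRe, ← Finset.prod_mul_distrib]
    refine Finset.prod_congr rfl fun ℓ hℓ => ?_
    rw [← pow_add, Nat.add_sub_cancel' (by have := ha2 ℓ hℓ; omega)]
  have hrT : ∀ r : ℕ, r.Prime → r ∣ M → r ∈ T := fun r hr hrM => prime_mem hT a hr (hM ▸ hrM)
  have hdM : ∀ ℓ ∈ T, ℓ ^ a ℓ ∣ M := fun ℓ hℓ => by
    rw [hM]
    exact Finset.dvd_prod_of_mem (fun ℓ => ℓ ^ a ℓ) hℓ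
  have hqd : ∀ ℓ ∈ T, ℓ ^ e ∣ p ^ g - 1 := fun ℓ hℓ => by
    have : Fact ℓ.Prime := ⟨hT ℓ hℓ⟩
    rw [← hqe ℓ hℓ]
    exact pow_padicValNat_dvd
  have hMq : ∀ r : ℕ, r.Prime → r ∣ M → r - 1 ∣ p ^ g - 1 ∧ r ∣ p ^ g - 1 ∧ (r = 2 → 4 ∣ p ^ g - 1) := by
    intro r hr hrM
    have hrT' := hrT r hr hrM
    refine ⟨?_, (dvd_pow_self r (by omega)).trans (hqd r hrT'), fun h2 => ?_⟩
    · have h1 := hqL r hrT'
      unfold Lf at h1
      split_ifs at h1 with h2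
      · subst h2
        exact one_dvd _
      · exact h1
    · subst h2
      exact (pow_dvd_pow 2 he).trans (hqd 2 hrT')
  have hpM : ¬ p ∣ M := fun h => hpT (hrT p hp h)
  have hpNM : ¬ p ∣ N₂ * M := fun h => by
    rcases (hp.dvd_mul).1 h with h | h
    · exact hpN h
    · exact hpM h
  have hMk : (M : k) ≠ 0 := fun h => hpM ((CharP.cast_eq_zero_iff k p _).1 h)
  have hNk : ((N₂ * M : ℕ) : k) ≠ 0 := fun h => hpNM ((CharP.cast_eq_zero_iff k p _).1 h)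
  have hsq : ∀ r : ℕ, r.Prime → r ∣ M → r ^ 2 ∣ M := fun r hr hrM => by
    have hrT' := hrT r hr hrM
    exact (pow_dvd_pow r (by have := ha2 r hrT'; omega)).trans (hdM r hrT')
  obtain ⟨l₀, hl₀⟩ := hne
  have hM1 : 1 < M := by
    have h1 : 1 < l₀ ^ a l₀ := Nat.one_lt_pow (by have := ha2 l₀ hl₀; omega) (hT l₀ hl₀).one_lt
    exact lt_of_lt_of_le h1 (Nat.le_of_dvd hM0 (hdM l₀ hl₀))
  constructor
  · -- the sum
    intro hS
    -- the classes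
    have hη : ∀ f : {ℓ // ℓ ∈ T} → ℕ, ∃ η : ℕ, ∀ ℓ : {ℓ // ℓ ∈ T}, η ≡ h ℓ ^ f ℓ [MOD ℓ.1 ^ a ℓ] := by
      intro f
      obtain ⟨η, hη⟩ := Nat.chineseRemainderOfFinset (fun ℓ => if hℓ : ℓ ∈ T then h ℓ ^ f ⟨ℓ, hℓ⟩ else 0)
        (fun ℓ => ℓ ^ a ℓ) T (fun ℓ hℓ => pow_ne_zero _ (hT ℓ hℓ).ne_zero) (by
          intro ℓ hℓ r hr hne
          exact Nat.coprime_pow_primes _ _ (hT ℓ hℓ) (hT r hr) hne)
      refine ⟨η, fun ℓ => ?_⟩
      have := hη ℓ.1 ℓ.2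
      rw [dif_pos ℓ.2] at this
      exact this
    choose η hη using hη
    have hcomb : ∀ x y : ℤ, (∀ ℓ : {ℓ // ℓ ∈ T}, x ≡ y [ZMOD (ℓ.1 ^ a ℓ : ℕ)]) → x ≡ y [ZMOD M] := by
      intro x y hxy
      rw [Int.modEq_iff_dvd, hM, prod_dvd_iff hT a]
      intro ℓ hℓ
      exact (hxy ⟨ℓ, hℓ⟩).dvd
    have hηz : ∀ f, ∀ ℓ : {ℓ // ℓ ∈ T}, ((η f : ℕ) : ℤ) ≡ (h ℓ : ℤ) ^ f ℓ [ZMOD (ℓ.1 ^ a ℓ : ℕ)] := by
      intro f ℓ
      have := Int.natCast_modEq_iff.2 (hη f ℓ)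
      push_cast at this ⊢
      exact this
    have hℓM : ∀ ℓ ∈ T, ℓ ∣ M := fun ℓ hℓ => (dvd_pow_self ℓ (by have := ha2 ℓ hℓ; omega)).trans (hdM ℓ hℓ)
    -- coprimality criterion
    have hcrit : ∀ x : ℤ, (∀ ℓ ∈ T, IsCoprime x (ℓ : ℤ)) → IsCoprime x (M : ℤ) := by
      intro x hx
      rw [hM, Nat.cast_prod]
      refine IsCoprime.prod_right fun ℓ hℓ => ?_
      push_cast
      exact (hx ℓ hℓ).pow_right
    have hηc : ∀ f ∈ II T, IsCoprime ((η f : ℕ) : ℤ) (M : ℤ) := by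
      intro f _
      refine hcrit _ fun ℓ hℓ => ?_
      have h1 := hη f ⟨ℓ, hℓ⟩
      have ha0 : a ℓ ≠ 0 := by
        have := ha2 ℓ hℓ
        omega
      have h2 : η f ≡ h ℓ ^ f ⟨ℓ, hℓ⟩ [MOD ℓ] := h1.of_dvd (dvd_pow_self ℓ ha0)
      rw [Nat.isCoprime_iff_coprime, Nat.coprime_iff_gcd_eq_one, h2.gcd_eq]
      exact (hh ℓ hℓ).cop.pow_left _
    have hscopT : ∀ ℓ ∈ T, IsCoprime s (ℓ : ℤ) := by
      intro ℓ hℓ
      refine hscop.of_isCoprime_of_dvd_right ?_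
      have h1 : ℓ ∣ Re := (dvd_pow_self ℓ (by omega)).trans (Finset.dvd_prod_of_mem (fun ℓ => ℓ ^ e) hℓ)
      exact Int.natCast_dvd_natCast.2 (h1.mul_left _)
    have hscopN : IsCoprime s (N₂ : ℤ) :=
      hscop.of_isCoprime_of_dvd_right (Int.natCast_dvd_natCast.2 (dvd_mul_right _ _))
    have hzI : (0 : {ℓ // ℓ ∈ T} → ℕ) ∈ II T := mem_II.2 fun ℓ => by
      have := Lf_two_le (hT ℓ.1 ℓ.2)
      rw [Pi.zero_apply]
      omega
    have hhI : halfI T ∈ II T := mem_II.2 fun ℓ => by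
      have := Lf_two_le (hT ℓ.1 ℓ.2)
      unfold halfI
      omega
    have h0h : (0 : {ℓ // ℓ ∈ T} → ℕ) ≠ halfI T := by
      intro h1
      have h2 : (0 : ℕ) = Lf l₀ / 2 := congrFun h1 ⟨l₀, hl₀⟩
      have := Lf_two_le (hT l₀ hl₀)
      omega
    -- the relations
    have hP : ∀ c : ℤ, IsCoprime c (M : ℤ) → ∑ f ∈ II T, ∑ x ∈ range (N₂ * M),
        (if ((x : ℤ) ≡ ((η f : ℕ) : ℤ) * c [ZMOD D]) then χ₁ (x : ZMod N₂) * χ₂ (x : ZMod M) *
        aeval ((x : k) / (N₂ * M : ℕ)) (FF m) else 0) = 0 := by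
      intro c hc
      obtain ⟨c₀, hc₀⟩ : ∃ c₀ : ℕ, (c₀ : ℤ) = c % M := ⟨(c % M).toNat,
        Int.toNat_of_nonneg (Int.emod_nonneg _ (by exact_mod_cast hM0.ne'))⟩
      have hcc : c ≡ c₀ [ZMOD M] := by
        rw [hc₀]
        exact (Int.mod_modEq _ _).symm
      have hc₀c : c₀.Coprime M := by
        rw [← Nat.isCoprime_iff_coprime, hc₀]
        have h1 : c % M = c + (M : ℤ) * (-(c / M)) := by
          have := Int.emod_add_mul_ediv c M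
          linarith
        rw [h1]
        exact hc.add_mul_left_left _
      have hc₀0 : 0 < c₀ := by
        rcases Nat.eq_zero_or_pos c₀ with h1 | h1
        · rw [h1, Nat.coprime_zero_left] at hc₀c
          omega
        · exact h1
      have hDM : (D : ℤ) ∣ M := by
        rw [hMD]
        exact_mod_cast dvd_mul_left D Re
      have hiff : ∀ (f : {ℓ // ℓ ∈ T} → ℕ) (x : ℕ), ((x : ℤ) ≡ ((η f : ℕ) : ℤ) * c [ZMOD D]) ↔
          ((x : ℤ) ≡ ((η f : ℕ) : ℤ) * c₀ [ZMOD D]) := by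
        intro f x
        have h1 : ((η f : ℕ) : ℤ) * c ≡ ((η f : ℕ) : ℤ) * c₀ [ZMOD D] := (hcc.mul_left _).of_dvd hDM
        exact ⟨fun h2 => h2.trans h1, fun h2 => h2.trans h1.symm⟩
      simp only [hiff]
      rw [sum_comm]
      refine Eq.trans ?_ (proj_ker (p := p) hM0 hq hMq hMk χ₁ χ₂ hχ₁ (FF m) hS hc₀c hc₀0)
      refine sum_congr rfl fun x _ => ?_
      by_cases hx : χ₂ (x : ZMod M) = 0
      · rw [hx]
        simp
      · have hx0 : 0 < x := by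
          rcases Nat.eq_zero_or_pos x with h1 | h1
          · exfalso
            apply hx
            have : Fact (1 < M) := ⟨hM1⟩
            rw [h1, Nat.cast_zero]
            exact χ₂.map_nonunit not_isUnit_zero
          · exact h1
        exact ker_classes hT he ha2 hq hqe hqL hh hM hD χ₂ hprim η (fun f _ ℓ => hη f ℓ) hc₀c x hx hx0 _
    refine wall (T₀ := N₂ * Re) (D := D) (n := m + 1) (by rw [hMD]; ring) (by rw [hMD]; exact dvd_mul_left _ _) hD0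
      (dvd_mul_right _ _) (fun r hr hrM => ?_) χ₁ χ₂ (FF m)
      (lt_of_le_of_lt (Pool.Agent.Y18.GX.FF_natDegree m) (Nat.lt_succ_self m))
      (fun x => Pool.Agent.Y18.GX.FF_aeval_refl m x) hpar (II T) (fun f => ((η f : ℕ) : ℤ)) z δ 0 (halfI T) hzI hhI
      h0h hP hηc ?_ ?_ ?_ ?_ ?_ (fun f hf => hδT f hf) (fun f hf h1 h2 => hmain f hf h1 h2) hs0 hsE hED hz0 hδ0 hz1 hδ1
      ?_ ?_ ?_ hNk
    · exact ((dvd_pow_self r (by omega)).trans
        (Finset.dvd_prod_of_mem (fun ℓ => ℓ ^ e) (hrT r hr hrM))).mul_left _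
    · rw [hz0]
      exact (hcrit s hscopT).neg_left
    · refine hcomb _ _ fun ℓ => ?_
      have := hηz 0 ℓ
      rwa [Pi.zero_apply, pow_zero] at this
    · refine hcomb _ _ fun ℓ => ?_
      refine (hηz (halfI T) ℓ).trans ?_
      rw [Int.modEq_iff_dvd]
      have h1 := (hh ℓ.1 ℓ.2).cyc
      obtain ⟨w, hw⟩ := cyc_half (Lf_two_le (hT ℓ.1 ℓ.2)) (Lf_even (hT ℓ.1 ℓ.2))
      have h2 := congrArg (fun P : ℤ[X] => P.eval (h ℓ : ℤ)) hw
      simp only [eval_add, eval_pow, eval_X, eval_one, eval_mul] at h2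
      have h3 : (-1 : ℤ) - (h ℓ : ℤ) ^ halfI T ℓ = -((h ℓ : ℤ) ^ (Lf ℓ.1 / 2) + 1) := by
        unfold halfI
        ring
      rw [h3, h2, dvd_neg]
      exact h1.mul_right _
    · intro f hf
      refine hcomb _ _ fun ℓ => ?_
      exact (hz f hf ℓ).trans (((hηz f ℓ).mul_right (z 0)).symm)
    · intro f hf
      refine hcomb _ _ fun ℓ => ?_
      exact (hδ f hf ℓ).trans (((hηz f ℓ).mul_right (δ 0)).symm)
    · have h1 : IsUnit ((s : ℤ) : ZMod N₂) := by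
        obtain ⟨x, y, hxy⟩ := hscopN
        have h6 := congrArg (Int.cast : ℤ → ZMod N₂) hxy
        rw [Int.cast_add, Int.cast_mul, Int.cast_mul, Int.cast_natCast, ZMod.natCast_self, mul_zero, add_zero,
          Int.cast_one] at h6
        exact IsUnit.of_mul_eq_one _ (by rw [mul_comm]; exact h6)
      exact (h1.map χ₁).ne_zero
    · intro h1
      have h2 := FF_step m ((s : k) / (N₂ * M : ℕ))
      rw [← h1, sub_self] at h2
      have hsk : (s : k) ≠ 0 := fun h3 => hps ((CharP.intCast_eq_zero_iff k p s).1 h3)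
      have hmk : ((m.factorial * m : ℕ) : k) ≠ 0 := by
        intro h3
        have h4 := (CharP.cast_eq_zero_iff k p _).1 h3
        rcases (hp.dvd_mul).1 h4 with h5 | h5
        · have := (hp.dvd_factorial).1 h5
          omega
        · have := Nat.le_of_dvd (by omega) h5
          omega
      exact (mul_ne_zero hmk (pow_ne_zero _ (div_ne_zero hsk hNk))) h2.symm
    · intro h1
      have h2 : ((2 : ℕ) : k) = 0 := by exact_mod_cast h1
      have h3 := (CharP.cast_eq_zero_iff k p 2).1 h2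
      have := Nat.le_of_dvd (by norm_num) h3
      omega
  · -- the Euler factor
    intro _ h1
    have h2 : (χ₁ (p : ZMod N₂) * χ₂ (p : ZMod M)) ^ g = 1 := by rw [h1, one_pow]
    have h3 : χ₁ (p : ZMod N₂) ^ g = 1 := by
      obtain ⟨w, hw⟩ := hφg
      have hcp : p.Coprime N₂ := (Nat.Prime.coprime_iff_not_dvd hp).2 hpN
      rw [hw, pow_mul, ← map_pow, ← ZMod.coe_unitOfCoprime p hcp, ← Units.val_pow_eq_pow_val, ZMod.pow_totient,
        Units.val_one, map_one, one_pow]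
    rw [mul_pow, h3, one_mul, ← map_pow, ← Nat.cast_pow] at h2
    have hq1 : 1 ≤ p ^ g := hq.le
    have h4 := faithful hM0 hsq χ₂ hprim hq1 (fun r hr hrM => (hMq r hr hrM).2) h2
    have h5 : l₀ ^ a l₀ ∣ p ^ g - 1 := (hdM l₀ hl₀).trans h4
    have hF0 : Fact l₀.Prime := ⟨hT l₀ hl₀⟩
    have h6 := (padicValNat_dvd_iff_le (by omega)).1 h5
    rw [hqe l₀ hl₀] at h6
    have := ha2 l₀ hl₀
    omega

end Pool.Agent.J6H69.GB
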