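import Pool.Agent.J6H69.GB.ProjS

/-!
# Generic points on a wall
-/

set_option autoImplicit false

namespace Pool.Agent.J6H69.GB

open Finset Polynomial

/-- `lam` as a linear form in `w` -/
noncomputable def lamL (L : ℕ) (P : ℝ[X]) : (ℕ → ℝ) →ₗ[ℝ] ℝ where
  toFun w := lam L w P
  map_add' w w' := lam_w_add L w w' P
  map_smul' c w := lam_w_mul L w c P

lemma lamL_single {L j : ℕ} (hj : j < L.totient) (P : ℝ[X]) :
    lamL L P (Pi.single j 1) = (P %ₘ cyclotomic L ℝ).coeff j := by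
  show lam L (Pi.single j 1) P = _
  unfold lam
  rw [Finset.sum_eq_single j]
  · rw [Pi.single_eq_same, mul_one]
  · intro b _ hb
    rw [Pi.single_eq_of_ne hb, mul_zero]
  · intro h
    exact absurd (mem_range.2 hj) h

/-- a power of `X` which is constant modulo `Φ_L` -/
lemma const_pow {L i : ℕ} (hL : 2 ≤ L) (hi : i < L)
    (h : ∀ j, 1 ≤ j → j < L.totient → ((X ^ i : ℝ[X]) %ₘ cyclotomic L ℝ).coeff j = 0) :
    (((X ^ i : ℝ[X]) %ₘ cyclotomic L ℝ).coeff 0 = 1 ∧ i = 0) ∨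
      (((X ^ i : ℝ[X]) %ₘ cyclotomic L ℝ).coeff 0 = -1 ∧ i = L / 2) := by
  set c := ((X ^ i : ℝ[X]) %ₘ cyclotomic L ℝ).coeff 0 with hc
  have hd : 0 < L.totient := Nat.totient_pos.2 (by omega)
  have h1 : (X ^ i : ℝ[X]) %ₘ cyclotomic L ℝ = C c := by
    rw [mod_sum (by omega : 1 ≤ L) (X ^ i : ℝ[X]), Finset.sum_eq_single 0]
    · rw [pow_zero, mul_one]
    · intro b hb hb0
      rw [h b (by omega) (mem_range.1 hb), C_0, zero_mul]
    · intro h0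
      exact absurd (mem_range.2 hd) h0
  have h2 := modByMonic_add_div (X ^ i : ℝ[X]) (cyclotomic L ℝ)
  rw [h1] at h2
  have hNe : NeZero L := ⟨by omega⟩
  have hζ := Complex.isPrimitiveRoot_exp L (by omega)
  set ζ := Complex.exp (2 * Real.pi * Complex.I / L) with hζdef
  have h3 := congrArg (fun P : ℝ[X] => aeval ζ P) h2
  simp only [map_add, map_mul, map_pow, aeval_X, aeval_C] at h3
  have h4 : aeval ζ (cyclotomic L ℝ) = 0 := by
    rw [aeval_def, ← eval_map, map_cyclotomic]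
    have := hζ.isRoot_cyclotomic (by omega)
    exact this
  rw [h4, zero_mul, add_zero] at h3
  have h5 : ‖ζ‖ = 1 := hζ.norm'_eq_one (by omega)
  have h6 : |c| = 1 := by
    have h7 := congrArg norm h3
    rw [norm_pow, h5, one_pow] at h7
    rw [← Real.norm_eq_abs, ← h7]
    simp
  have h8 : ((c : ℝ) : ℂ) = ζ ^ i := h3
  rcases eq_or_eq_neg_of_abs_eq h6 with h7 | h7
  · left
    refine ⟨h7, ?_⟩
    rw [h7, Complex.ofReal_one] at h8
    have h9 := hζ.dvd_of_pow_eq_one i h8.symm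
    by_contra hne
    have := Nat.le_of_dvd (by omega) h9
    omega
  · right
    refine ⟨h7, ?_⟩
    rw [h7] at h8
    push_cast at h8
    have h9 : ζ ^ (2 * i) = 1 := by
      rw [mul_comm, pow_mul, ← h8]
      norm_num
    have h10 := hζ.dvd_of_pow_eq_one _ h9
    have hi0 : i ≠ 0 := by
      rintro rfl
      rw [pow_zero] at h8
      norm_num at h8
    obtain ⟨w, hw⟩ := h10
    have hw1 : w = 1 := by
      have h11 : w ≠ 0 := by
        rintro rfl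
        omega
      have h12 : w < 2 := by
        by_contra hcon
        have : L * 2 ≤ L * w := Nat.mul_le_mul_left L (by omega)
        omega
      omega
    rw [hw1] at hw
    omega

/-- the index of `-1` -/
def halfI (T : Finset ℕ) : {ℓ // ℓ ∈ T} → ℕ := fun ℓ => Lf ℓ.1 / 2

variable {T : Finset ℕ}

/-- the real number which belongs to a class -/
noncomputable def form (T : Finset ℕ) (t : {ℓ // ℓ ∈ T} → ℕ → ℝ) (f : {ℓ // ℓ ∈ T} → ℕ) : ℝ :=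
  ∑ ℓ : {ℓ // ℓ ∈ T}, lam (Lf ℓ.1) (t ℓ) (X ^ f ℓ)

/-- `form` as a linear form -/
noncomputable def formL (T : Finset ℕ) (f : {ℓ // ℓ ∈ T} → ℕ) : ({ℓ // ℓ ∈ T} → ℕ → ℝ) →ₗ[ℝ] ℝ :=
  ∑ ℓ : {ℓ // ℓ ∈ T}, (lamL (Lf ℓ.1) (X ^ f ℓ)).comp (LinearMap.proj ℓ)

lemma formL_apply (t : {ℓ // ℓ ∈ T} → ℕ → ℝ) (f : {ℓ // ℓ ∈ T} → ℕ) : formL T f t = form T t f := by
  unfold formL form
  rw [LinearMap.sum_apply]
  rfl

lemma formL_single (hT : ∀ ℓ ∈ T, ℓ.Prime) (f : {ℓ // ℓ ∈ T} → ℕ) (ℓ : {ℓ // ℓ ∈ T}) {j : ℕ}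
    (hj : j < (Lf ℓ.1).totient) : formL T f (Pi.single ℓ (Pi.single j 1)) =
      ((X ^ f ℓ : ℝ[X]) %ₘ cyclotomic (Lf ℓ.1) ℝ).coeff j := by
  unfold formL
  rw [LinearMap.sum_apply, Finset.sum_eq_single ℓ]
  · rw [LinearMap.comp_apply, LinearMap.proj_apply, Pi.single_eq_same, lamL_single hj]
  · intro b _ hb
    rw [LinearMap.comp_apply, LinearMap.proj_apply, Pi.single_eq_of_ne hb, map_zero]
  · intro h
    exact absurd (mem_univ _) h

/-- the sum of the first coordinates -/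
noncomputable def wallL (T : Finset ℕ) : ({ℓ // ℓ ∈ T} → ℕ → ℝ) →ₗ[ℝ] ℝ :=
  ∑ ℓ : {ℓ // ℓ ∈ T}, (LinearMap.proj (R := ℝ) (φ := fun _ : ℕ => ℝ) 0).comp
    (LinearMap.proj (R := ℝ) (φ := fun _ : {ℓ // ℓ ∈ T} => ℕ → ℝ) ℓ)

lemma wallL_apply (t : {ℓ // ℓ ∈ T} → ℕ → ℝ) : wallL T t = ∑ ℓ, t ℓ 0 := by
  unfold wallL
  rw [LinearMap.sum_apply]
  rfl

lemma wallL_single (ℓ : {ℓ // ℓ ∈ T}) (j : ℕ) :
    wallL T (Pi.single ℓ (Pi.single j 1)) = if j = 0 then 1 else 0 := by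
  rw [wallL_apply, Finset.sum_eq_single ℓ]
  · rw [Pi.single_eq_same]
    split_ifs with h
    · rw [h, Pi.single_eq_same]
    · rw [Pi.single_eq_of_ne (Ne.symm h)]
  · intro b _ hb
    rw [Pi.single_eq_of_ne hb, Pi.zero_apply]
  · intro h
    exact absurd (mem_univ _) h

theorem generic (hT : ∀ ℓ ∈ T, ℓ.Prime) {B : ℝ} (hB : 0 < B) :
    ∃ (t : {ℓ // ℓ ∈ T} → ℕ → ℝ) (κ₀ : ℝ), 0 < κ₀ ∧ (∑ ℓ, t ℓ 0 = 0) ∧
      ∀ f ∈ II T, |form T t f| ≤ B ∧ (f ≠ 0 → f ≠ halfI T → κ₀ ≤ |form T t f|) := by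
  classical
  set W : Submodule ℝ ({ℓ // ℓ ∈ T} → ℕ → ℝ) := LinearMap.ker (wallL T) with hW
  set J : Finset ({ℓ // ℓ ∈ T} → ℕ) := (II T).filter (fun f => f ≠ 0 ∧ f ≠ halfI T) with hJ
  set s : Finset (Subspace ℝ W) := J.image (fun f => LinearMap.ker ((formL T f).comp W.subtype)) with hs
  have htop : (⊤ : Subspace ℝ W) ∉ s := by
    intro h
    rw [hs, mem_image] at h
    obtain ⟨f, hf, hker⟩ := h
    rw [hJ, mem_filter] at hf
    obtain ⟨hfI, hf0, hfh⟩ := hf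
    rw [LinearMap.ker_eq_top] at hker
    have hzero : ∀ v : {ℓ // ℓ ∈ T} → ℕ → ℝ, wallL T v = 0 → formL T f v = 0 := by
      intro v hv
      have := congrArg (fun φ : W →ₗ[ℝ] ℝ => φ ⟨v, hv⟩) hker
      exact this
    -- the coefficients
    have hcoef : ∀ (ℓ : {ℓ // ℓ ∈ T}) (j : ℕ), 1 ≤ j → j < (Lf ℓ.1).totient →
        ((X ^ f ℓ : ℝ[X]) %ₘ cyclotomic (Lf ℓ.1) ℝ).coeff j = 0 := by
      intro ℓ j hj1 hj
      rw [← formL_single hT f ℓ hj]
      apply hzero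
      rw [wallL_single, if_neg (by omega)]
    have hcst : ∀ ℓ ℓ' : {ℓ // ℓ ∈ T}, ((X ^ f ℓ : ℝ[X]) %ₘ cyclotomic (Lf ℓ.1) ℝ).coeff 0 =
        ((X ^ f ℓ' : ℝ[X]) %ₘ cyclotomic (Lf ℓ'.1) ℝ).coeff 0 := by
      intro ℓ ℓ'
      have hpos : ∀ r : {ℓ // ℓ ∈ T}, 0 < (Lf r.1).totient := fun r =>
        Nat.totient_pos.2 (by have := Lf_two_le (hT r.1 r.2); omega)
      rw [← formL_single hT f ℓ (hpos ℓ), ← formL_single hT f ℓ' (hpos ℓ'), ← sub_eq_zero, ← map_sub]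
      apply hzero
      rw [map_sub, wallL_single, wallL_single, if_pos rfl, sub_self]
    have hcp := fun ℓ : {ℓ // ℓ ∈ T} => const_pow (Lf_two_le (hT ℓ.1 ℓ.2)) (mem_II.1 hfI ℓ) (hcoef ℓ)
    by_cases hone : ∃ ℓ : {ℓ // ℓ ∈ T}, ((X ^ f ℓ : ℝ[X]) %ₘ cyclotomic (Lf ℓ.1) ℝ).coeff 0 = 1
    · obtain ⟨ℓ₀, h0⟩ := hone
      apply hf0
      funext ℓ
      rcases hcp ℓ with h1 | h1
      · exact h1.2
      · exfalso
        have h2 := hcst ℓ ℓ₀
        rw [h1.1, h0] at h2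
        norm_num at h2
    · push Not at hone
      apply hfh
      funext ℓ
      rcases hcp ℓ with h1 | h1
      · exact absurd h1.1 (hone ℓ)
      · exact h1.2
  have hun := Subspace.biUnion_ne_univ_of_top_notMem htop
  obtain ⟨v, hv⟩ := (Set.ne_univ_iff_exists_notMem _).1 hun
  have hv' : ∀ f ∈ J, form T v.1 f ≠ 0 := by
    intro f hf h0
    apply hv
    rw [Set.mem_iUnion₂]
    refine ⟨LinearMap.ker ((formL T f).comp W.subtype), ?_, ?_⟩
    · rw [hs]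
      exact mem_image_of_mem _ hf
    · show formL T f v.1 = 0
      rw [formL_apply]
      exact h0
  -- scaling
  set Mx : ℝ := 1 + ∑ f ∈ II T, |form T v.1 f| with hMx
  have hMx0 : 0 < Mx := by
    have : 0 ≤ ∑ f ∈ II T, |form T v.1 f| := Finset.sum_nonneg fun f _ => abs_nonneg _
    linarith
  have hle : ∀ f ∈ II T, |form T v.1 f| ≤ Mx := by
    intro f hf
    have h1 : |form T v.1 f| ≤ ∑ f ∈ II T, |form T v.1 f| :=
      Finset.single_le_sum (f := fun f => |form T v.1 f|) (fun f _ => abs_nonneg _) hf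
    linarith
  set c : ℝ := B / Mx with hc
  have hc0 : 0 < c := div_pos hB hMx0
  have hform : ∀ f, form T (fun ℓ j => c * v.1 ℓ j) f = c * form T v.1 f := by
    intro f
    unfold form
    rw [mul_sum]
    exact sum_congr rfl fun ℓ _ => lam_w_mul _ _ _ _
  obtain ⟨κ₁, hκ₁, hκ₁'⟩ : ∃ κ₁ : ℝ, 0 < κ₁ ∧ ∀ f ∈ J, κ₁ ≤ |form T v.1 f| := by
    rcases J.eq_empty_or_nonempty with hJe | hJne
    · exact ⟨1, one_pos, fun f hf => by rw [hJe] at hf; exact absurd hf (Finset.notMem_empty f)⟩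
    · obtain ⟨f₀, hf₀, hmin⟩ := Finset.exists_min_image J (fun f => |form T v.1 f|) hJne
      exact ⟨|form T v.1 f₀|, abs_pos.2 (hv' f₀ hf₀), hmin⟩
  refine ⟨fun ℓ j => c * v.1 ℓ j, c * κ₁, mul_pos hc0 hκ₁, ?_, fun f hf => ⟨?_, fun h0 h1 => ?_⟩⟩
  · rw [← mul_sum, ← wallL_apply]
    have h1 : wallL T v.1 = 0 := v.2
    rw [h1, mul_zero]
  · rw [hform, abs_mul, abs_of_pos hc0, hc]
    calc B / Mx * |form T v.1 f| ≤ B / Mx * Mx := mul_le_mul_of_nonneg_left (hle f hf) hc0.le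
      _ = B := by field_simp
  · rw [hform, abs_mul, abs_of_pos hc0]
    exact mul_le_mul_of_nonneg_left (hκ₁' f (by rw [hJ, mem_filter]; exact ⟨hf, h0, h1⟩)) hc0.le

end Pool.Agent.J6H69.GB
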