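import Pool.Agent.J6H69.GB.Generic

/-!
# Arithmetic progressions which cross exactly one wall
-/

set_option autoImplicit false

namespace Pool.Agent.J6H69.GB

open Finset Polynomial

variable {T : Finset ℕ}

/-- the product of the other prime powers -/
def Mf (T : Finset ℕ) (a : ℕ → ℕ) (ℓ : ℕ) : ℕ := ∏ r ∈ T \ {ℓ}, r ^ a r

lemma Mf_mul {a : ℕ → ℕ} {ℓ : ℕ} (hℓ : ℓ ∈ T) : ℓ ^ a ℓ * Mf T a ℓ = ∏ r ∈ T, r ^ a r := by
  unfold Mf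
  rw [Finset.sdiff_singleton_eq_erase]
  exact Finset.mul_prod_erase T (fun r => r ^ a r) hℓ

lemma dvd_Mf {a : ℕ → ℕ} {ℓ r : ℕ} (hℓ : ℓ ∈ T) (hne : ℓ ≠ r) : ℓ ^ a ℓ ∣ Mf T a r := by
  unfold Mf
  exact Finset.dvd_prod_of_mem (fun r => r ^ a r) (by simp [hℓ, hne])

/-- the integer which belongs to a family of sequences and a class -/
noncomputable def ZZ (T : Finset ℕ) (a : ℕ → ℕ) (u : {ℓ // ℓ ∈ T} → ℕ → ℤ) (f : {ℓ // ℓ ∈ T} → ℕ) : ℤ :=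
  ∑ ℓ : {ℓ // ℓ ∈ T}, (Mf T a ℓ.1 : ℤ) * lam (Lf ℓ.1) (u ℓ) (X ^ f ℓ)

/-- all sequences of the family are geometric modulo the prime powers -/
def GeoF (T : Finset ℕ) (a h : ℕ → ℕ) (u : {ℓ // ℓ ∈ T} → ℕ → ℤ) : Prop :=
  ∀ ℓ : {ℓ // ℓ ∈ T}, Geo (Lf ℓ.1) (ℓ.1 ^ a ℓ) (h ℓ) (u ℓ)

lemma GeoF.add {a h : ℕ → ℕ} {u v : {ℓ // ℓ ∈ T} → ℕ → ℤ} (hu : GeoF T a h u) (hv : GeoF T a h v) :
    GeoF T a h (fun ℓ j => u ℓ j + v ℓ j) := by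
  intro ℓ j hj
  have := (hu ℓ j hj).add (hv ℓ j hj)
  rw [← mul_add] at this
  exact this

lemma GeoF.mul {a h : ℕ → ℕ} {u : {ℓ // ℓ ∈ T} → ℕ → ℤ} (hu : GeoF T a h u) (c : ℤ) :
    GeoF T a h (fun ℓ j => c * u ℓ j) := by
  intro ℓ j hj
  have := (hu ℓ j hj).mul_left c
  rw [mul_left_comm] at this
  exact this

lemma ZZ_add (a : ℕ → ℕ) (u v : {ℓ // ℓ ∈ T} → ℕ → ℤ) (f : {ℓ // ℓ ∈ T} → ℕ) :
    ZZ T a (fun ℓ j => u ℓ j + v ℓ j) f = ZZ T a u f + ZZ T a v f := by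
  unfold ZZ
  rw [← Finset.sum_add_distrib]
  refine sum_congr rfl fun ℓ _ => ?_
  rw [lam_w_add, mul_add]

lemma ZZ_mul (a : ℕ → ℕ) (c : ℤ) (u : {ℓ // ℓ ∈ T} → ℕ → ℤ) (f : {ℓ // ℓ ∈ T} → ℕ) :
    ZZ T a (fun ℓ j => c * u ℓ j) f = c * ZZ T a u f := by
  unfold ZZ
  rw [mul_sum]
  refine sum_congr rfl fun ℓ _ => ?_
  rw [lam_w_mul]
  ring

lemma totient_Lf_pos (hT : ∀ ℓ ∈ T, ℓ.Prime) (ℓ : {ℓ // ℓ ∈ T}) : 0 < (Lf ℓ.1).totient :=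
  Nat.totient_pos.2 (by have := Lf_two_le (hT ℓ.1 ℓ.2); omega)

lemma ZZ_zero (hT : ∀ ℓ ∈ T, ℓ.Prime) (a : ℕ → ℕ) (u : {ℓ // ℓ ∈ T} → ℕ → ℤ) :
    ZZ T a u 0 = ∑ ℓ : {ℓ // ℓ ∈ T}, (Mf T a ℓ.1 : ℤ) * u ℓ 0 := by
  unfold ZZ
  refine sum_congr rfl fun ℓ _ => ?_
  rw [Pi.zero_apply, lam_X_pow _ (totient_Lf_pos hT ℓ)]

lemma ZZ_half (hT : ∀ ℓ ∈ T, ℓ.Prime) (a : ℕ → ℕ) (u : {ℓ // ℓ ∈ T} → ℕ → ℤ) :
    ZZ T a u (halfI T) = - ZZ T a u 0 := by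
  rw [ZZ_zero hT]
  unfold ZZ halfI
  rw [← Finset.sum_neg_distrib]
  refine sum_congr rfl fun ℓ _ => ?_
  rw [lam_half (Lf_two_le (hT ℓ.1 ℓ.2)) (Lf_even (hT ℓ.1 ℓ.2))]
  ring

lemma ZZ_modEq (hT : ∀ ℓ ∈ T, ℓ.Prime) {a h : ℕ → ℕ}
    (hh : ∀ ℓ ∈ T, ((ℓ ^ a ℓ : ℕ) : ℤ) ∣ (cyclotomic (Lf ℓ) ℤ).eval (h ℓ : ℤ))
    {u : {ℓ // ℓ ∈ T} → ℕ → ℤ} (hu : GeoF T a h u) (f : {ℓ // ℓ ∈ T} → ℕ) (ℓ : {ℓ // ℓ ∈ T}) :
    ZZ T a u f ≡ (h ℓ : ℤ) ^ f ℓ * ZZ T a u 0 [ZMOD (ℓ.1 ^ a ℓ : ℕ)] := by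
  have hL : 1 ≤ Lf ℓ.1 := by have := Lf_two_le (hT ℓ.1 ℓ.2); omega
  have key : ∀ f' : {ℓ // ℓ ∈ T} → ℕ, ZZ T a u f' ≡ (Mf T a ℓ.1 : ℤ) * ((h ℓ : ℤ) ^ f' ℓ * u ℓ 0)
      [ZMOD (ℓ.1 ^ a ℓ : ℕ)] := by
    intro f'
    unfold ZZ
    rw [← Finset.add_sum_erase univ _ (mem_univ ℓ)]
    have h1 : ∑ r ∈ univ.erase ℓ, (Mf T a r.1 : ℤ) * lam (Lf r.1) (u r) (X ^ f' r) ≡ 0
        [ZMOD (ℓ.1 ^ a ℓ : ℕ)] := by
      rw [Int.modEq_zero_iff_dvd]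
      refine Finset.dvd_sum fun r hr => ?_
      have hne : ℓ.1 ≠ r.1 := fun h => (Finset.ne_of_mem_erase hr) (Subtype.ext h.symm)
      exact (Int.natCast_dvd_natCast.2 (dvd_Mf ℓ.2 hne)).mul_right _
    have h2 := ((hu ℓ).ext hL (hh ℓ.1 ℓ.2) (f' ℓ)).mul_left (Mf T a ℓ.1 : ℤ)
    have h3 := h2.add h1
    rwa [add_zero] at h3
  have h1 := key f
  have h2 := key 0
  rw [Pi.zero_apply, pow_zero, one_mul] at h2
  have h3 := h2.mul_left ((h ℓ : ℤ) ^ f ℓ)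
  refine h1.trans ?_
  rw [mul_left_comm] at h3
  exact h3.symm

/-- a constant -/
noncomputable def Cst (T : Finset ℕ) : ℝ := ∑ ℓ : {ℓ // ℓ ∈ T}, (cst (Lf ℓ.1) (Lf ℓ.1) : ℝ)

lemma Cst_nonneg : 0 ≤ Cst T := Finset.sum_nonneg fun _ _ => Nat.cast_nonneg _

/-- approximation -/
lemma ZZ_approx {a : ℕ → ℕ} (u : {ℓ // ℓ ∈ T} → ℕ → ℤ) (θ : {ℓ // ℓ ∈ T} → ℕ → ℝ) {β : ℝ} (hβ : 0 ≤ β)
    (hu : ∀ ℓ : {ℓ // ℓ ∈ T}, ∀ j < (Lf ℓ.1).totient,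
      |(u ℓ j : ℝ) - ((ℓ.1 ^ a ℓ : ℕ) : ℝ) * θ ℓ j| ≤ β * ((ℓ.1 ^ a ℓ : ℕ) : ℝ))
    {f : {ℓ // ℓ ∈ T} → ℕ} (hf : f ∈ II T) :
    |((ZZ T a u f : ℤ) : ℝ) - ((∏ r ∈ T, r ^ a r : ℕ) : ℝ) * form T θ f| ≤
      ((∏ r ∈ T, r ^ a r : ℕ) : ℝ) * (β * Cst T) := by
  have h1 : ((ZZ T a u f : ℤ) : ℝ) - ((∏ r ∈ T, r ^ a r : ℕ) : ℝ) * form T θ f =
      ∑ ℓ : {ℓ // ℓ ∈ T}, (Mf T a ℓ.1 : ℝ) *
        lam (Lf ℓ.1) (fun j => (u ℓ j : ℝ) + (-((ℓ.1 ^ a ℓ : ℕ) : ℝ)) * θ ℓ j) (X ^ f ℓ) := by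
    unfold ZZ form
    rw [Int.cast_sum, mul_sum, ← Finset.sum_sub_distrib]
    refine sum_congr rfl fun ℓ _ => ?_
    rw [lam_w_add, lam_w_mul, Int.cast_mul, lam_castR, ← Mf_mul (a := a) ℓ.2]
    push_cast
    ring
  rw [h1]
  calc |∑ ℓ : {ℓ // ℓ ∈ T}, (Mf T a ℓ.1 : ℝ) *
        lam (Lf ℓ.1) (fun j => (u ℓ j : ℝ) + (-((ℓ.1 ^ a ℓ : ℕ) : ℝ)) * θ ℓ j) (X ^ f ℓ)|
      ≤ ∑ ℓ : {ℓ // ℓ ∈ T}, |(Mf T a ℓ.1 : ℝ) *
        lam (Lf ℓ.1) (fun j => (u ℓ j : ℝ) + (-((ℓ.1 ^ a ℓ : ℕ) : ℝ)) * θ ℓ j) (X ^ f ℓ)| :=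
        Finset.abs_sum_le_sum_abs _ _
    _ ≤ ∑ ℓ : {ℓ // ℓ ∈ T}, ((∏ r ∈ T, r ^ a r : ℕ) : ℝ) * (β * (cst (Lf ℓ.1) (Lf ℓ.1) : ℝ)) := by
        refine sum_le_sum fun ℓ _ => ?_
        rw [abs_mul, abs_of_nonneg (Nat.cast_nonneg _)]
        have h2 : |lam (Lf ℓ.1) (fun j => (u ℓ j : ℝ) + (-((ℓ.1 ^ a ℓ : ℕ) : ℝ)) * θ ℓ j) (X ^ f ℓ)| ≤
            cst (Lf ℓ.1) (Lf ℓ.1) * (β * ((ℓ.1 ^ a ℓ : ℕ) : ℝ)) := by
          refine lam_bound (mem_II.1 hf ℓ) _ (mul_nonneg hβ (Nat.cast_nonneg _)) fun j hj => ?_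
          have := hu ℓ j hj
          rw [neg_mul, ← sub_eq_add_neg]
          exact this
        calc (Mf T a ℓ.1 : ℝ) *
            |lam (Lf ℓ.1) (fun j => (u ℓ j : ℝ) + (-((ℓ.1 ^ a ℓ : ℕ) : ℝ)) * θ ℓ j) (X ^ f ℓ)|
            ≤ (Mf T a ℓ.1 : ℝ) * (cst (Lf ℓ.1) (Lf ℓ.1) * (β * ((ℓ.1 ^ a ℓ : ℕ) : ℝ))) :=
              mul_le_mul_of_nonneg_left h2 (Nat.cast_nonneg _)
          _ = ((∏ r ∈ T, r ^ a r : ℕ) : ℝ) * (β * (cst (Lf ℓ.1) (Lf ℓ.1) : ℝ)) := by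
              rw [← Mf_mul (a := a) ℓ.2]
              push_cast
              ring
    _ = ((∏ r ∈ T, r ^ a r : ℕ) : ℝ) * (β * Cst T) := by
        unfold Cst
        rw [mul_sum, mul_sum]

lemma form_zero (hT : ∀ ℓ ∈ T, ℓ.Prime) (θ : {ℓ // ℓ ∈ T} → ℕ → ℝ) : form T θ 0 = ∑ ℓ, θ ℓ 0 := by
  unfold form
  refine sum_congr rfl fun ℓ _ => ?_
  rw [Pi.zero_apply, lam_X_pow _ (totient_Lf_pos hT ℓ)]

/-- a change of one coordinate -/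
lemma form_change (t : {ℓ // ℓ ∈ T} → ℕ → ℝ) (ℓ₀ : {ℓ // ℓ ∈ T}) {S : ℝ} (hS : 0 ≤ S)
    {f : {ℓ // ℓ ∈ T} → ℕ} (hf : f ∈ II T) :
    |form T (fun ℓ j => t ℓ j + if ℓ = ℓ₀ ∧ j = 0 then -S else 0) f - form T t f| ≤ S * Cst T := by
  have h1 : form T (fun ℓ j => t ℓ j + if ℓ = ℓ₀ ∧ j = 0 then -S else 0) f - form T t f =
      ∑ ℓ : {ℓ // ℓ ∈ T}, lam (Lf ℓ.1) (fun j => if ℓ = ℓ₀ ∧ j = 0 then -S else 0) (X ^ f ℓ) := by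
    unfold form
    rw [← Finset.sum_sub_distrib]
    refine sum_congr rfl fun ℓ _ => ?_
    rw [lam_w_add]
    ring
  rw [h1]
  calc |∑ ℓ : {ℓ // ℓ ∈ T}, lam (Lf ℓ.1) (fun j => if ℓ = ℓ₀ ∧ j = 0 then -S else 0) (X ^ f ℓ)|
      ≤ ∑ ℓ : {ℓ // ℓ ∈ T}, |lam (Lf ℓ.1) (fun j => if ℓ = ℓ₀ ∧ j = 0 then -S else 0) (X ^ f ℓ)| :=
        Finset.abs_sum_le_sum_abs _ _
    _ ≤ ∑ ℓ : {ℓ // ℓ ∈ T}, (cst (Lf ℓ.1) (Lf ℓ.1) : ℝ) * S := by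
        refine sum_le_sum fun ℓ _ => lam_bound (mem_II.1 hf ℓ) _ hS fun j _ => ?_
        split_ifs
        · rw [abs_neg, abs_of_nonneg hS]
        · rw [abs_zero]
          exact hS
    _ = S * Cst T := by
        unfold Cst
        rw [mul_sum]
        exact sum_congr rfl fun ℓ _ => mul_comm _ _

theorem geoS (hT : ∀ ℓ ∈ T, ℓ.Prime) (hne : T.Nonempty) {N₂ e n : ℕ} (hN₂ : 0 < N₂) (he : 1 ≤ e) :
    ∃ A : ℕ, ∀ a h : ℕ → ℕ, (∀ ℓ ∈ T, A ≤ a ℓ) → (∀ ℓ ∈ T, e ≤ a ℓ) →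
      (∀ ℓ ∈ T, ((ℓ ^ a ℓ : ℕ) : ℤ) ∣ (cyclotomic (Lf ℓ) ℤ).eval (h ℓ : ℤ)) →
      ∀ p : ℕ, p.Prime → p ∉ T → ¬ p ∣ N₂ →
      ∃ z δ : ({ℓ // ℓ ∈ T} → ℕ) → ℤ, ∃ s E : ℤ,
        (∀ f ∈ II T, ∀ ℓ : {ℓ // ℓ ∈ T}, z f ≡ (h ℓ : ℤ) ^ f ℓ * z 0 [ZMOD (ℓ.1 ^ a ℓ : ℕ)]) ∧
        (∀ f ∈ II T, ∀ ℓ : {ℓ // ℓ ∈ T}, δ f ≡ (h ℓ : ℤ) ^ f ℓ * δ 0 [ZMOD (ℓ.1 ^ a ℓ : ℕ)]) ∧
        (∀ f ∈ II T, ((N₂ * ∏ ℓ ∈ T, ℓ ^ e : ℕ) : ℤ) ∣ δ f) ∧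
        0 < s ∧ s < E ∧ n * E < ((∏ ℓ ∈ T, ℓ ^ (a ℓ - e) : ℕ) : ℤ) ∧
        z 0 = -s ∧ δ 0 = -E ∧ z (halfI T) = s ∧ δ (halfI T) = E ∧
        IsCoprime s ((N₂ * ∏ ℓ ∈ T, ℓ ^ e : ℕ) : ℤ) ∧ ¬ (p : ℤ) ∣ s ∧
        ∀ f ∈ II T, f ≠ 0 → f ≠ halfI T → ∃ κ : ℤ, ∀ j : ℕ, j ≤ n →
          κ * ((∏ ℓ ∈ T, ℓ ^ (a ℓ - e) : ℕ) : ℤ) ≤ z f - j * δ f ∧
          z f - j * δ f < (κ + 1) * ((∏ ℓ ∈ T, ℓ ^ (a ℓ - e) : ℕ) : ℤ) := by
  classical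
  obtain ⟨l₀, hl₀⟩ := hne
  set ℓ₀ : {ℓ // ℓ ∈ T} := ⟨l₀, hl₀⟩ with hℓ₀
  set Re : ℕ := ∏ ℓ ∈ T, ℓ ^ e with hRe
  have hRe0 : 0 < Re := Finset.prod_pos fun ℓ hℓ => pow_pos (hT ℓ hℓ).pos _
  set T₀ : ℕ := N₂ * Re with hT₀
  have hT₀0 : 0 < T₀ := Nat.mul_pos hN₂ hRe0
  have hRer : (0 : ℝ) < Re := by exact_mod_cast hRe0
  have hT₀r : (0 : ℝ) < T₀ := by exact_mod_cast hT₀0
  -- the generic point
  set B : ℝ := 1 / (4 * Re) with hB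
  have hB0 : 0 < B := by positivity
  obtain ⟨t, κ₀, hκ₀, ht0, ht⟩ := generic hT hB0
  set κ' : ℝ := min κ₀ B with hκ'
  have hκ'0 : 0 < κ' := lt_min hκ₀ hB0
  have hκ'B : κ' ≤ B := min_le_right _ _
  set K₁ : ℝ := Cst T + 1 with hK₁
  have hC0 : 0 ≤ Cst T := Cst_nonneg
  have hK₁0 : 0 < K₁ := by linarith
  set ρ : ℝ := κ' / (4 * T₀ * K₁ * (n + 1)) with hρ
  have hn1 : (0 : ℝ) < (n : ℝ) + 1 := by positivity
  have hρ0 : 0 < ρ := by positivity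
  have hρeq : T₀ * ρ * K₁ * (n + 1) = κ' / 4 := by
    rw [hρ]
    field_simp
  obtain ⟨J, hJ⟩ := exists_nat_gt (16 * K₁ / ρ + 8 * T₀ * K₁ / κ')
  have hJr : (0 : ℝ) < J := lt_trans (by positivity) hJ
  have hJ0 : 0 < J := by exact_mod_cast hJr
  have hJ1 : 16 * K₁ < ρ * J := by
    have h1 : 16 * K₁ / ρ < J := lt_of_le_of_lt (le_add_of_nonneg_right (by positivity)) hJ
    rw [div_lt_iff₀ hρ0] at h1
    linarith
  have hJ2 : 8 * T₀ * K₁ < κ' * J := by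
    have h1 : 8 * T₀ * K₁ / κ' < J := lt_of_le_of_lt (le_add_of_nonneg_left (by positivity)) hJ
    rw [div_lt_iff₀ hκ'0] at h1
    linarith
  have hc1 : Cst T / J ≤ ρ / 16 := by
    rw [div_le_iff₀ hJr]
    nlinarith
  have hc2 : T₀ * (Cst T / J) ≤ κ' / 8 := by
    rw [← mul_div_assoc, div_le_iff₀ hJr]
    nlinarith
  -- thresholds
  choose A₁ hA₁ using fun ℓ : {ℓ // ℓ ∈ T} => dense (L := Lf ℓ.1)
    (by have := Lf_two_le (hT ℓ.1 ℓ.2); omega) (hT ℓ.1 ℓ.2) hJ0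
  choose A₂ hA₂ using fun ℓ : {ℓ // ℓ ∈ T} => short (L := Lf ℓ.1)
    (by have := Lf_two_le (hT ℓ.1 ℓ.2); omega) (hT ℓ.1 ℓ.2) hJ0
  refine ⟨univ.sup A₁ + univ.sup A₂, fun a h ha hae hh p hp hpT hpN => ?_⟩
  have ha₁ : ∀ ℓ : {ℓ // ℓ ∈ T}, A₁ ℓ ≤ a ℓ := fun ℓ =>
    (Finset.le_sup (f := A₁) (mem_univ ℓ)).trans ((Nat.le_add_right _ _).trans (ha ℓ.1 ℓ.2))
  have ha₂ : ∀ ℓ : {ℓ // ℓ ∈ T}, A₂ ℓ ≤ a ℓ := fun ℓ =>
    (Finset.le_sup (f := A₂) (mem_univ ℓ)).trans ((Nat.le_add_left _ _).trans (ha ℓ.1 ℓ.2))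
  set M : ℕ := ∏ r ∈ T, r ^ a r with hM
  set D : ℕ := ∏ ℓ ∈ T, ℓ ^ (a ℓ - e) with hD
  have hMD : M = D * Re := by
    rw [hM, hD, hRe, ← Finset.prod_mul_distrib]
    refine Finset.prod_congr rfl fun ℓ hℓ => ?_
    rw [← pow_add, Nat.sub_add_cancel (hae ℓ hℓ)]
  have hM0 : 0 < M := Finset.prod_pos fun ℓ hℓ => pow_pos (hT ℓ hℓ).pos _
  have hMr : (0 : ℝ) < M := by exact_mod_cast hM0
  have hDr : (D : ℝ) = M / Re := by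
    rw [hMD]
    push_cast
    field_simp
  have hqr : ∀ ℓ : {ℓ // ℓ ∈ T}, (0 : ℝ) < ((ℓ.1 ^ a ℓ : ℕ) : ℝ) := fun ℓ => by
    exact_mod_cast pow_pos (hT ℓ.1 ℓ.2).pos _
  -- the direction
  obtain ⟨u, hu1, hu2⟩ := hA₁ ℓ₀ (a ℓ₀) (ha₁ ℓ₀) (h ℓ₀) (hh ℓ₀.1 ℓ₀.2)
    (fun j => if j = 0 then -ρ * ((ℓ₀.1 ^ a ℓ₀ : ℕ) : ℝ) else 0)
  set U : {ℓ // ℓ ∈ T} → ℕ → ℤ := fun ℓ j => (T₀ : ℤ) * (if ℓ = ℓ₀ then u j else 0) with hU
  have hUG : GeoF T a h U := by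
    apply GeoF.mul
    intro ℓ j hj
    by_cases hℓ : ℓ = ℓ₀
    · subst hℓ
      simp only [if_true]
      exact hu1 j hj
    · simp only [if_neg hℓ, mul_zero]
      rfl
  set δ : ({ℓ // ℓ ∈ T} → ℕ) → ℤ := fun f => ZZ T a U f with hδ
  have hδT : ∀ f, ((T₀ : ℕ) : ℤ) ∣ δ f := by
    intro f
    rw [hδ, hU]
    simp only
    rw [ZZ_mul]
    exact dvd_mul_right _ _
  have hδapp : ∀ f ∈ II T, |((δ f : ℤ) : ℝ) - M * form T (fun ℓ j => (0 : ℝ) +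
      if ℓ = ℓ₀ ∧ j = 0 then -(T₀ * ρ) else 0) f| ≤ M * ((T₀ / J) * Cst T) := by
    intro f hf
    refine ZZ_approx U _ (by positivity) (fun ℓ j hj => ?_) hf
    rw [hU]
    simp only
    by_cases hℓ : ℓ = ℓ₀
    · subst hℓ
      have h1 := hu2 j hj
      rw [← le_div_iff₀ hJr] at h1
      simp only [if_true, true_and, zero_add]
      have h2 : (((T₀ : ℤ) * u j : ℤ) : ℝ) - ((ℓ₀.1 ^ a ℓ₀ : ℕ) : ℝ) * (if j = 0 then -(T₀ * ρ) else 0) =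
          T₀ * ((u j : ℝ) - if j = 0 then -ρ * ((ℓ₀.1 ^ a ℓ₀ : ℕ) : ℝ) else 0) := by
        split_ifs
        · push_cast
          ring
        · push_cast
          ring
      rw [h2, abs_mul, abs_of_pos hT₀r]
      calc (T₀ : ℝ) * |(u j : ℝ) - if j = 0 then -ρ * ((ℓ₀.1 ^ a ℓ₀ : ℕ) : ℝ) else 0|
          ≤ T₀ * (((ℓ₀.1 ^ a ℓ₀ : ℕ) : ℝ) / J) := mul_le_mul_of_nonneg_left h1 hT₀r.le
        _ = _ := by ring
    · simp only [if_neg hℓ, hℓ, false_and, if_false, add_zero, mul_zero, Int.cast_zero, sub_zero, abs_zero]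
      positivity
  have hT₀ρ : 0 ≤ (T₀ : ℝ) * ρ := by positivity
  have hzI : (0 : {ℓ // ℓ ∈ T} → ℕ) ∈ II T := mem_II.2 fun ℓ => by
    have := Lf_two_le (hT ℓ.1 ℓ.2)
    rw [Pi.zero_apply]
    omega
  have hhI : halfI T ∈ II T := mem_II.2 fun ℓ => by
    have := Lf_two_le (hT ℓ.1 ℓ.2)
    unfold halfI
    omega
  set E : ℤ := - δ 0 with hE
  have hJC : (T₀ / J : ℝ) * Cst T ≤ T₀ * (ρ / 16) := by
    have : (T₀ / J : ℝ) * Cst T = T₀ * (Cst T / J) := by ring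
    rw [this]
    exact mul_le_mul_of_nonneg_left hc1 hT₀r.le
  have hEapp : |(E : ℝ) - M * (T₀ * ρ)| ≤ M * (T₀ * (ρ / 16)) := by
    have h1 := hδapp 0 hzI
    rw [form_zero hT] at h1
    have h2 : (∑ ℓ : {ℓ // ℓ ∈ T}, ((0 : ℝ) + if ℓ = ℓ₀ ∧ (0 : ℕ) = 0 then -(T₀ * ρ) else 0)) = -(T₀ * ρ) := by
      simp
    rw [h2] at h1
    have h3 : (E : ℝ) - M * (T₀ * ρ) = -(((δ 0 : ℤ) : ℝ) - M * (-(T₀ * ρ))) := by
      rw [hE]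
      push_cast
      ring
    rw [h3, abs_neg]
    exact h1.trans (mul_le_mul_of_nonneg_left hJC hMr.le)
  have hE1 : M * (T₀ * ρ) * (15 / 16) ≤ (E : ℝ) := by
    have := (abs_le.1 hEapp).1
    nlinarith
  have hE2 : (E : ℝ) ≤ M * (T₀ * ρ) * (17 / 16) := by
    have := (abs_le.1 hEapp).2
    nlinarith
  have hδb : ∀ f ∈ II T, |((δ f : ℤ) : ℝ)| ≤ M * (T₀ * ρ * K₁) := by
    intro f hf
    have h1 := hδapp f hf
    have h2 := form_change (T := T) (fun _ _ => (0 : ℝ)) ℓ₀ hT₀ρ hf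
    have h3 : form T (fun _ _ => (0 : ℝ)) f = 0 := by
      unfold form
      exact sum_eq_zero fun ℓ _ => lam_w_zero _ _ fun _ _ => rfl
    rw [h3, sub_zero] at h2
    have h4 : |((δ f : ℤ) : ℝ)| ≤ M * ((T₀ / J) * Cst T) + M * (T₀ * ρ * Cst T) := by
      calc |((δ f : ℤ) : ℝ)| = |(((δ f : ℤ) : ℝ) - M * form T (fun ℓ j => (0 : ℝ) +
            if ℓ = ℓ₀ ∧ j = 0 then -(T₀ * ρ) else 0) f) + M * form T (fun ℓ j => (0 : ℝ) +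
            if ℓ = ℓ₀ ∧ j = 0 then -(T₀ * ρ) else 0) f| := by rw [sub_add_cancel]
        _ ≤ _ := (abs_add_le _ _).trans (add_le_add h1 (by
            rw [abs_mul, abs_of_pos hMr]
            exact mul_le_mul_of_nonneg_left h2 hMr.le))
    refine h4.trans ?_
    rw [← mul_add]
    refine mul_le_mul_of_nonneg_left ?_ hMr.le
    rw [hK₁]
    nlinarith [hJC, hT₀ρ]
  -- the base point: Bezout
  obtain ⟨b, hb⟩ : ∃ b : {ℓ // ℓ ∈ T} → ℤ, ∑ ℓ : {ℓ // ℓ ∈ T}, (Mf T a ℓ.1 : ℤ) * b ℓ = -1 := by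
    have h1 := (exists_sum_eq_one_iff_pairwise_coprime (t := T) (s := fun r : ℕ => ((r ^ a r : ℕ) : ℤ))
      ⟨l₀, hl₀⟩).2 (by
        intro i j hij
        exact coprime_pows hT a i.2 j.2 (fun h => hij (Subtype.ext h)))
    obtain ⟨μ, hμ⟩ := h1
    refine ⟨fun ℓ => - μ ℓ, ?_⟩
    rw [← Finset.sum_coe_sort T] at hμ
    rw [← hμ, ← Finset.sum_neg_distrib]
    refine sum_congr rfl fun ℓ _ => ?_
    unfold Mf
    push_cast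
    ring
  set w : {ℓ // ℓ ∈ T} → ℕ → ℤ := fun ℓ j => (h ℓ : ℤ) ^ j * b ℓ with hw
  have hwG : GeoF T a h w := by
    intro ℓ j _
    rw [hw]
    simp only [pow_zero, one_mul]
    rfl
  have hw0 : ZZ T a w 0 = -1 := by
    rw [ZZ_zero hT, ← hb]
    refine sum_congr rfl fun ℓ _ => ?_
    rw [hw]
    simp only [pow_zero, one_mul]
  set S : ℝ := E / (2 * M) with hS
  have hMS : M * S = E / 2 := by
    rw [hS]
    field_simp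
  have hE0 : (0 : ℝ) < E := lt_of_lt_of_le (by positivity) hE1
  have hS0 : 0 ≤ S := by positivity
  set θ : {ℓ // ℓ ∈ T} → ℕ → ℝ := fun ℓ j => t ℓ j + if ℓ = ℓ₀ ∧ j = 0 then -S else 0 with hθ
  -- the correction
  obtain ⟨y, hyG, hyb, hyp⟩ : ∃ y : {ℓ // ℓ ∈ T} → ℕ → ℤ, GeoF T a h y ∧
      (∀ ℓ : {ℓ // ℓ ∈ T}, ∀ j < (Lf ℓ.1).totient,
        |(y ℓ j : ℝ) - (((ℓ.1 ^ a ℓ : ℕ) : ℝ) * θ ℓ j - w ℓ j) / T₀| * J ≤ 2 * ((ℓ.1 ^ a ℓ : ℕ) : ℝ)) ∧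
      ¬ (p : ℤ) ∣ -1 + (T₀ : ℤ) * ZZ T a y 0 := by
    choose y₀ hy1 hy2 using fun ℓ : {ℓ // ℓ ∈ T} => hA₁ ℓ (a ℓ) (ha₁ ℓ) (h ℓ) (hh ℓ.1 ℓ.2)
      (fun j => (((ℓ.1 ^ a ℓ : ℕ) : ℝ) * θ ℓ j - w ℓ j) / T₀)
    by_cases hdiv : (p : ℤ) ∣ -1 + (T₀ : ℤ) * ZZ T a y₀ 0
    · obtain ⟨v, hv1, hv2, hv3⟩ := hA₂ ℓ₀ (a ℓ₀) (ha₂ ℓ₀) (h ℓ₀) (hh ℓ₀.1 ℓ₀.2) p hp
        (fun h => hpT (h ▸ ℓ₀.2))
      set V : {ℓ // ℓ ∈ T} → ℕ → ℤ := fun ℓ j => if ℓ = ℓ₀ then v j else 0 with hV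
      have hVG : GeoF T a h V := by
        intro ℓ j hj
        rw [hV]
        by_cases hℓ : ℓ = ℓ₀
        · subst hℓ
          simp only [if_true]
          exact hv1 j hj
        · simp only [if_neg hℓ, mul_zero]
          rfl
      refine ⟨fun ℓ j => y₀ ℓ j + V ℓ j, GeoF.add hy1 hVG, fun ℓ j hj => ?_, ?_⟩
      · have h1 := hy2 ℓ j hj
        have h2 : |(V ℓ j : ℝ)| * J ≤ ((ℓ.1 ^ a ℓ : ℕ) : ℝ) := by
          rw [hV]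
          by_cases hℓ : ℓ = ℓ₀
          · subst hℓ
            simp only [if_true]
            have := hv2 j hj
            exact_mod_cast this
          · simp only [if_neg hℓ, Int.cast_zero, abs_zero, zero_mul]
            exact (hqr ℓ).le
        have h3 : (((y₀ ℓ j + V ℓ j : ℤ)) : ℝ) - (((ℓ.1 ^ a ℓ : ℕ) : ℝ) * θ ℓ j - w ℓ j) / T₀ =
            ((y₀ ℓ j : ℝ) - (((ℓ.1 ^ a ℓ : ℕ) : ℝ) * θ ℓ j - w ℓ j) / T₀) + (V ℓ j : ℝ) := by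
          push_cast
          ring
        rw [h3]
        calc |((y₀ ℓ j : ℝ) - (((ℓ.1 ^ a ℓ : ℕ) : ℝ) * θ ℓ j - w ℓ j) / T₀) + (V ℓ j : ℝ)| * J
            ≤ (|(y₀ ℓ j : ℝ) - (((ℓ.1 ^ a ℓ : ℕ) : ℝ) * θ ℓ j - w ℓ j) / T₀| + |(V ℓ j : ℝ)|) * J :=
              mul_le_mul_of_nonneg_right (abs_add_le _ _) hJr.le
          _ ≤ 2 * ((ℓ.1 ^ a ℓ : ℕ) : ℝ) := by
              rw [add_mul]
              linarith
      · rw [ZZ_add, mul_add, ← add_assoc]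
        intro hcon
        have h1 := (Int.dvd_add_right hdiv).1 hcon
        rw [ZZ_zero hT a V, Finset.sum_eq_single ℓ₀ (fun ℓ _ hℓ => by rw [hV]; simp only [if_neg hℓ, mul_zero])
          (fun h => absurd (mem_univ _) h)] at h1
        simp only [hV, if_true] at h1
        have hpz : Prime (p : ℤ) := Nat.prime_iff_prime_int.1 hp
        rcases hpz.dvd_or_dvd h1 with h2 | h2
        · have h3 : p ∣ T₀ := Int.natCast_dvd_natCast.1 h2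
          rcases (hp.dvd_mul).1 h3 with h4 | h4
          · exact hpN h4
          · exact hpT (prime_mem hT (fun _ => e) hp h4)
        · rcases hpz.dvd_or_dvd h2 with h3 | h3
          · have h4 : p ∣ Mf T a ℓ₀.1 := Int.natCast_dvd_natCast.1 h3
            have h5 : p ∣ ∏ r ∈ T, r ^ a r := by
              rw [← Mf_mul (a := a) ℓ₀.2]
              exact h4.mul_left _
            exact hpT (prime_mem hT a hp h5)
          · exact hv3 h3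
    · refine ⟨y₀, hy1, fun ℓ j hj => (hy2 ℓ j hj).trans ?_, hdiv⟩
      have := hqr ℓ
      linarith
  set Zf : {ℓ // ℓ ∈ T} → ℕ → ℤ := fun ℓ j => w ℓ j + (T₀ : ℤ) * y ℓ j with hZf
  have hZG : GeoF T a h Zf := GeoF.add hwG (hyG.mul _)
  set z : ({ℓ // ℓ ∈ T} → ℕ) → ℤ := fun f => ZZ T a Zf f with hz
  have hz0 : z 0 = -1 + (T₀ : ℤ) * ZZ T a y 0 := by
    rw [hz, hZf]
    simp only
    rw [ZZ_add a w (fun ℓ j => (T₀ : ℤ) * y ℓ j), ZZ_mul, hw0]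
  have hzapp : ∀ f ∈ II T, |((z f : ℤ) : ℝ) - M * form T θ f| ≤ M * ((2 * T₀ / J) * Cst T) := by
    intro f hf
    refine ZZ_approx Zf _ (by positivity) (fun ℓ j hj => ?_) hf
    have h1 := hyb ℓ j hj
    rw [← le_div_iff₀ hJr] at h1
    have h2 : ((Zf ℓ j : ℤ) : ℝ) - ((ℓ.1 ^ a ℓ : ℕ) : ℝ) * θ ℓ j =
        T₀ * ((y ℓ j : ℝ) - (((ℓ.1 ^ a ℓ : ℕ) : ℝ) * θ ℓ j - w ℓ j) / T₀) := by
      rw [hZf]
      simp only
      push_cast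
      field_simp
      ring
    rw [h2, abs_mul, abs_of_pos hT₀r]
    calc (T₀ : ℝ) * |(y ℓ j : ℝ) - (((ℓ.1 ^ a ℓ : ℕ) : ℝ) * θ ℓ j - w ℓ j) / T₀|
        ≤ T₀ * (2 * ((ℓ.1 ^ a ℓ : ℕ) : ℝ) / J) := mul_le_mul_of_nonneg_left h1 hT₀r.le
      _ = _ := by ring
  have h2JC : (2 * T₀ / J : ℝ) * Cst T ≤ T₀ * ρ / 8 := by
    have : (2 * T₀ / J : ℝ) * Cst T = 2 * ((T₀ / J : ℝ) * Cst T) := by ring
    rw [this]
    linarith
  have h2JC' : (2 * T₀ / J : ℝ) * Cst T ≤ κ' / 4 := by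
    have : (2 * T₀ / J : ℝ) * Cst T = 2 * (T₀ * (Cst T / J)) := by ring
    rw [this]
    linarith
  set s : ℤ := - z 0 with hs
  have hsapp : |(s : ℝ) - E / 2| ≤ M * (T₀ * ρ / 8) := by
    have h1 := hzapp 0 hzI
    rw [form_zero hT] at h1
    have h2 : ∑ ℓ : {ℓ // ℓ ∈ T}, θ ℓ 0 = -S := by
      rw [hθ]
      simp only
      rw [Finset.sum_add_distrib, ht0, zero_add]
      simp
    rw [h2] at h1
    have h3 : (s : ℝ) - E / 2 = -(((z 0 : ℤ) : ℝ) - M * (-S)) := by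
      rw [hs, ← hMS]
      push_cast
      ring
    rw [h3, abs_neg]
    exact h1.trans (mul_le_mul_of_nonneg_left h2JC hMr.le)
  have hs1 : (0 : ℝ) < s := by
    have := (abs_le.1 hsapp).1
    have h4 : 0 < M * (T₀ * ρ) := by positivity
    nlinarith
  have hs2 : (s : ℝ) < E := by
    have := (abs_le.1 hsapp).2
    have h4 : 0 < M * (T₀ * ρ) := by positivity
    nlinarith
  have hT₀ρ1 : (T₀ : ℝ) * ρ * (n + 1) ≤ κ' / 4 := by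
    rw [← hρeq, hK₁]
    have : 0 ≤ (T₀ : ℝ) * ρ * (n + 1) * Cst T := by positivity
    nlinarith
  refine ⟨z, δ, s, E, fun f _ ℓ => ZZ_modEq hT hh hZG f ℓ, fun f _ ℓ => ZZ_modEq hT hh hUG f ℓ,
    fun f _ => hδT f, by exact_mod_cast hs1, by exact_mod_cast hs2, ?_, by rw [hs, neg_neg],
    by rw [hE, neg_neg], ZZ_half hT a Zf, ZZ_half hT a U, ?_, ?_, ?_⟩
  · -- `n E < D`
    have h1 : (n : ℝ) * E < D := by
      rw [hDr, lt_div_iff₀ hRer]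
      have h2 : (n : ℝ) * E ≤ n * (M * (T₀ * ρ) * (17 / 16)) := mul_le_mul_of_nonneg_left hE2 (Nat.cast_nonneg _)
      have h3 : (n : ℝ) * (T₀ * ρ) ≤ κ' / 4 := by
        have : 0 ≤ (T₀ : ℝ) * ρ := by positivity
        nlinarith
      have h4 : κ' * Re ≤ 1 / 4 := by
        have h5 : κ' * Re ≤ B * Re := mul_le_mul_of_nonneg_right hκ'B hRer.le
        have h6 : B * Re = 1 / 4 := by
          rw [hB]
          field_simp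
        linarith
      calc (n : ℝ) * E * Re ≤ n * (M * (T₀ * ρ) * (17 / 16)) * Re := mul_le_mul_of_nonneg_right h2 hRer.le
        _ = (n * (T₀ * ρ)) * (M * Re) * (17 / 16) := by ring
        _ ≤ (κ' / 4) * (M * Re) * (17 / 16) := by
            refine mul_le_mul_of_nonneg_right (mul_le_mul_of_nonneg_right h3 (by positivity)) (by norm_num)
        _ = (κ' * Re) * M * (17 / 64) := by ring
        _ ≤ (1 / 4) * M * (17 / 64) := by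
            refine mul_le_mul_of_nonneg_right (mul_le_mul_of_nonneg_right h4 hMr.le) (by norm_num)
        _ < M := by nlinarith
    exact_mod_cast h1
  · -- `s` is prime to `T₀`
    refine ⟨1, ZZ T a y 0, ?_⟩
    rw [hs, hz0]
    push_cast
    ring
  · rw [hs, dvd_neg, hz0]
    exact hyp
  · -- the other classes
    intro f hf hf0 hfh
    have hform := (ht f hf).2 hf0 hfh
    have hformB := (ht f hf).1
    have hch := form_change t ℓ₀ hS0 hf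
    have hSb : S * Cst T ≤ T₀ * ρ * Cst T * (17 / 32) := by
      have h1 : S ≤ T₀ * ρ * (17 / 32) := by
        rw [hS, div_le_iff₀ (by positivity)]
        nlinarith
      nlinarith
    -- the deviation
    have hdev : ∀ j : ℕ, j ≤ n → |((z f - j * δ f : ℤ) : ℝ) - M * form T t f| ≤ M * (κ' / 2) := by
      intro j hj
      have h1 := hzapp f hf
      have h2 := hδb f hf
      have hjn : (j : ℝ) ≤ n := by exact_mod_cast hj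
      have e1 : ((z f - j * δ f : ℤ) : ℝ) - M * form T t f = (((z f : ℤ) : ℝ) - M * form T θ f) +
          M * (form T θ f - form T t f) - j * ((δ f : ℤ) : ℝ) := by
        push_cast
        ring
      rw [e1]
      have h3 : |(j : ℝ) * ((δ f : ℤ) : ℝ)| ≤ n * (M * (T₀ * ρ * K₁)) := by
        rw [abs_mul, abs_of_nonneg (Nat.cast_nonneg j)]
        exact mul_le_mul hjn h2 (abs_nonneg _) (Nat.cast_nonneg _)
      have h4 : |(M : ℝ) * (form T θ f - form T t f)| ≤ M * (S * Cst T) := by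
        rw [abs_mul, abs_of_pos hMr]
        exact mul_le_mul_of_nonneg_left hch hMr.le
      calc |(((z f : ℤ) : ℝ) - M * form T θ f) + M * (form T θ f - form T t f) - j * ((δ f : ℤ) : ℝ)|
          ≤ |(((z f : ℤ) : ℝ) - M * form T θ f) + M * (form T θ f - form T t f)| +
            |(j : ℝ) * ((δ f : ℤ) : ℝ)| := abs_sub _ _
        _ ≤ (|((z f : ℤ) : ℝ) - M * form T θ f| + |(M : ℝ) * (form T θ f - form T t f)|) +
            |(j : ℝ) * ((δ f : ℤ) : ℝ)| := add_le_add (abs_add_le _ _) le_rfl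
        _ ≤ (M * ((2 * T₀ / J) * Cst T) + M * (S * Cst T)) + n * (M * (T₀ * ρ * K₁)) :=
            add_le_add (add_le_add h1 h4) h3
        _ = M * ((2 * T₀ / J) * Cst T + S * Cst T + n * (T₀ * ρ * K₁)) := by ring
        _ ≤ M * (κ' / 2) := by
            refine mul_le_mul_of_nonneg_left ?_ hMr.le
            have h5 : S * Cst T + n * (T₀ * ρ * K₁) ≤ κ' / 4 := by
              rw [← hρeq]
              have h6 : S * Cst T ≤ T₀ * ρ * K₁ := by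
                have h7 : T₀ * ρ * Cst T * (17 / 32) ≤ T₀ * ρ * K₁ := by
                  rw [hK₁]
                  have : 0 ≤ (T₀ : ℝ) * ρ * Cst T := by positivity
                  nlinarith
                linarith
              linarith [h6, show (T₀ : ℝ) * ρ * K₁ * (n + 1) = T₀ * ρ * K₁ + n * (T₀ * ρ * K₁) by ring]
            linarith
    have hκform : κ' ≤ |form T t f| := (min_le_left _ _).trans hform
    have hMB : M * (B + κ' / 2) < D := by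
      rw [hDr]
      have h1 : B + κ' / 2 < 1 / Re := by
        have h2 : κ' / 2 ≤ B / 2 := by linarith
        have h3 : B + B / 2 < 1 / Re := by
          rw [hB, lt_div_iff₀ hRer]
          have : (1 / (4 * (Re : ℝ)) + 1 / (4 * Re) / 2) * Re = 3 / 8 := by
            field_simp
            ring
          rw [this]
          norm_num
        linarith
      calc M * (B + κ' / 2) < M * (1 / Re) := mul_lt_mul_of_pos_left h1 hMr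
        _ = M / Re := by ring
    rcases le_or_gt 0 (form T t f) with hsgn | hsgn
    · refine ⟨0, fun j hj => ?_⟩
      have h1 := abs_le.1 (hdev j hj)
      rw [abs_of_nonneg hsgn] at hκform hformB
      rw [zero_mul, zero_add, one_mul]
      constructor
      · have h2 : (0 : ℝ) ≤ ((z f - j * δ f : ℤ) : ℝ) := by
          have h3 : M * (κ' / 2) ≤ M * (form T t f - κ' / 2) := mul_le_mul_of_nonneg_left (by linarith) hMr.le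
          have h4 : 0 ≤ M * (κ' / 2) := by positivity
          nlinarith [h1.1]
        exact_mod_cast h2
      · have h2 : ((z f - j * δ f : ℤ) : ℝ) < D := by
          have h3 : M * (form T t f + κ' / 2) ≤ M * (B + κ' / 2) := mul_le_mul_of_nonneg_left (by linarith) hMr.le
          nlinarith [h1.2]
        exact_mod_cast h2
    · refine ⟨-1, fun j hj => ?_⟩
      have h1 := abs_le.1 (hdev j hj)
      rw [abs_of_neg hsgn] at hκform hformB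
      rw [neg_one_mul, neg_add_cancel, zero_mul]
      constructor
      · have h2 : -(D : ℝ) ≤ ((z f - j * δ f : ℤ) : ℝ) := by
          have h3 : M * (-form T t f + κ' / 2) ≤ M * (B + κ' / 2) := mul_le_mul_of_nonneg_left (by linarith) hMr.le
          nlinarith [h1.1]
        exact_mod_cast h2
      · have h2 : ((z f - j * δ f : ℤ) : ℝ) < 0 := by
          have h3 : M * (κ' / 2) ≤ M * (-form T t f - κ' / 2) := mul_le_mul_of_nonneg_left (by linarith) hMr.le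
          have h4 : 0 < M * (κ' / 2) := by positivity
          nlinarith [h1.2]
        exact_mod_cast h2

end Pool.Agent.J6H69.GB
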