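import Pool.Agent.J6H69.GB.Tr

/-!
# The kernel of the `(q - 1)`-th power of a primitive character
-/

set_option autoImplicit false

namespace Pool.Agent.J6H69.GB

open Finset

lemma pow_pow_dvd {r y b : ℕ} (hy : 1 ≤ y) (h : r ∣ y - 1) : r ^ (b + 1) ∣ y ^ r ^ b - 1 := by
  have h1 : (r : ℤ) ∣ (y : ℤ) - 1 := by
    have h2 : ((r : ℕ) : ℤ) ∣ ((y - 1 : ℕ) : ℤ) := Int.natCast_dvd_natCast.2 h
    rwa [Nat.cast_sub hy, Nat.cast_one] at h2
  have h2 := dvd_sub_pow_of_dvd_sub h1 b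
  rw [one_pow] at h2
  have h3 : ((r ^ (b + 1) : ℕ) : ℤ) ∣ ((y ^ r ^ b - 1 : ℕ) : ℤ) := by
    rw [Nat.cast_sub (Nat.one_le_pow _ _ hy)]
    push_cast
    exact h2
  exact Int.natCast_dvd_natCast.1 h3

lemma sub_one_dvd {d y i : ℕ} (hy : 1 ≤ y) (h : d ∣ y - 1) : d ∣ y ^ i - 1 := by
  have := Nat.sub_dvd_pow_sub_pow y 1 i
  rw [one_pow] at this
  exact h.trans this

/-- `N ∣ y ^ N - 1` if `y = 1` modulo the primes of `N` -/
lemma dvd_pow_self_sub {N y : ℕ} (hy : 1 ≤ y) (h : ∀ r : ℕ, r.Prime → r ∣ N → r ∣ y - 1) : N ∣ y ^ N - 1 := by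
  rw [Nat.dvd_iff_prime_pow_dvd_dvd]
  intro r b hr hrb
  rcases Nat.eq_zero_or_pos b with hb | hb
  · rw [hb, pow_zero]
    exact one_dvd _
  · have h1 := h r hr ((dvd_pow_self r hb.ne').trans hrb)
    obtain ⟨N', hN'⟩ := hrb
    have h2 := pow_pow_dvd (b := b) hy h1
    rw [hN', pow_mul]
    exact sub_one_dvd (Nat.one_le_pow _ _ hy) ((pow_dvd_pow r (Nat.le_succ b)).trans h2)

/-- the exponent of the group of units -/
lemma univ_exp {M q x : ℕ} (hM : ∀ r : ℕ, r.Prime → r ∣ M → r - 1 ∣ q - 1) (hx : x.Coprime M) (hx0 : 0 < x) :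
    M ∣ x ^ ((q - 1) * M) - 1 := by
  rw [pow_mul]
  refine dvd_pow_self_sub (Nat.one_le_pow _ _ hx0) fun r hr hrM => ?_
  have h1 : x ^ (r - 1) ≡ 1 [MOD r] := by
    have := Nat.ModEq.pow_totient (hx.coprime_dvd_right hrM)
    rwa [Nat.totient_prime hr] at this
  obtain ⟨c, hc⟩ := hM r hr hrM
  rw [hc, pow_mul]
  exact sub_one_dvd (Nat.one_le_pow _ _ hx0) ((Nat.modEq_iff_dvd' (Nat.one_le_pow _ _ hx0)).1 h1.symm)

lemma one_add_pow {R : Type} [CommRing R] {ε : R} (h : ε * ε = 0) (i : ℕ) : (1 + ε) ^ i = 1 + i * ε := by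
  induction i with
  | zero => simp
  | succ i ih =>
    rw [pow_succ, ih]
    push_cast
    linear_combination (i : R) * h

section
variable {k : Type} [Field k]

/-- A primitive character modulo `M` is injective on the `1`-units. -/
theorem faithful {M : ℕ} (hM0 : 0 < M) (hsq : ∀ r : ℕ, r.Prime → r ∣ M → r ^ 2 ∣ M) (χ : MulChar (ZMod M) k)
    (hprim : ∀ r : ℕ, r.Prime → r ∣ M → ∃ y : ℤ, ((M / r : ℕ) : ℤ) ∣ y - 1 ∧ χ (y : ZMod M) ≠ 1)
    {x : ℕ} (hx1 : 1 ≤ x) (hx : ∀ r : ℕ, r.Prime → r ∣ M → r ∣ x - 1 ∧ (r = 2 → 4 ∣ x - 1))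
    (hχ : χ (x : ZMod M) = 1) : M ∣ x - 1 := by
  rcases Nat.eq_or_lt_of_le hx1 with h1 | h1
  · rw [← h1]
    exact dvd_zero M
  by_contra hcon
  rw [Nat.dvd_iff_prime_pow_dvd_dvd] at hcon
  push Not at hcon
  obtain ⟨r, b, hr, hrb, hrb'⟩ := hcon
  have : Fact r.Prime := ⟨hr⟩
  have hb0 : b ≠ 0 := by
    rintro rfl
    rw [pow_zero] at hrb'
    exact hrb' (one_dvd _)
  have hrM : r ∣ M := (dvd_pow_self r hb0).trans hrb
  obtain ⟨hr1, hr2⟩ := hx r hr hrM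
  obtain ⟨a, M', hM', hMeq⟩ := Nat.exists_eq_pow_mul_and_not_dvd hM0.ne' r hr.ne_one
  have hM'0 : M' ≠ 0 := by
    rintro rfl
    exact hM' (dvd_zero _)
  have hxne : x - 1 ≠ 0 := by omega
  set f := padicValNat r (x - 1) with hf
  have hfb : f < b := by
    by_contra hcon
    exact hrb' ((pow_dvd_pow r (by omega)).trans pow_padicValNat_dvd)
  have hba : b ≤ a := by
    by_contra hcon
    have h2 : r ^ (a + 1) ∣ r ^ a * M' := by
      rw [← hMeq]
      exact (pow_dvd_pow r (by omega)).trans hrb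
    rw [pow_succ] at h2
    exact hM' (Nat.dvd_of_mul_dvd_mul_left (pow_pos hr.pos a) h2)
  have ha2 : 2 ≤ a := by
    by_contra hcon
    have h2 : r ^ 2 ∣ r ^ a * M' := hMeq ▸ hsq r hr hrM
    have h3 : a = 0 ∨ a = 1 := by omega
    rcases h3 with h3 | h3
    · omega
    · rw [h3, pow_one, pow_two] at h2
      exact hM' (Nat.dvd_of_mul_dvd_mul_left hr.pos h2)
  set E := M' * r ^ (a - 1 - f) with hE
  have hE0 : E ≠ 0 := mul_ne_zero hM'0 (pow_ne_zero _ hr.ne_zero)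
  set y := x ^ E with hy
  have hy1 : 1 < y := Nat.one_lt_pow hE0 h1
  have hyne : y - 1 ≠ 0 := by omega
  have hval : padicValNat r (y - 1) = a - 1 := by
    rw [hy, vpow hr h1 hr1 hr2 hE0, hE, padicValNat.mul hM'0 (pow_ne_zero _ hr.ne_zero),
      padicValNat.eq_zero_of_not_dvd hM', padicValNat.prime_pow]
    omega
  have hd1 : r ^ (a - 1) ∣ y - 1 := by
    rw [← hval]
    exact pow_padicValNat_dvd
  have hd2 : M' ∣ y - 1 := by
    rw [hy, hE, pow_mul]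
    refine sub_one_dvd (Nat.one_le_pow _ _ hx1) (dvd_pow_self_sub hx1 fun r' hr' hr'M => ?_)
    exact (hx r' hr' (hMeq ▸ hr'M.mul_left _)).1
  have hcop : Nat.Coprime (r ^ (a - 1)) M' := Nat.Coprime.pow_left _ ((Nat.Prime.coprime_iff_not_dvd hr).2 hM')
  have hMr : M / r = r ^ (a - 1) * M' := by
    rw [hMeq]
    apply Nat.div_eq_of_eq_mul_right hr.pos
    rw [← mul_assoc, ← pow_succ']
    congr 2
    omega
  have hd3 : M / r ∣ y - 1 := by
    rw [hMr]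
    exact hcop.mul_dvd_of_dvd_of_dvd hd1 hd2
  obtain ⟨t₀, ht₀⟩ := hd3
  have ht₀r : ¬ r ∣ t₀ := by
    rintro ⟨w, hw⟩
    have h2 : r ^ a ∣ y - 1 := by
      rw [ht₀, hMr, hw]
      refine ⟨M' * w, ?_⟩
      have h3 : r ^ a = r ^ (a - 1) * r := by
        rw [← pow_succ]
        congr 1
        omega
      rw [h3]
      ring
    have h3 := (padicValNat_dvd_iff_le hyne).1 h2
    omega
  obtain ⟨y', hy', hχy'⟩ := hprim r hr hrM
  apply hχy'
  obtain ⟨t, ht⟩ := hy'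
  -- a power of `y`
  have hcop' : IsCoprime (t₀ : ℤ) (r : ℤ) := by
    rw [Nat.isCoprime_iff_coprime]
    exact ((Nat.Prime.coprime_iff_not_dvd hr).2 ht₀r).symm
  obtain ⟨u, v, huv⟩ := hcop'
  obtain ⟨i, hi⟩ : ∃ i : ℕ, (r : ℤ) ∣ (i : ℤ) - u * t := by
    refine ⟨((u * t) % (r : ℤ)).toNat, ?_⟩
    rw [Int.toNat_of_nonneg (Int.emod_nonneg _ (by exact_mod_cast hr.ne_zero))]
    exact (Int.modEq_iff_dvd.1 (Int.mod_modEq _ _).symm)
  have hMz : ((M / r : ℕ) : ZMod M) * ((r : ℕ) : ZMod M) = 0 := by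
    rw [← Nat.cast_mul, Nat.div_mul_cancel hrM, ZMod.natCast_self]
  have hεε : (((M / r : ℕ) : ZMod M) * (t₀ : ZMod M)) * (((M / r : ℕ) : ZMod M) * (t₀ : ZMod M)) = 0 := by
    have h2 : ((M / r : ℕ) : ZMod M) * ((M / r : ℕ) : ZMod M) = 0 := by
      rw [← Nat.cast_mul, ZMod.natCast_eq_zero_iff]
      rw [hMr]
      conv_lhs => rw [hMeq]
      refine ⟨r ^ (a - 2) * M', ?_⟩
      have h3 : r ^ (a - 1) * M' * (r ^ (a - 1) * M') = (r ^ (a - 1) * r ^ (a - 1)) * (M' * M') := by ring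
      have h4 : r ^ a * M' * (r ^ (a - 2) * M') = (r ^ a * r ^ (a - 2)) * (M' * M') := by ring
      rw [h3, h4, ← pow_add, ← pow_add]
      congr 2
      omega
    linear_combination (t₀ : ZMod M) ^ 2 * h2
  have hyz : ((y : ℕ) : ZMod M) = 1 + ((M / r : ℕ) : ZMod M) * (t₀ : ZMod M) := by
    have h2 : y = 1 + (M / r) * t₀ := by omega
    rw [h2]
    push_cast
    rfl
  have hy'z : ((y' : ℤ) : ZMod M) = ((y : ℕ) : ZMod M) ^ i := by
    rw [hyz, one_add_pow hεε]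
    generalize M / r = Q at *
    have h2 : y' = 1 + (Q : ℤ) * t := by linarith
    rw [h2]
    obtain ⟨w, hw⟩ := hi
    have h3 : (t₀ : ℤ) * i = t + r * (t₀ * w - v * t) := by
      have : (i : ℤ) = u * t + r * w := by linarith
      rw [this]
      linear_combination t * huv
    have h4 := congrArg (Int.cast : ℤ → ZMod M) h3
    push_cast at h4 ⊢
    linear_combination (-(Q : ZMod M)) * h4 - ((t₀ : ZMod M) * w - v * t) * hMz
  rw [hy'z, map_pow, hy, Nat.cast_pow, map_pow, hχ, one_pow, one_pow]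

/-- the kernel of the `(q - 1)`-th power -/
theorem ker_sub {M q : ℕ} (hM0 : 0 < M) (hsq : ∀ r : ℕ, r.Prime → r ∣ M → r ^ 2 ∣ M) (χ : MulChar (ZMod M) k)
    (hprim : ∀ r : ℕ, r.Prime → r ∣ M → ∃ y : ℤ, ((M / r : ℕ) : ℤ) ∣ y - 1 ∧ χ (y : ZMod M) ≠ 1)
    (hM : ∀ r : ℕ, r.Prime → r ∣ M → r - 1 ∣ q - 1 ∧ r ∣ q - 1)
    {x c : ℕ} (hx : x.Coprime M) (hc : c.Coprime M) (hx0 : 0 < x)
    (h : χ (x : ZMod M) ^ (q - 1) = χ (c : ZMod M) ^ (q - 1)) : x ^ (q - 1) ≡ c ^ (q - 1) [MOD M] := by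
  rcases Nat.eq_or_lt_of_le (show 1 ≤ M from hM0) with h1M | h1M
  · rw [← h1M]
    exact Nat.modEq_one
  obtain ⟨c', hc', hcc'⟩ := Nat.exists_mul_mod_eq_one_of_coprime hc h1M
  have hc'cop : c'.Coprime M := by
    have h0 : c * c' ≡ 1 [MOD M] := by
      show (c * c') % M = 1 % M
      rw [hcc', Nat.mod_eq_of_lt h1M]
    have h1 : (c * c').Coprime M := by
      rw [Nat.coprime_iff_gcd_eq_one, h0.gcd_eq]
      exact Nat.gcd_one_left M
    exact Nat.Coprime.coprime_mul_left h1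
  have hc'0 : 0 < c' := by
    rcases Nat.eq_zero_or_pos c' with h2 | h2
    · subst h2
      rw [mul_zero, Nat.zero_mod] at hcc'
      omega
    · exact h2
  set X := (x * c') ^ (q - 1) with hX
  have hX1 : 1 ≤ X := Nat.one_le_pow _ _ (Nat.mul_pos hx0 hc'0)
  have hxc : (x * c').Coprime M := hx.mul_left hc'cop
  have key : M ∣ X - 1 := by
    refine faithful hM0 hsq χ hprim hX1 (fun r hr hrM => ⟨?_, fun h2 => ?_⟩) ?_
    · obtain ⟨w, hw⟩ := (hM r hr hrM).1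
      have h1 : (x * c') ^ (r - 1) ≡ 1 [MOD r] := by
        have := Nat.ModEq.pow_totient (hxc.coprime_dvd_right hrM)
        rwa [Nat.totient_prime hr] at this
      rw [hX, hw, pow_mul]
      exact sub_one_dvd (Nat.one_le_pow _ _ (Nat.mul_pos hx0 hc'0))
        ((Nat.modEq_iff_dvd' (Nat.one_le_pow _ _ (Nat.mul_pos hx0 hc'0))).1 h1.symm)
    · subst h2
      obtain ⟨w, hw⟩ := (hM 2 hr hrM).2
      have hodd : ¬ 2 ∣ x * c' := by
        intro h3
        have := Nat.eq_one_of_dvd_coprimes hxc h3 hrM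
        omega
      have h4 : (x * c') ^ 2 % 4 = 1 := by
        rw [Nat.pow_mod]
        have : x * c' % 4 = 1 ∨ x * c' % 4 = 3 := by omega
        rcases this with h5 | h5 <;> rw [h5]
      rw [hX, hw, pow_mul]
      exact sub_one_dvd (Nat.one_le_pow _ _ (Nat.mul_pos hx0 hc'0)) (by omega)
    · rw [hX]
      push_cast
      rw [map_pow, map_mul, mul_pow, h, ← mul_pow, ← map_mul, ← Nat.cast_mul]
      have h2 : ((c * c' : ℕ) : ZMod M) = 1 := by
        rw [← Nat.cast_one, ZMod.natCast_eq_natCast_iff]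
        show (c * c') % M = 1 % M
        rw [hcc', Nat.mod_eq_of_lt h1M]
      rw [h2, map_one, one_pow]
  have h3 : X ≡ 1 [MOD M] := ((Nat.modEq_iff_dvd' hX1).2 key).symm
  have h4 : c * c' ≡ 1 [MOD M] := by
    show (c * c') % M = 1 % M
    rw [hcc', Nat.mod_eq_of_lt h1M]
  have h5 := h3.mul_right (c ^ (q - 1))
  rw [one_mul] at h5
  refine Nat.ModEq.trans ?_ h5
  have h6 : X * c ^ (q - 1) = x ^ (q - 1) * (c * c') ^ (q - 1) := by
    rw [hX, mul_pow, mul_pow]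
    ring
  rw [h6]
  have h7 := (h4.pow (q - 1)).mul_left (x ^ (q - 1))
  rw [one_pow, mul_one] at h7
  exact h7.symm

end

end Pool.Agent.J6H69.GB
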