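import Pool.Agent.J6H69.GB.Small

/-!
# One wild prime: levels `N₁ ℓ ^ K`, primes `p` with a bounded power of `ℓ` in `p ^ 2 - 1`
-/

set_option autoImplicit false

namespace Pool.Agent.J6H69.GB

open Finset
open Pool.Agent.Results.MP_c2a07f_nt.FiveAndPowersOfThree (lValue genBernoulli IsUnitAt part_one)

/-- the power of `ℓ` in `p ^ (2 G) - 1` -/
lemma val_pow {p ℓ n G : ℕ} (hp : p.Prime) (h5 : 5 ≤ p) (hℓ : ℓ = 2 ∨ ℓ = 3) (hG : 1 ≤ G)
    (hn : ¬ ℓ ^ (n + 1) ∣ p ^ 2 - 1) :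
    ∃ e, e ≤ n + G ∧ ℓ ^ e ∣ p ^ (2 * G) - 1 ∧ ¬ ℓ ^ (e + 1) ∣ p ^ (2 * G) - 1 := by
  have hℓp : ℓ.Prime := by rcases hℓ with rfl | rfl <;> norm_num
  have : Fact ℓ.Prime := ⟨hℓp⟩
  have hq : 1 < p ^ 2 := Nat.one_lt_pow (by norm_num) hp.one_lt
  have hq2 : 1 < p ^ (2 * G) := Nat.one_lt_pow (by omega) hp.one_lt
  have hne : p ^ (2 * G) - 1 ≠ 0 := by omega
  have hne2 : p ^ 2 - 1 ≠ 0 := by omega
  have hv : padicValNat ℓ (p ^ 2 - 1) ≤ n := by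
    by_contra hcon
    exact hn ((pow_dvd_pow _ (by omega)).trans (pow_padicValNat_dvd (p := ℓ)))
  have hvG : padicValNat ℓ G ≤ G := by
    have h1 : ℓ ^ padicValNat ℓ G ≤ G := Nat.le_of_dvd (by omega) pow_padicValNat_dvd
    have h2 : padicValNat ℓ G < ℓ ^ padicValNat ℓ G := Nat.lt_pow_self hℓp.one_lt
    omega
  have hval : padicValNat ℓ (p ^ (2 * G) - 1) = padicValNat ℓ (p ^ 2 - 1) + padicValNat ℓ G := by
    rcases hℓ with rfl | rfl
    · -- `ℓ = 2`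
      have hodd : ¬ 2 ∣ p := fun h => by
        have := (Nat.prime_dvd_prime_iff_eq Nat.prime_two hp).1 h
        omega
      have h1 := padicValNat.pow_two_sub_pow (x := p) (y := 1) hp.one_lt (by omega) hodd
        (n := 2 * G) (by omega) (even_two_mul G)
      rw [one_pow] at h1
      have h2 : p ^ 2 - 1 = (p + 1) * (p - 1) := by
        have := Nat.sq_sub_sq p 1
        rw [one_pow] at this
        exact this
      have h3 : padicValNat 2 (p ^ 2 - 1) = padicValNat 2 (p + 1) + padicValNat 2 (p - 1) := by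
        rw [h2, padicValNat.mul (by omega) (by omega)]
      have h4 : padicValNat 2 (2 * G) = 1 + padicValNat 2 G := by
        rw [padicValNat.mul (by norm_num) (by omega)]
        simp
      omega
    · -- `ℓ = 3`
      have hnd : ¬ 3 ∣ p ^ 2 := fun h => by
        have := (Nat.prime_dvd_prime_iff_eq Nat.prime_three hp).1 (Nat.prime_three.dvd_of_dvd_pow h)
        omega
      have hd : 3 ∣ p ^ 2 - 1 := by
        have h1 : p % 3 = 1 ∨ p % 3 = 2 := by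
          have : ¬ 3 ∣ p := fun h => by
            have := (Nat.prime_dvd_prime_iff_eq Nat.prime_three hp).1 h
            omega
          omega
        have h2 : p ^ 2 % 3 = 1 := by
          rw [Nat.pow_mod]
          rcases h1 with h2 | h2 <;> rw [h2]
        omega
      have h1 := padicValNat.pow_sub_pow (p := 3) (by decide) (x := p ^ 2) (y := 1) hq hd hnd (n := G) (by omega)
      rw [one_pow, ← pow_mul] at h1
      exact h1
  refine ⟨padicValNat ℓ (p ^ (2 * G) - 1), by omega, pow_padicValNat_dvd, ?_⟩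
  rw [padicValNat_dvd_iff_le hne]
  omega

/-- large powers of `ℓ` in the conductor -/
lemma large {ℓ N₂ m n : ℕ} (hℓ : ℓ = 2 ∨ ℓ = 3) (hN₂ : N₂ ≠ 0) (hcop : N₂.Coprime ℓ) (hm1 : 1 ≤ m) :
    ∃ K₀ : ℕ, ∀ p : ℕ, p.Prime → 5 ≤ p → N₂ < p → m < p → ¬ ℓ ^ (n + 1) ∣ p ^ 2 - 1 →
      ∀ K, K₀ ≤ K → ∀ N, N = N₂ * ℓ ^ K → ∀ ψ : DirichletCharacter ℂ N, ψ.IsPrimitive →
        ψ (-1) = (-1) ^ m → IsUnitAt p (lValue p m ψ) := by
  have hℓp : ℓ.Prime := by rcases hℓ with rfl | rfl <;> norm_num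
  set G := N₂.totient.totient with hG
  have hφ : 0 < N₂.totient := Nat.totient_pos.2 (Nat.pos_of_ne_zero hN₂)
  have hG1 : 1 ≤ G := Nat.totient_pos.2 hφ
  refine ⟨m * N₂ * ℓ ^ (2 * (n + G)), fun p hp h5 hNp hmp hn K hK N hN ψ hprim hpar => ?_⟩
  subst hN
  obtain ⟨e, he, he1, he2⟩ := val_pow hp h5 hℓ hG1 hn
  have hpN : ¬ p ∣ N₂ := fun h => by
    have := Nat.le_of_dvd (Nat.pos_of_ne_zero hN₂) h
    omega
  have hpφ : p.Coprime N₂.totient := (Nat.Prime.coprime_iff_not_dvd hp).2 fun h => by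
    have h1 := Nat.le_of_dvd hφ h
    have h2 := Nat.totient_le N₂
    omega
  refine part_one hp h5 hℓ (N₁ := N₂) (g := 2 * G) (n := e) hcop hpN (even_two_mul _) ?_ he1 he2 hm1 (by omega) ?_
    ψ ?_ hpar
  · have h1 : p ^ G ≡ 1 [MOD N₂.totient] := Nat.ModEq.pow_totient hpφ
    have h2 : p ^ (2 * G) ≡ 1 [MOD N₂.totient] := by
      rw [mul_comm, pow_mul]
      simpa using h1.pow 2
    exact (Nat.modEq_iff_dvd' (Nat.one_le_pow _ _ hp.pos)).1 h2.symm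
  · calc m * N₂ * ℓ ^ (2 * e) ≤ m * N₂ * ℓ ^ (2 * (n + G)) :=
          Nat.mul_le_mul_left _ (Nat.pow_le_pow_right hℓp.pos (by omega))
      _ ≤ K := hK
      _ ≤ ℓ ^ K := (Nat.lt_pow_self hℓp.one_lt).le
  · rw [DirichletCharacter.isPrimitive_def] at hprim
    rw [hprim]
    exact dvd_mul_left _ _

/-- Levels dividing `N₁ ℓ ^ K`. -/
theorem one_wild {ℓ N₁ m n : ℕ} (hℓ : ℓ = 2 ∨ ℓ = 3) (hN₁ : N₁ ≠ 0) (hm1 : 1 ≤ m) :
    ∃ P : ℕ, ∀ p : ℕ, p.Prime → P < p → ¬ ℓ ^ (n + 1) ∣ p ^ 2 - 1 →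
      ∀ K N : ℕ, N ∣ N₁ * ℓ ^ K → ∀ ψ : DirichletCharacter ℂ N, ψ.IsPrimitive →
        ψ (-1) = (-1) ^ m → ¬ (m = 1 ∧ ψ (p : ZMod N) = 1) → IsUnitAt p (lValue p m ψ) := by
  have hℓp : ℓ.Prime := by rcases hℓ with rfl | rfl <;> norm_num
  -- a common bound for all the `N₂ ≤ N₁`
  have hK : ∃ K₀ : ℕ, ∀ N₂, N₂ ≠ 0 → N₂ ≤ N₁ → N₂.Coprime ℓ →
      ∀ p : ℕ, p.Prime → 5 ≤ p → N₂ < p → m < p → ¬ ℓ ^ (n + 1) ∣ p ^ 2 - 1 →
      ∀ K, K₀ ≤ K → ∀ N, N = N₂ * ℓ ^ K → ∀ ψ : DirichletCharacter ℂ N, ψ.IsPrimitive →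
        ψ (-1) = (-1) ^ m → IsUnitAt p (lValue p m ψ) := by
    generalize N₁ = B
    induction B with
    | zero => exact ⟨0, fun N₂ h1 h2 => absurd (Nat.le_zero.1 h2) h1⟩
    | succ B ih =>
      obtain ⟨K₁, hK₁⟩ := ih
      by_cases hc : (B + 1).Coprime ℓ
      · obtain ⟨K₂, hK₂⟩ := large (n := n) hℓ (Nat.succ_ne_zero B) hc hm1
        refine ⟨max K₁ K₂, fun N₂ h0 h1 h2 p hp h5 hNp hmp hn K hK => ?_⟩
        rcases Nat.lt_or_ge B N₂ with h | h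
        · have : N₂ = B + 1 := by omega
          subst this
          exact hK₂ p hp h5 hNp hmp hn K ((le_max_right _ _).trans hK)
        · exact hK₁ N₂ h0 h h2 p hp h5 hNp hmp hn K ((le_max_left _ _).trans hK)
      · refine ⟨K₁, fun N₂ h0 h1 h2 => ?_⟩
        rcases Nat.lt_or_ge B N₂ with h | h
        · have : N₂ = B + 1 := by omega
          subst this
          exact absurd h2 hc
        · exact hK₁ N₂ h0 h h2
  obtain ⟨K₀, hK₀⟩ := hK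
  obtain ⟨P, hP⟩ := bounded (N₁ * ℓ ^ K₀) hm1
  refine ⟨max (max P (N₁ + m)) 5, fun p hp hlt hn K N hN ψ hprim hpar hexc => ?_⟩
  have hPp : P < p := lt_of_le_of_lt ((le_max_left _ _).trans (le_max_left _ _)) hlt
  have hNp : N₁ + m < p := lt_of_le_of_lt ((le_max_right _ _).trans (le_max_left _ _)) hlt
  have h5 : 5 < p := lt_of_le_of_lt (le_max_right _ _) hlt
  have hN0 : N ≠ 0 := by
    rintro rfl
    rw [zero_dvd_iff] at hN
    exact mul_ne_zero hN₁ (pow_ne_zero _ hℓp.ne_zero) hN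
  obtain ⟨j, N₂, hN₂, hNeq⟩ := Nat.exists_eq_pow_mul_and_not_dvd hN0 ℓ hℓp.ne_one
  have hcop : N₂.Coprime ℓ := by
    rw [Nat.coprime_comm, Nat.Prime.coprime_iff_not_dvd hℓp]
    exact hN₂
  have hN₂d : N₂ ∣ N₁ := by
    have h1 : N₂ ∣ N₁ * ℓ ^ K := (Dvd.intro_left _ hNeq.symm).trans hN
    exact (hcop.pow_right K).dvd_of_dvd_mul_right h1
  have hN₂0 : N₂ ≠ 0 := by
    rintro rfl
    exact hN₂ (dvd_zero _)
  have hN₂le : N₂ ≤ N₁ := Nat.le_of_dvd (Nat.pos_of_ne_zero hN₁) hN₂d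
  rcases Nat.lt_or_ge j K₀ with hj | hj
  · refine hP p hp hPp N hN0 ?_ ψ hprim hpar hexc
    rw [hNeq, mul_comm]
    exact Nat.mul_le_mul hN₂le (Nat.pow_le_pow_right hℓp.pos hj.le)
  · exact hK₀ N₂ hN₂0 hN₂le hcop p hp h5.le (by omega) (by omega) hn j hj N (by rw [hNeq, mul_comm]) ψ hprim hpar

end Pool.Agent.J6H69.GB
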