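import Pool.Agent.H916R2.ExpZetaOne

/-!
# Generalized Bernoulli numbers of primitive characters with the right parity do not vanish
-/

set_option autoImplicit false

namespace Pool.Agent.J6H69.GB

open Finset HurwitzZeta Complex

lemma sum_range_zmod {N : ℕ} [NeZero N] (f : ZMod N → ℂ) :
    ∑ a ∈ range N, f (a : ZMod N) = ∑ j : ZMod N, f j := by
  refine Finset.sum_nbij' (fun a => (a : ZMod N)) (fun j => j.val) ?_ ?_ ?_ ?_ ?_
  · intro a _
    exact mem_univ _
  · intro j _
    exact mem_range.2 (ZMod.val_lt j)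
  · intro a ha
    exact ZMod.val_cast_of_lt (mem_range.1 ha)
  · intro j _
    exact ZMod.natCast_zmod_val j
  · intro a _
    rfl

lemma sum_Icc_zmod {N : ℕ} [NeZero N] (f : ZMod N → ℂ) :
    ∑ a ∈ Icc 1 N, f (a : ZMod N) = ∑ j : ZMod N, f j := by
  have h1 : ∑ a ∈ Icc 1 N, f (a : ZMod N) = ∑ a ∈ range N, f ((a : ZMod N) + 1) := by
    symm
    refine Finset.sum_bij (fun a _ => a + 1) ?_ ?_ ?_ ?_
    · intro a ha
      have := mem_range.1 ha
      rw [mem_Icc]
      omega
    · intro a _ b _ hab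
      omega
    · intro b hb
      rw [mem_Icc] at hb
      exact ⟨b - 1, mem_range.2 (by omega), by omega⟩
    · intro a _
      push_cast
      rfl
  rw [h1, sum_range_zmod (fun j => f (j + 1))]
  exact Equiv.sum_comp (Equiv.addRight (1 : ZMod N)) f

/-- the value of the exponential zeta function summed against `ψ` -/
lemma exp_sum {N : ℕ} [NeZero N] (ψ : DirichletCharacter ℂ N) {m : ℕ} (hm : ψ (-1) = (-1) ^ m)
    (s : ℂ) :
    ∑ j : ZMod N, ψ j * expZeta (ZMod.toAddCircle (-j)) s =
      if Even m then ∑ j : ZMod N, ψ j * cosZeta (ZMod.toAddCircle j) s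
      else (-I) * ∑ j : ZMod N, ψ j * sinZeta (ZMod.toAddCircle j) s := by
  have hneg : ∀ j : ZMod N, ψ (-j) = (-1) ^ m * ψ j := by
    intro j
    rw [← neg_one_mul, map_mul, hm]
  have h0 : ∀ j : ZMod N, expZeta (ZMod.toAddCircle (-j)) s =
      cosZeta (ZMod.toAddCircle j) s - I * sinZeta (ZMod.toAddCircle j) s := by
    intro j
    rw [map_neg, expZeta, cosZeta_neg, sinZeta_neg]
    ring
  simp only [h0, mul_sub, Finset.sum_sub_distrib]
  split_ifs with he
  · have h1 : ∑ j : ZMod N, ψ j * (I * sinZeta (ZMod.toAddCircle j) s) = 0 := by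
      have h2 : ∑ j : ZMod N, ψ j * (I * sinZeta (ZMod.toAddCircle j) s) =
          - ∑ j : ZMod N, ψ j * (I * sinZeta (ZMod.toAddCircle j) s) := by
        conv_lhs => rw [← Equiv.sum_comp (Equiv.neg (ZMod N))]
        rw [← Finset.sum_neg_distrib]
        refine sum_congr rfl fun j _ => ?_
        rw [Equiv.neg_apply, hneg, he.neg_one_pow, map_neg, sinZeta_neg]
        ring
      have h3 := add_eq_zero_iff_eq_neg.2 h2
      rw [← two_mul] at h3
      exact (mul_eq_zero.1 h3).resolve_left two_ne_zero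
    rw [h1, sub_zero]
  · have ho : Odd m := Nat.not_even_iff_odd.1 he
    have h1 : ∑ j : ZMod N, ψ j * cosZeta (ZMod.toAddCircle j) s = 0 := by
      have h2 : ∑ j : ZMod N, ψ j * cosZeta (ZMod.toAddCircle j) s =
          - ∑ j : ZMod N, ψ j * cosZeta (ZMod.toAddCircle j) s := by
        conv_lhs => rw [← Equiv.sum_comp (Equiv.neg (ZMod N))]
        rw [← Finset.sum_neg_distrib]
        refine sum_congr rfl fun j _ => ?_
        rw [Equiv.neg_apply, hneg, ho.neg_one_pow, map_neg, cosZeta_neg]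
        ring
      have h3 := add_eq_zero_iff_eq_neg.2 h2
      rw [← two_mul] at h3
      exact (mul_eq_zero.1 h3).resolve_left two_ne_zero
    rw [h1, zero_sub, mul_sum, ← Finset.sum_neg_distrib]
    refine sum_congr rfl fun j _ => ?_
    ring

/-- the sum of `ψ(a) B_m(a/N)` is not zero -/
theorem sum_ne_zero {N : ℕ} [NeZero N] (ψ : DirichletCharacter ℂ N) (hprim : ψ.IsPrimitive) {m : ℕ}
    (hm1 : 1 ≤ m) (hpar : ψ (-1) = (-1) ^ m) :
    ∑ a ∈ Icc 1 N, ψ (a : ZMod N) * (((Polynomial.bernoulli m).eval ((a : ℚ) / N) : ℚ) : ℂ) ≠ 0 := by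
  have hN0 : (N : ℂ) ≠ 0 := Nat.cast_ne_zero.mpr (NeZero.ne N)
  have hNr : (0 : ℝ) < N := Nat.cast_pos.mpr (NeZero.pos N)
  -- `ψ = 1` only if `N = 1`
  have hψ1 : ψ = 1 → N = 1 := by
    intro h
    rw [h, DirichletCharacter.isPrimitive_def, DirichletCharacter.conductor_one] at hprim
    exact hprim.symm
  have hcase : ψ ≠ 1 ∨ m ≠ 1 := by
    by_contra hcon
    push Not at hcon
    obtain ⟨h1, h2⟩ := hcon
    rw [h1, h2, MulChar.one_apply (isUnit_one.neg), pow_one] at hpar
    norm_num at hpar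
  have hg : gaussSum ψ ZMod.stdAddChar ≠ 0 := by
    intro h
    have h1 : ZMod.dft (fun j => ψ j) = 0 := by
      funext j
      have := hprim.fourierTransform_eq_inv_mul_gaussSum (k := j)
      rw [this, h, mul_zero]
      rfl
    have h2 : (fun j => ψ j) = (0 : ZMod N → ℂ) := by
      have := congrArg ZMod.dft.symm h1
      simpa using this
    have h3 := congrFun h2 1
    simp at h3
  -- the `L`-function
  have hL : DirichletCharacter.LFunction ψ⁻¹ m ≠ 0 := by
    refine DirichletCharacter.LFunction_ne_zero_of_one_le_re (χ := ψ⁻¹) ?_ ?_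
    · rcases hcase with h | h
      · left
        intro h1
        exact h (inv_eq_one.1 h1)
      · right
        intro h1
        apply h
        exact_mod_cast h1
    · rw [Complex.natCast_re]
      exact_mod_cast hm1
  have hinv : ψ⁻¹ (-1) ≠ 0 := by
    have : IsUnit (ψ⁻¹ (-1)) := (isUnit_one.neg).map ψ⁻¹
    exact this.ne_zero
  have hdft := ZMod.LFunction_dft (fun j => ψ j) (s := (m : ℂ)) (by
    rcases Nat.lt_or_ge 1 N with h | h
    · left
      have : Fact (1 < N) := ⟨h⟩
      exact MulChar.map_nonunit _ (not_isUnit_zero)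
    · right
      have hN1 : N = 1 := by
        have := NeZero.pos N
        omega
      intro h1
      have h2 : m = 1 := by exact_mod_cast h1
      have h3 : ψ (-1) = 1 := by
        have : ∀ x y : ZMod N, x = y := by
          subst hN1
          exact fun x y => Subsingleton.elim (α := ZMod 1) x y
        rw [this (-1) 1, map_one]
      rw [h3, h2, pow_one] at hpar
      norm_num at hpar)
  have hlhs : ZMod.LFunction (ZMod.dft (fun j => ψ j)) (m : ℂ) =
      (ψ⁻¹ (-1) * gaussSum ψ ZMod.stdAddChar) * DirichletCharacter.LFunction ψ⁻¹ m := by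
    have h1 : ZMod.dft (fun j => ψ j) = fun j => (ψ⁻¹ (-1) * gaussSum ψ ZMod.stdAddChar) * ψ⁻¹ j := by
      funext j
      have := hprim.fourierTransform_eq_inv_mul_gaussSum (k := j)
      rw [this, ← neg_one_mul j, map_mul]
      ring
    rw [h1]
    unfold DirichletCharacter.LFunction ZMod.LFunction
    simp only [mul_sum]
    refine sum_congr rfl fun j _ => ?_
    ring
  rw [hlhs, exp_sum ψ hpar] at hdft
  have hne : (ψ⁻¹ (-1) * gaussSum ψ ZMod.stdAddChar) * DirichletCharacter.LFunction ψ⁻¹ m ≠ 0 :=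
    mul_ne_zero (mul_ne_zero hinv hg) hL
  rw [hdft] at hne
  intro hzero
  apply hne
  have hIcc : ∀ a ∈ Icc 1 N, (0 : ℝ) ≤ (a : ℝ) / N ∧ (a : ℝ) / N ≤ 1 := by
    intro a ha
    rw [mem_Icc] at ha
    refine ⟨by positivity, ?_⟩
    rw [div_le_one hNr]
    exact_mod_cast ha.2
  have hev : ∀ a : ℕ, ((Polynomial.bernoulli m).map (algebraMap ℚ ℂ)).eval (((a : ℝ) / N : ℝ) : ℂ) =
      (((Polynomial.bernoulli m).eval ((a : ℚ) / N) : ℚ) : ℂ) := by
    intro a
    have h1 : (((a : ℝ) / N : ℝ) : ℂ) = algebraMap ℚ ℂ ((a : ℚ) / N) := by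
      push_cast
      simp
    rw [h1, Polynomial.eval_map_algebraMap, Polynomial.aeval_algebraMap_apply]
    simp
  split_ifs with he
  · -- even weight
    obtain ⟨k, hk⟩ := he
    have hk' : m = 2 * k := by omega
    have hk0 : k ≠ 0 := by omega
    have hms : (m : ℂ) = 2 * (k : ℂ) := by
      rw [hk']
      push_cast
      ring
    rw [← sum_Icc_zmod (fun j => ψ j * cosZeta (ZMod.toAddCircle j) m)]
    have h1 : ∀ a ∈ Icc 1 N, ψ (a : ZMod N) * cosZeta (ZMod.toAddCircle (a : ZMod N)) m =
        ((-1) ^ (k + 1) * (2 * (Real.pi : ℂ)) ^ (2 * k) / 2 / ((2 * k).factorial : ℂ)) *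
          (ψ (a : ZMod N) * (((Polynomial.bernoulli m).eval ((a : ℚ) / N) : ℚ) : ℂ)) := by
      intro a ha
      have hx := hIcc a ha
      have h2 : ZMod.toAddCircle (a : ZMod N) = (((a : ℝ) / N : ℝ) : UnitAddCircle) :=
        ZMod.toAddCircle_natCast a
      rw [h2, hms, cosZeta_two_mul_nat hk0 ⟨hx.1, hx.2⟩, ← hev a, ← hk']
      ring
    rw [Finset.sum_congr rfl h1, ← mul_sum, hzero, mul_zero]
  · -- odd weight
    have ho : Odd m := Nat.not_even_iff_odd.1 he
    obtain ⟨k, hk⟩ := ho
    rw [← sum_Icc_zmod (fun j => ψ j * sinZeta (ZMod.toAddCircle j) m)]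
    rcases Nat.eq_zero_or_pos k with hk0 | hk0
    · -- weight one
      have hm : m = 1 := by omega
      subst hm
      have h1 : ∀ a ∈ Icc 1 N, ψ (a : ZMod N) * sinZeta (ZMod.toAddCircle (a : ZMod N)) ((1 : ℕ) : ℂ) =
          (-(Real.pi : ℂ)) *
            (ψ (a : ZMod N) * (((Polynomial.bernoulli 1).eval ((a : ℚ) / N) : ℚ) : ℂ)) := by
        intro a ha
        rcases eq_or_ne a N with haN | haN
        · have hN1 : N ≠ 1 := by
            intro h
            subst h
            rw [Subsingleton.elim (α := ZMod 1) (-1) 1, map_one, pow_one] at hpar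
            norm_num at hpar
          have h0 : ψ (a : ZMod N) = 0 := by
            rw [haN, ZMod.natCast_self]
            exact DirichletCharacter.map_zero' ψ hN1
          rw [h0]
          ring
        · rw [mem_Icc] at ha
          have hx0 : (0 : ℝ) < (a : ℝ) / N := div_pos (Nat.cast_pos.2 (by omega)) hNr
          have hx1 : (a : ℝ) / N < 1 := by
            rw [div_lt_one hNr]
            exact_mod_cast (show a < N by omega)
          have h2 : ZMod.toAddCircle (a : ZMod N) = (((a : ℝ) / N : ℝ) : UnitAddCircle) :=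
            ZMod.toAddCircle_natCast a
          rw [h2, Nat.cast_one, Pool.Agent.H916R2.sinZeta_one hx0 hx1]
          simp only [Polynomial.bernoulli_one, Polynomial.eval_sub, Polynomial.eval_X, Polynomial.eval_C]
          push_cast
          ring
      rw [Finset.sum_congr rfl h1, ← mul_sum, hzero, mul_zero, mul_zero]
    · have hms : (m : ℂ) = 2 * (k : ℂ) + 1 := by
        rw [hk]
        push_cast
        ring
      have h1 : ∀ a ∈ Icc 1 N, ψ (a : ZMod N) * sinZeta (ZMod.toAddCircle (a : ZMod N)) m =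
          ((-1) ^ (k + 1) * (2 * (Real.pi : ℂ)) ^ (2 * k + 1) / 2 / ((2 * k + 1).factorial : ℂ)) *
            (ψ (a : ZMod N) * (((Polynomial.bernoulli m).eval ((a : ℚ) / N) : ℚ) : ℂ)) := by
        intro a ha
        have hx := hIcc a ha
        have h2 : ZMod.toAddCircle (a : ZMod N) = (((a : ℝ) / N : ℝ) : UnitAddCircle) :=
          ZMod.toAddCircle_natCast a
        rw [h2, hms, sinZeta_two_mul_nat_add_one hk0.ne' ⟨hx.1, hx.2⟩, ← hev a, ← hk]
        ring
      rw [Finset.sum_congr rfl h1, ← mul_sum, hzero, mul_zero, mul_zero]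

end Pool.Agent.J6H69.GB
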