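import Mathlib
import Pool.Agent.Y18.GX.Class

/-!
# Differences of character sums across a wall
-/

set_option autoImplicit false

namespace Pool.Agent.J6H69.GB

open Polynomial Finset

section
variable {k : Type} [Field k]

/-- the coefficients of the `n`-th difference -/
def cf (n j : ℕ) : ℤ := (-1) ^ (n - j) * (n.choose j : ℤ)

lemma fd (F : ℤ[X]) {n : ℕ} (hF : F.natDegree < n) (α β : k) :
    ∑ j ∈ range (n + 1), (cf n j : k) * aeval (α + j * β) F = 0 := by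
  set P : k[X] := (F.map (Int.castRingHom k)).comp (C α + C β * X) with hP
  have hdeg : P.natDegree < n := by
    rw [hP]
    refine lt_of_le_of_lt natDegree_comp_le ?_
    have h1 : (C α + C β * X : k[X]).natDegree ≤ 1 := by
      refine (natDegree_add_le _ _).trans ?_
      rw [natDegree_C]
      exact max_le (by omega) ((natDegree_C_mul_le _ _).trans natDegree_X_le)
    have h2 : (F.map (Int.castRingHom k)).natDegree ≤ F.natDegree := natDegree_map_le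
    calc (F.map (Int.castRingHom k)).natDegree * (C α + C β * X : k[X]).natDegree
        ≤ F.natDegree * 1 := Nat.mul_le_mul h2 h1
      _ < n := by omega
  have h1 := congrFun (Polynomial.fwdDiff_iter_eq_zero_of_degree_lt hdeg) 0
  rw [fwdDiff_iter_eq_sum_shift] at h1
  rw [← Pi.zero_apply (M := fun _ : k => k) 0, ← h1]
  refine sum_congr rfl fun j _ => ?_
  rw [zero_add, nsmul_one, zsmul_eq_mul, hP, eval_comp, eval_add, eval_C, eval_mul, eval_C, eval_X, cf,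
    eval_map, aeval_def, mul_comm β]
  rfl

/-- the sum over the class, divided by the value of the character -/
noncomputable def gg {N₂ M : ℕ} (D T₀ : ℕ) (χ₁ : MulChar (ZMod N₂) k) (χ₂ : MulChar (ZMod M) k) (F : ℤ[X])
    (z δ : ℤ) (κ : ℤ) (j : ℕ) : k :=
  ∑ t ∈ range T₀, χ₁ ((z + D * ((t : ℤ) - κ) : ℤ) : ZMod N₂) *
    χ₂ (1 + D * (((t : ℤ) - κ : ℤ) : ZMod M) * ((z : ℤ) : ZMod M)⁻¹) *
    aeval (((z + D * ((t : ℤ) - κ) : ℤ) : k) / (N₂ * M : ℕ) + j * (-((δ : ℤ) : k) / (N₂ * M : ℕ))) F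

variable {N₂ M D T₀ n : ℕ}

lemma gg_diff (χ₁ : MulChar (ZMod N₂) k) (χ₂ : MulChar (ZMod M) k) (F : ℤ[X]) (hF : F.natDegree < n)
    (z δ κ : ℤ) : ∑ j ∈ range (n + 1), (cf n j : k) * gg D T₀ χ₁ χ₂ F z δ κ j = 0 := by
  unfold gg
  simp only [mul_sum]
  rw [sum_comm]
  refine sum_eq_zero fun t _ => ?_
  have h1 := fd (k := k) F hF (((z + D * ((t : ℤ) - κ) : ℤ) : k) / (N₂ * M : ℕ)) (-((δ : ℤ) : k) / (N₂ * M : ℕ))
  have h2 : ∀ j ∈ range (n + 1), (cf n j : k) * (χ₁ ((z + D * ((t : ℤ) - κ) : ℤ) : ZMod N₂) *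
      χ₂ (1 + D * (((t : ℤ) - κ : ℤ) : ZMod M) * ((z : ℤ) : ZMod M)⁻¹) *
      aeval (((z + D * ((t : ℤ) - κ) : ℤ) : k) / (N₂ * M : ℕ) + j * (-((δ : ℤ) : k) / (N₂ * M : ℕ))) F) =
      (χ₁ ((z + D * ((t : ℤ) - κ) : ℤ) : ZMod N₂) *
      χ₂ (1 + D * (((t : ℤ) - κ : ℤ) : ZMod M) * ((z : ℤ) : ZMod M)⁻¹)) * ((cf n j : k) *
      aeval (((z + D * ((t : ℤ) - κ) : ℤ) : k) / (N₂ * M : ℕ) + j * (-((δ : ℤ) : k) / (N₂ * M : ℕ))) F) := by
    intro j _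
    ring
  rw [sum_congr rfl h2, ← mul_sum, h1, mul_zero]

lemma gg_jump (hN : T₀ * D = N₂ * M) (hNk : ((N₂ * M : ℕ) : k) ≠ 0)
    (χ₁ : MulChar (ZMod N₂) k) (χ₂ : MulChar (ZMod M) k) (F : ℤ[X]) (z δ : ℤ) :
    gg D T₀ χ₁ χ₂ F z δ (-1) 0 - gg D T₀ χ₁ χ₂ F z δ 0 0 =
      χ₁ ((z : ℤ) : ZMod N₂) * (aeval (1 + (z : k) / (N₂ * M : ℕ)) F - aeval ((z : k) / (N₂ * M : ℕ)) F) := by
  set f : ℕ → k := fun t => χ₁ ((z + D * (t : ℤ) : ℤ) : ZMod N₂) *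
    χ₂ (1 + D * ((t : ℤ) : ZMod M) * ((z : ℤ) : ZMod M)⁻¹) *
    aeval (((z + D * (t : ℤ) : ℤ) : k) / (N₂ * M : ℕ)) F with hf
  have h0 : gg D T₀ χ₁ χ₂ F z δ 0 0 = ∑ t ∈ range T₀, f t := by
    unfold gg
    refine sum_congr rfl fun t _ => ?_
    rw [hf]
    simp only [sub_zero, Nat.cast_zero, zero_mul, add_zero]
  have h1 : gg D T₀ χ₁ χ₂ F z δ (-1) 0 = ∑ t ∈ range T₀, f (t + 1) := by
    unfold gg
    refine sum_congr rfl fun t _ => ?_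
    rw [hf]
    simp only [sub_neg_eq_add, Nat.cast_zero, zero_mul, add_zero, Nat.cast_add, Nat.cast_one]
  rw [h0, h1, ← Finset.sum_sub_distrib, Finset.sum_range_sub f T₀]
  have hDT₁ : ((D : ℤ) * (T₀ : ℤ) : ℤ) = (N₂ : ℤ) * M := by
    rw [mul_comm]
    exact_mod_cast hN
  have e1 : f T₀ = χ₁ ((z : ℤ) : ZMod N₂) * aeval (1 + (z : k) / (N₂ * M : ℕ)) F := by
    rw [hf]
    simp only
    have a1 : ((z + D * (T₀ : ℤ) : ℤ) : ZMod N₂) = (z : ZMod N₂) := by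
      rw [hDT₁]
      push_cast
      rw [ZMod.natCast_self, zero_mul, add_zero]
    have a2 : ((D : ZMod M) * ((T₀ : ℤ) : ZMod M)) = 0 := by
      have := congrArg (Int.cast : ℤ → ZMod M) hDT₁
      push_cast at this
      rw [ZMod.natCast_self, mul_zero] at this
      rw [Int.cast_natCast]
      exact this
    rw [a1, a2, zero_mul, add_zero, map_one, mul_one, hDT₁]
    congr 2
    push_cast at hNk ⊢
    rw [add_div, div_self hNk, add_comm]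
  have e0 : f 0 = χ₁ ((z : ℤ) : ZMod N₂) * aeval ((z : k) / (N₂ * M : ℕ)) F := by
    rw [hf]
    simp only [Nat.cast_zero, mul_zero, add_zero, Int.cast_zero, zero_mul, map_one, mul_one]
  rw [e1, e0, mul_sub]

/-- the inner sums -/
lemma inner (hN : T₀ * D = N₂ * M) (hDM : D ∣ M) (hD0 : 0 < D) (hN2T : N₂ ∣ T₀)
    (χ₁ : MulChar (ZMod N₂) k) (χ₂ : MulChar (ZMod M) k) (F : ℤ[X]) {η z δ c κ : ℤ} {j : ℕ}
    (hzc : IsCoprime z (M : ℤ)) (hT : (T₀ : ℤ) ∣ δ)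
    (hc : z - j * δ ≡ η * c [ZMOD M]) (hκ₁ : κ * D ≤ z - j * δ) (hκ₂ : z - j * δ < (κ + 1) * D) :
    ∑ x ∈ range (N₂ * M), (if ((x : ℤ) ≡ η * c [ZMOD D]) then χ₁ (x : ZMod N₂) * χ₂ (x : ZMod M) *
      aeval ((x : k) / (N₂ * M : ℕ)) F else 0) =
    χ₂ ((z - j * δ : ℤ) : ZMod M) * gg D T₀ χ₁ χ₂ F z δ κ j := by
  obtain ⟨b, hb⟩ : ∃ b : ℕ, (b : ℤ) = z - j * δ - κ * D := ⟨(z - j * δ - κ * D).toNat,
    Int.toNat_of_nonneg (by linarith)⟩
  have hbD : b < D := by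
    have : (b : ℤ) < D := by rw [hb]; linarith
    exact_mod_cast this
  have hiff : ∀ x : ℕ, ((x : ℤ) ≡ η * c [ZMOD D]) ↔ x % D = b := by
    intro x
    have h1 : η * c ≡ b [ZMOD D] := by
      rw [hb]
      have h2 : z - j * δ ≡ η * c [ZMOD D] := hc.of_dvd (by exact_mod_cast hDM)
      refine h2.symm.trans ?_
      rw [Int.modEq_iff_dvd]
      exact ⟨-κ, by ring⟩
    constructor
    · intro h
      have h2 := h.trans h1
      have h3 : x ≡ b [MOD D] := Int.natCast_modEq_iff.1 h2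
      rw [Nat.ModEq, Nat.mod_eq_of_lt hbD] at h3
      exact h3
    · intro h
      refine Int.ModEq.trans ?_ h1.symm
      refine Int.natCast_modEq_iff.2 ?_
      rw [Nat.ModEq, Nat.mod_eq_of_lt hbD]
      exact h
  simp only [hiff]
  rw [← hN, mul_comm T₀ D, Pool.Agent.Y18.GX.class_sum D T₀ b hbD]
  rw [gg, mul_sum]
  refine sum_congr rfl fun t _ => ?_
  have hZ : ((b + D * t : ℕ) : ℤ) = z - j * δ + D * ((t : ℤ) - κ) := by
    push_cast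
    rw [hb]
    ring
  have hDT₁ : ((D : ℤ) * (T₀ : ℤ) : ℤ) = (N₂ : ℤ) * M := by
    rw [mul_comm]
    exact_mod_cast hN
  obtain ⟨δ', hδ'⟩ := hT
  have a1 : ((b + D * t : ℕ) : ZMod N₂) = ((z + D * ((t : ℤ) - κ) : ℤ) : ZMod N₂) := by
    have h1 := congrArg (Int.cast : ℤ → ZMod N₂) hZ
    rw [Int.cast_natCast] at h1
    rw [h1]
    have h2 : ((δ : ℤ) : ZMod N₂) = 0 := by
      rw [ZMod.intCast_zmod_eq_zero_iff_dvd, hδ']
      exact (show (N₂ : ℤ) ∣ T₀ by exact_mod_cast hN2T).mul_right _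
    push_cast
    rw [h2]
    ring
  have hDδ : (D : ZMod M) * ((δ : ℤ) : ZMod M) = 0 := by
    have h1 : ((D * δ : ℤ) : ZMod M) = 0 := by
      rw [ZMod.intCast_zmod_eq_zero_iff_dvd, hδ', ← mul_assoc, hDT₁]
      exact ⟨N₂ * δ', by ring⟩
    push_cast at h1
    exact h1
  have hunit : ((z : ℤ) : ZMod M) * ((z : ℤ) : ZMod M)⁻¹ = 1 := by
    have h1 : ((z : ℤ) : ZMod M) * ((z : ℤ) : ZMod M)⁻¹ = 1 := by
      apply ZMod.mul_inv_of_unit
      obtain ⟨a, b, hab⟩ := hzc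
      have h2 := congrArg (Int.cast : ℤ → ZMod M) hab
      push_cast at h2
      rw [ZMod.natCast_self, mul_zero, add_zero] at h2
      exact IsUnit.of_mul_eq_one _ (by rw [mul_comm]; exact h2)
    exact h1
  have a2 : ((b + D * t : ℕ) : ZMod M) = ((z - j * δ : ℤ) : ZMod M) *
      (1 + D * (((t : ℤ) - κ : ℤ) : ZMod M) * ((z : ℤ) : ZMod M)⁻¹) := by
    have h1 := congrArg (Int.cast : ℤ → ZMod M) hZ
    rw [Int.cast_natCast] at h1
    rw [h1]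
    push_cast
    linear_combination (-(D : ZMod M) * ((t : ZMod M) - (κ : ZMod M))) * hunit +
      ((j : ZMod M) * ((t : ZMod M) - (κ : ZMod M)) * ((z : ℤ) : ZMod M)⁻¹) * hDδ
  have a3 : ((b + D * t : ℕ) : k) / ((D * T₀ : ℕ) : k) = ((z + D * ((t : ℤ) - κ) : ℤ) : k) / (N₂ * M : ℕ) +
      j * (-((δ : ℤ) : k) / (N₂ * M : ℕ)) := by
    have h1 := congrArg (Int.cast : ℤ → k) hZ
    rw [Int.cast_natCast] at h1
    rw [h1, mul_comm D T₀, hN]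
    push_cast
    ring
  rw [a1, a2, map_mul, a3]
  ring

theorem wall (hN : T₀ * D = N₂ * M) (hDM : D ∣ M) (hD0 : 0 < D) (hN2T : N₂ ∣ T₀)
    (hrad : ∀ r : ℕ, r.Prime → r ∣ M → r ∣ T₀)
    (χ₁ : MulChar (ZMod N₂) k) (χ₂ : MulChar (ZMod M) k) (F : ℤ[X]) (hF : F.natDegree < n) {m : ℕ} {c0 : k}
    (hrefl : ∀ x : k, aeval (1 - x) F = (-1) ^ m * aeval x F + c0) (hpar : χ₁ (-1) * χ₂ (-1) = (-1) ^ m)
    {ι : Type} [DecidableEq ι] (I : Finset ι) (η z δ : ι → ℤ) (i₀ i₁ : ι) (hi₀ : i₀ ∈ I) (hi₁ : i₁ ∈ I)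
    (hne : i₀ ≠ i₁)
    (hP : ∀ c : ℤ, IsCoprime c (M : ℤ) → ∑ i ∈ I, ∑ x ∈ range (N₂ * M),
      (if ((x : ℤ) ≡ η i * c [ZMOD D]) then χ₁ (x : ZMod N₂) * χ₂ (x : ZMod M) *
        aeval ((x : k) / (N₂ * M : ℕ)) F else 0) = 0)
    (hηc : ∀ i ∈ I, IsCoprime (η i) (M : ℤ)) (hcop : IsCoprime (z i₀) (M : ℤ))
    (hη₀ : η i₀ ≡ 1 [ZMOD M]) (hη₁ : η i₁ ≡ -1 [ZMOD M])
    (hz : ∀ i ∈ I, z i ≡ η i * z i₀ [ZMOD M]) (hδ : ∀ i ∈ I, δ i ≡ η i * δ i₀ [ZMOD M])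
    (hT : ∀ i ∈ I, (T₀ : ℤ) ∣ δ i)
    (hmain : ∀ i ∈ I, i ≠ i₀ → i ≠ i₁ → ∃ κ : ℤ, ∀ j : ℕ, j ≤ n →
      κ * D ≤ z i - j * δ i ∧ z i - j * δ i < (κ + 1) * D)
    {s E : ℤ} (hs : 0 < s) (hsE : s < E) (hED : n * E < D) (hz₀ : z i₀ = -s) (hδ₀ : δ i₀ = -E)
    (hz₁ : z i₁ = s) (hδ₁ : δ i₁ = E) (hχs : χ₁ ((s : ℤ) : ZMod N₂) ≠ 0)
    (hFs : aeval ((s : k) / (N₂ * M : ℕ)) F ≠ aeval (1 + (s : k) / (N₂ * M : ℕ)) F) (h2 : (2 : k) ≠ 0)
    (hNk : ((N₂ * M : ℕ) : k) ≠ 0) : False := by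
  have hn0 : 1 ≤ n := by omega
  have hED' : E < D := by
    have h1 : (1 : ℤ) ≤ n := by exact_mod_cast hn0
    nlinarith
  -- the intervals
  have hκ : ∀ i ∈ I, ∃ κ : ℕ → ℤ, (∀ j ≤ n, κ j * D ≤ z i - j * δ i ∧ z i - j * δ i < (κ j + 1) * D) ∧
      (i ≠ i₀ → i ≠ i₁ → ∀ j, κ j = κ 0) ∧ (i = i₀ → κ 0 = -1 ∧ ∀ j, 1 ≤ j → κ j = 0) ∧
      (i = i₁ → κ 0 = 0 ∧ ∀ j, 1 ≤ j → κ j = -1) := by
    intro i hi
    by_cases h0 : i = i₀
    · subst h0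
      refine ⟨fun j => if j = 0 then -1 else 0, fun j hj => ?_, fun h => absurd rfl h,
        fun _ => ⟨if_pos rfl, fun j hj => if_neg (by omega)⟩, fun h => absurd h hne⟩
      rw [hz₀, hδ₀]
      rcases Nat.eq_zero_or_pos j with hj0 | hj0
      · subst hj0
        simp only [if_true, Nat.cast_zero, zero_mul, sub_zero]
        constructor <;> linarith
      · simp only [if_neg hj0.ne', zero_mul, zero_add, one_mul]
        have h1 : (1 : ℤ) ≤ j := by exact_mod_cast hj0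
        have h3 : (j : ℤ) ≤ n := by exact_mod_cast hj
        constructor <;> nlinarith
    · by_cases h1 : i = i₁
      · subst h1
        refine ⟨fun j => if j = 0 then 0 else -1, fun j hj => ?_, fun _ h => absurd rfl h,
          fun h => absurd h h0, fun _ => ⟨if_pos rfl, fun j hj => if_neg (by omega)⟩⟩
        rw [hz₁, hδ₁]
        rcases Nat.eq_zero_or_pos j with hj0 | hj0
        · subst hj0
          simp only [if_true, Nat.cast_zero, zero_mul, sub_zero, zero_add, one_mul]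
          constructor <;> linarith
        · simp only [if_neg hj0.ne']
          have h1 : (1 : ℤ) ≤ j := by exact_mod_cast hj0
          have h3 : (j : ℤ) ≤ n := by exact_mod_cast hj
          constructor <;> nlinarith
      · obtain ⟨κ, hκ⟩ := hmain i hi h0 h1
        exact ⟨fun _ => κ, hκ, fun _ _ _ => rfl, fun h => absurd h h0, fun h => absurd h h1⟩
  choose! κ hκ1 hκ2 hκ3 hκ4 using hκ
  -- the relation for every `j`
  have hzc : ∀ i ∈ I, IsCoprime (z i) (M : ℤ) := by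
    intro i hi
    have h1 : IsCoprime (η i * z i₀) (M : ℤ) := (hηc i hi).mul_left hcop
    obtain ⟨t, ht⟩ := (hz i hi).dvd
    have h3 : z i = η i * z i₀ + M * (-t) := by linarith
    rw [h3]
    exact h1.add_mul_left_left _
  have hcj : ∀ j : ℕ, IsCoprime (z i₀ - j * δ i₀) (M : ℤ) := by
    intro j
    rw [Int.isCoprime_iff_gcd_eq_one]
    by_contra hg
    obtain ⟨r, hr, hrd⟩ := Nat.exists_prime_and_dvd hg
    have h1 : (r : ℤ) ∣ z i₀ - j * δ i₀ := (Int.natCast_dvd_natCast.2 hrd).trans (Int.gcd_dvd_left _ _)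
    have h3 : (r : ℤ) ∣ M := (Int.natCast_dvd_natCast.2 hrd).trans (Int.gcd_dvd_right _ _)
    have h4 : (r : ℤ) ∣ T₀ := by
      have := hrad r hr (by exact_mod_cast h3)
      exact_mod_cast this
    have h5 : (r : ℤ) ∣ z i₀ := by
      have h6 : (r : ℤ) ∣ j * δ i₀ := (h4.trans (hT i₀ hi₀)).mul_left _
      have := dvd_add h1 h6
      rwa [sub_add_cancel] at this
    have h7 := (Int.isUnit_iff_natAbs_eq.1 (hcop.isUnit_of_dvd' h5 h3))
    rw [Int.natAbs_natCast] at h7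
    exact hr.one_lt.ne' h7
  have hrel : ∀ j ≤ n, ∑ i ∈ I, χ₂ ((η i : ℤ) : ZMod M) * gg D T₀ χ₁ χ₂ F (z i) (δ i) (κ i j) j = 0 := by
    intro j hj
    have h1 := hP _ (hcj j)
    have hc : ∀ i ∈ I, z i - j * δ i ≡ η i * (z i₀ - j * δ i₀) [ZMOD M] := by
      intro i hi
      have h3 := (hz i hi).sub ((hδ i hi).mul_left (j : ℤ))
      refine h3.trans ?_
      rw [show η i * (z i₀ - j * δ i₀) = η i * z i₀ - j * (η i * δ i₀) by ring]
    have h3 : ∀ i ∈ I, ∑ x ∈ range (N₂ * M),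
        (if ((x : ℤ) ≡ η i * (z i₀ - j * δ i₀) [ZMOD D]) then χ₁ (x : ZMod N₂) * χ₂ (x : ZMod M) *
        aeval ((x : k) / (N₂ * M : ℕ)) F else 0) =
        χ₂ ((z i₀ - j * δ i₀ : ℤ) : ZMod M) *
          (χ₂ ((η i : ℤ) : ZMod M) * gg D T₀ χ₁ χ₂ F (z i) (δ i) (κ i j) j) := by
      intro i hi
      rw [inner hN hDM hD0 hN2T χ₁ χ₂ F (hzc i hi) (hT i hi) (hc i hi) (hκ1 i hi j hj).1 (hκ1 i hi j hj).2]
      have h4 : ((z i - j * δ i : ℤ) : ZMod M) = ((η i : ℤ) : ZMod M) * ((z i₀ - j * δ i₀ : ℤ) : ZMod M) := by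
        rw [← Int.cast_mul]
        exact (ZMod.intCast_eq_intCast_iff _ _ _).2 (hc i hi)
      rw [h4, map_mul]
      ring
    rw [sum_congr rfl h3, ← mul_sum] at h1
    refine (mul_eq_zero.1 h1).resolve_left ?_
    have h5 : IsUnit ((z i₀ - j * δ i₀ : ℤ) : ZMod M) := by
      obtain ⟨a, b, hab⟩ := hcj j
      have h6 := congrArg (Int.cast : ℤ → ZMod M) hab
      rw [Int.cast_add, Int.cast_mul, Int.cast_mul, Int.cast_natCast, ZMod.natCast_self, mul_zero, add_zero,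
        Int.cast_one] at h6
      exact IsUnit.of_mul_eq_one _ (by rw [mul_comm]; exact h6)
    exact (h5.map χ₂).ne_zero
  -- the alternating sum
  have hsum : ∑ i ∈ I, χ₂ ((η i : ℤ) : ZMod M) *
      ∑ j ∈ range (n + 1), (cf n j : k) * gg D T₀ χ₁ χ₂ F (z i) (δ i) (κ i j) j = 0 := by
    simp only [mul_sum]
    rw [sum_comm]
    refine sum_eq_zero fun j hj => ?_
    have h1 := hrel j (by have := mem_range.1 hj; omega)
    calc ∑ i ∈ I, χ₂ ((η i : ℤ) : ZMod M) * ((cf n j : k) * gg D T₀ χ₁ χ₂ F (z i) (δ i) (κ i j) j)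
        = (cf n j : k) * ∑ i ∈ I, χ₂ ((η i : ℤ) : ZMod M) * gg D T₀ χ₁ χ₂ F (z i) (δ i) (κ i j) j := by
          rw [mul_sum]
          exact sum_congr rfl fun i _ => by ring
      _ = 0 := by rw [h1, mul_zero]
  -- a change in the first term
  have hchange : ∀ (i : ι) (κ' κ'' : ℤ) (κ₀ : ℕ → ℤ), κ₀ 0 = κ' → (∀ j, 1 ≤ j → κ₀ j = κ'') →
      ∑ j ∈ range (n + 1), (cf n j : k) * gg D T₀ χ₁ χ₂ F (z i) (δ i) (κ₀ j) j =
        (cf n 0 : k) * (gg D T₀ χ₁ χ₂ F (z i) (δ i) κ' 0 - gg D T₀ χ₁ χ₂ F (z i) (δ i) κ'' 0) := by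
    intro i κ' κ'' κ₀ h0 h1
    have h3 := gg_diff (D := D) (T₀ := T₀) χ₁ χ₂ F hF (z i) (δ i) κ''
    rw [Finset.sum_range_succ'] at h3 ⊢
    rw [h0]
    have h4 : ∑ j ∈ range n, (cf n (j + 1) : k) * gg D T₀ χ₁ χ₂ F (z i) (δ i) (κ₀ (j + 1)) (j + 1) =
        ∑ j ∈ range n, (cf n (j + 1) : k) * gg D T₀ χ₁ χ₂ F (z i) (δ i) κ'' (j + 1) :=
      sum_congr rfl fun j _ => by rw [h1 (j + 1) (by omega)]
    rw [h4]
    linear_combination h3
  have hrest : ∀ i ∈ I, i ≠ i₀ → i ≠ i₁ →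
      ∑ j ∈ range (n + 1), (cf n j : k) * gg D T₀ χ₁ χ₂ F (z i) (δ i) (κ i j) j = 0 := by
    intro i hi h0 h1
    rw [hchange i (κ i 0) (κ i 0) (κ i) rfl (fun j _ => hκ2 i hi h0 h1 j), sub_self, mul_zero]
  rw [← Finset.add_sum_erase I _ hi₀, ← Finset.add_sum_erase (I.erase i₀) _ (Finset.mem_erase.2 ⟨hne.symm, hi₁⟩),
    Finset.sum_eq_zero (s := (I.erase i₀).erase i₁) (fun i hi => by
      rw [Finset.mem_erase, Finset.mem_erase] at hi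
      rw [hrest i hi.2.2 hi.2.1 hi.1, mul_zero]), add_zero] at hsum
  rw [hchange i₀ (-1) 0 (κ i₀) (hκ3 i₀ hi₀ rfl).1 (hκ3 i₀ hi₀ rfl).2,
    hchange i₁ 0 (-1) (κ i₁) (hκ4 i₁ hi₁ rfl).1 (hκ4 i₁ hi₁ rfl).2] at hsum
  have hj0 := gg_jump hN hNk χ₁ χ₂ F (z i₀) (δ i₀)
  have hj1 := gg_jump hN hNk χ₁ χ₂ F (z i₁) (δ i₁)
  have hsw : gg D T₀ χ₁ χ₂ F (z i₁) (δ i₁) 0 0 - gg D T₀ χ₁ χ₂ F (z i₁) (δ i₁) (-1) 0 =
      -(χ₁ (((z i₁ : ℤ)) : ZMod N₂) * (aeval (1 + ((z i₁ : ℤ) : k) / (N₂ * M : ℕ)) F -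
        aeval (((z i₁ : ℤ) : k) / (N₂ * M : ℕ)) F)) := by
    rw [← hj1]
    ring
  rw [hj0, hsw, hz₀, hz₁] at hsum
  have he0 : χ₂ ((η i₀ : ℤ) : ZMod M) = 1 := by
    rw [(ZMod.intCast_eq_intCast_iff _ _ _).2 hη₀, Int.cast_one, map_one]
  have he1 : χ₂ ((η i₁ : ℤ) : ZMod M) = χ₂ (-1) := by
    rw [(ZMod.intCast_eq_intCast_iff _ _ _).2 hη₁, Int.cast_neg, Int.cast_one]
  rw [he0, he1, one_mul] at hsum
  have hcf : (cf n 0 : k) ≠ 0 := by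
    unfold cf
    rw [Nat.choose_zero_right, Nat.cast_one, mul_one, Nat.sub_zero]
    push_cast
    exact pow_ne_zero _ (neg_ne_zero.2 one_ne_zero)
  set x : k := (s : k) / (N₂ * M : ℕ) with hx
  have hcast : (((-s : ℤ)) : k) / (N₂ * M : ℕ) = -x := by
    rw [hx]
    push_cast
    ring
  rw [hcast] at hsum
  have r1 := hrefl x
  have r2 := hrefl (1 + x)
  have r3 : 1 - (1 + x) = -x := by ring
  rw [r3] at r2
  have r4 : (1 : k) + -x = 1 - x := by ring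
  rw [r4, r1, r2] at hsum
  have hneg : χ₁ (((-s : ℤ)) : ZMod N₂) = χ₁ (-1) * χ₁ ((s : ℤ) : ZMod N₂) := by
    rw [← map_mul]
    congr 1
    push_cast
    ring
  rw [hneg] at hsum
  have hsq : χ₁ (-1) * χ₁ (-1) = 1 := by
    rw [← map_mul, neg_mul_neg, one_mul, map_one]
  have hc2 : χ₂ (-1) ≠ 0 := by
    have : IsUnit (χ₂ (-1)) := (isUnit_one.neg).map χ₂
    exact this.ne_zero
  have hfin : (cf n 0 : k) * (χ₁ ((s : ℤ) : ZMod N₂)) * (2 * χ₂ (-1)) * (aeval x F - aeval (1 + x) F) = 0 := by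
    have hpm : χ₁ (-1) * (-1) ^ m = χ₂ (-1) := by
      rw [← hpar, ← mul_assoc, hsq, one_mul]
    linear_combination hsum - (cf n 0 : k) * χ₁ ((s : ℤ) : ZMod N₂) * (aeval x F - aeval (1 + x) F) * hpm
  rcases mul_eq_zero.1 hfin with h | h
  · rcases mul_eq_zero.1 h with h | h
    · rcases mul_eq_zero.1 h with h | h
      · exact hcf h
      · exact hχs h
    · rcases mul_eq_zero.1 h with h | h
      · exact h2 h
      · exact hc2 h
  · exact hFs (sub_eq_zero.1 h)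

end

end Pool.Agent.J6H69.GB
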