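import Pool.Agent.J6H69.GB.Root
import Pool.Agent.J6H69.GB.Wall

/-!
# Projection of a vanishing character sum to classes, for several primes
-/

set_option autoImplicit false

namespace Pool.Agent.J6H69.GB

open Finset Polynomial

lemma coprime_pows {T : Finset ℕ} (hT : ∀ ℓ ∈ T, ℓ.Prime) (b : ℕ → ℕ) :
    ((T : Finset ℕ) : Set ℕ).Pairwise (Function.onFun IsCoprime fun ℓ => ((ℓ ^ b ℓ : ℕ) : ℤ)) := by
  intro ℓ hℓ r hr hne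
  rw [Function.onFun, Nat.isCoprime_iff_coprime]
  exact Nat.coprime_pow_primes _ _ (hT ℓ hℓ) (hT r hr) hne

lemma prod_dvd_iff {T : Finset ℕ} (hT : ∀ ℓ ∈ T, ℓ.Prime) (b : ℕ → ℕ) (n : ℤ) :
    ((∏ ℓ ∈ T, ℓ ^ b ℓ : ℕ) : ℤ) ∣ n ↔ ∀ ℓ ∈ T, ((ℓ ^ b ℓ : ℕ) : ℤ) ∣ n := by
  rw [Nat.cast_prod]
  constructor
  · intro h ℓ hℓ
    exact (Finset.dvd_prod_of_mem (fun ℓ => ((ℓ ^ b ℓ : ℕ) : ℤ)) hℓ).trans h
  · exact fun h => Finset.prod_dvd_of_coprime (coprime_pows hT b) h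

lemma prime_mem {T : Finset ℕ} (hT : ∀ ℓ ∈ T, ℓ.Prime) (b : ℕ → ℕ) {r : ℕ} (hr : r.Prime)
    (h : r ∣ ∏ ℓ ∈ T, ℓ ^ b ℓ) : r ∈ T := by
  obtain ⟨ℓ, hℓ, h1⟩ := (hr.prime.dvd_finset_prod_iff _).1 h
  rwa [(Nat.prime_dvd_prime_iff_eq hr (hT ℓ hℓ)).1 (hr.dvd_of_dvd_pow h1)]

section
variable {k : Type} [Field k] {p : ℕ} [Fact p.Prime] [CharP k p]

open scoped Classical in
/-- Frobenius and the orbit sums -/
theorem proj_ker {N₂ M g : ℕ} (hM0 : 0 < M) (hq : 1 < p ^ g)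
    (hM : ∀ r : ℕ, r.Prime → r ∣ M → r - 1 ∣ p ^ g - 1 ∧ r ∣ p ^ g - 1 ∧ (r = 2 → 4 ∣ p ^ g - 1))
    (hMk : (M : k) ≠ 0) (χ₁ : MulChar (ZMod N₂) k) (χ₂ : MulChar (ZMod M) k)
    (hχ₁ : ∀ x, χ₁ x ^ p ^ g = χ₁ x) (F : ℤ[X])
    (hS : ∑ x ∈ range (N₂ * M), χ₁ (x : ZMod N₂) * χ₂ (x : ZMod M) * aeval ((x : k) / (N₂ * M : ℕ)) F = 0)
    {c : ℕ} (hc : c.Coprime M) (hc0 : 0 < c) :
    ∑ x ∈ range (N₂ * M), (if χ₂ (x : ZMod M) ≠ 0 ∧ χ₂ (x : ZMod M) ^ (p ^ g - 1) = χ₂ (c : ZMod M) ^ (p ^ g - 1)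
      then χ₁ (x : ZMod N₂) * χ₂ (x : ZMod M) * aeval ((x : k) / (N₂ * M : ℕ)) F else 0) = 0 := by
  set q := p ^ g with hqdef
  set w : ℕ → k := fun x => χ₁ (x : ZMod N₂) * aeval ((x : k) / (N₂ * M : ℕ)) F with hw
  have hcu : IsUnit ((c : ℕ) : ZMod M) := (ZMod.isUnit_iff_coprime c M).2 hc
  have hc2 : χ₂ (c : ZMod M) ≠ 0 := (hcu.map χ₂).ne_zero
  -- Frobenius
  have hfrob : ∀ j, ∑ x ∈ range (N₂ * M), χ₂ (x : ZMod M) ^ q ^ j * w x = 0 := by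
    intro j
    have h1 := congrArg (iterateFrobenius k p (g * j)) hS
    rw [map_sum, map_zero] at h1
    rw [← h1]
    refine sum_congr rfl fun x _ => ?_
    rw [iterateFrobenius_def, mul_pow, mul_pow, Pool.Agent.Y18.GX.frob_fix (p := p)]
    have h2 : ∀ i, χ₁ (x : ZMod N₂) ^ p ^ (g * i) = χ₁ (x : ZMod N₂) := by
      intro i
      induction i with
      | zero => rw [mul_zero, pow_zero, pow_one]
      | succ i ih => rw [mul_add, mul_one, pow_add, pow_mul, ih, hχ₁]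
    rw [h2, hqdef, ← pow_mul, hw]
    ring
  -- the orbit sums
  have horb : ∀ x : ℕ, ∑ j ∈ range M, (χ₂ (x : ZMod M) * (χ₂ (c : ZMod M))⁻¹) ^ q ^ j =
      if χ₂ (x : ZMod M) ≠ 0 ∧ χ₂ (x : ZMod M) ^ (q - 1) = χ₂ (c : ZMod M) ^ (q - 1) then
        (M : k) * (χ₂ (x : ZMod M) * (χ₂ (c : ZMod M))⁻¹) else 0 := by
    intro x
    by_cases hx : χ₂ (x : ZMod M) = 0
    · rw [if_neg (fun h => h.1 hx)]
      refine sum_eq_zero fun j _ => ?_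
      rw [hx, zero_mul, zero_pow (pow_ne_zero _ (by omega))]
    · have hxu : IsUnit ((x : ℕ) : ZMod M) := by
        by_contra hcon
        exact hx (χ₂.map_nonunit hcon)
      have hxM : x.Coprime M := (ZMod.isUnit_iff_coprime x M).1 hxu
      have hpow : ∀ y : ℕ, y.Coprime M → 0 < y → (χ₂ (y : ZMod M) ^ (q - 1)) ^ M = 1 := by
        intro y hy hy0
        have h1 := univ_exp (q := q) (fun r hr hrM => (hM r hr hrM).1) hy hy0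
        have h2 : (y ^ ((q - 1) * M) : ℕ) ≡ 1 [MOD M] :=
          ((Nat.modEq_iff_dvd' (Nat.one_le_pow _ _ hy0)).2 h1).symm
        have h3 := (ZMod.natCast_eq_natCast_iff _ _ _).2 h2
        rw [Nat.cast_pow, Nat.cast_one] at h3
        rw [← pow_mul, ← map_pow, h3, map_one]
      have hz : ((χ₂ (x : ZMod M) * (χ₂ (c : ZMod M))⁻¹) ^ (q - 1)) ^ M = 1 := by
        rcases Nat.eq_zero_or_pos x with h0 | h0
        · -- `x = 0` is a unit only for `M = 1`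
          subst h0
          have hM1 : M = 1 := by
            rwa [Nat.coprime_zero_left] at hxM
          subst hM1
          have h1 : ∀ y : ZMod 1, χ₂ y = 1 := fun y => by rw [Subsingleton.elim y 1, map_one]
          rw [h1, h1]
          simp
        · rw [mul_pow, mul_pow, inv_pow, inv_pow, hpow x hxM h0, hpow c hc hc0]
          simp
      rw [orbit_sum hM0 hq (fun r hr hrM => (hM r hr hrM).2) _ hz]
      have hiff : (χ₂ (x : ZMod M) * (χ₂ (c : ZMod M))⁻¹) ^ (q - 1) = 1 ↔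
          (χ₂ (x : ZMod M) ≠ 0 ∧ χ₂ (x : ZMod M) ^ (q - 1) = χ₂ (c : ZMod M) ^ (q - 1)) := by
        rw [mul_pow, inv_pow, mul_inv_eq_one₀ (pow_ne_zero _ hc2)]
        exact ⟨fun h => ⟨hx, h⟩, fun h => h.2⟩
      simp only [hiff]
  have hsum : ∑ x ∈ range (N₂ * M), w x * ∑ j ∈ range M, (χ₂ (x : ZMod M) * (χ₂ (c : ZMod M))⁻¹) ^ q ^ j = 0 := by
    simp only [mul_sum]
    rw [sum_comm]
    refine sum_eq_zero fun j _ => ?_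
    have h1 := hfrob j
    calc ∑ x ∈ range (N₂ * M), w x * (χ₂ (x : ZMod M) * (χ₂ (c : ZMod M))⁻¹) ^ q ^ j
        = ((χ₂ (c : ZMod M))⁻¹) ^ q ^ j * ∑ x ∈ range (N₂ * M), χ₂ (x : ZMod M) ^ q ^ j * w x := by
          rw [mul_sum]
          exact sum_congr rfl fun x _ => by rw [mul_pow]; ring
      _ = 0 := by rw [h1, mul_zero]
  simp only [horb] at hsum
  have h2 : ∑ x ∈ range (N₂ * M), (if χ₂ (x : ZMod M) ≠ 0 ∧ χ₂ (x : ZMod M) ^ (q - 1) = χ₂ (c : ZMod M) ^ (q - 1)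
      then χ₁ (x : ZMod N₂) * χ₂ (x : ZMod M) * aeval ((x : k) / (N₂ * M : ℕ)) F else 0) =
      (χ₂ (c : ZMod M) * (M : k)⁻¹) * ∑ x ∈ range (N₂ * M), w x *
        (if χ₂ (x : ZMod M) ≠ 0 ∧ χ₂ (x : ZMod M) ^ (q - 1) = χ₂ (c : ZMod M) ^ (q - 1) then
        (M : k) * (χ₂ (x : ZMod M) * (χ₂ (c : ZMod M))⁻¹) else 0) := by
    rw [mul_sum]
    refine sum_congr rfl fun x _ => ?_
    split_ifs with h
    · rw [hw]
      field_simp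
    · simp
  rw [h2, hsum, mul_zero]

end

section
variable {k : Type} [Field k]

/-- the index set of the classes -/
def II (T : Finset ℕ) : Finset ({ℓ // ℓ ∈ T} → ℕ) := Fintype.piFinset fun ℓ => range (Lf ℓ.1)

lemma mem_II {T : Finset ℕ} {f : {ℓ // ℓ ∈ T} → ℕ} : f ∈ II T ↔ ∀ ℓ, f ℓ < Lf ℓ.1 := by
  unfold II
  rw [Fintype.mem_piFinset]
  exact forall_congr' fun ℓ => mem_range

open scoped Classical in
/-- the kernel as a union of classes -/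
theorem ker_classes {T : Finset ℕ} (hT : ∀ ℓ ∈ T, ℓ.Prime) {a : ℕ → ℕ} {e q : ℕ} (he : 2 ≤ e)
    (ha : ∀ ℓ ∈ T, 2 * e ≤ a ℓ) (hq : 1 < q) (hqe : ∀ ℓ ∈ T, padicValNat ℓ (q - 1) = e)
    (hqL : ∀ ℓ ∈ T, Lf ℓ ∣ q - 1) {h : ℕ → ℕ} (hh : ∀ ℓ ∈ T, IsRoot ℓ (a ℓ) (h ℓ))
    {M D : ℕ} (hMdef : M = ∏ ℓ ∈ T, ℓ ^ a ℓ) (hDdef : D = ∏ ℓ ∈ T, ℓ ^ (a ℓ - e))
    (χ : MulChar (ZMod M) k)
    (hprim : ∀ r : ℕ, r.Prime → r ∣ M → ∃ y : ℤ, ((M / r : ℕ) : ℤ) ∣ y - 1 ∧ χ (y : ZMod M) ≠ 1)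
    (η : ({ℓ // ℓ ∈ T} → ℕ) → ℕ) (hη : ∀ f ∈ II T, ∀ ℓ : {ℓ // ℓ ∈ T}, η f ≡ h ℓ ^ f ℓ [MOD ℓ.1 ^ a ℓ])
    {c : ℕ} (hc : c.Coprime M) (x : ℕ) (hx : χ (x : ZMod M) ≠ 0) (hx0 : 0 < x) (G : k) :
    ∑ f ∈ II T, (if ((x : ℤ) ≡ (η f : ℤ) * c [ZMOD D]) then G else 0) =
      if χ (x : ZMod M) ≠ 0 ∧ χ (x : ZMod M) ^ (q - 1) = χ (c : ZMod M) ^ (q - 1) then G else 0 := by
  have hM0 : 0 < M := by
    rw [hMdef]
    exact Finset.prod_pos fun ℓ hℓ => pow_pos (hT ℓ hℓ).pos _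
  have hxu : IsUnit ((x : ℕ) : ZMod M) := by
    by_contra hcon
    exact hx (χ.map_nonunit hcon)
  have hxM : x.Coprime M := (ZMod.isUnit_iff_coprime x M).1 hxu
  have hrT : ∀ r : ℕ, r.Prime → r ∣ M → r ∈ T := fun r hr hrM => prime_mem hT a hr (hMdef ▸ hrM)
  have hdM : ∀ ℓ ∈ T, ℓ ^ a ℓ ∣ M := fun ℓ hℓ => by
    rw [hMdef]
    exact Finset.dvd_prod_of_mem (fun ℓ => ℓ ^ a ℓ) hℓ
  have hℓM : ∀ ℓ ∈ T, ℓ ∣ M := fun ℓ hℓ => (dvd_pow_self ℓ (by have := ha ℓ hℓ; omega)).trans (hdM ℓ hℓ)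
  have hqd : ∀ ℓ ∈ T, ℓ ^ e ∣ q - 1 := fun ℓ hℓ => by
    have : Fact ℓ.Prime := ⟨hT ℓ hℓ⟩
    rw [← hqe ℓ hℓ]
    exact pow_padicValNat_dvd
  have hsq : ∀ r : ℕ, r.Prime → r ∣ M → r ^ 2 ∣ M := fun r hr hrM => by
    have hrT' := hrT r hr hrM
    exact (pow_dvd_pow r (by have := ha r hrT'; omega)).trans (hdM r hrT')
  have hMq : ∀ r : ℕ, r.Prime → r ∣ M → r - 1 ∣ q - 1 ∧ r ∣ q - 1 := fun r hr hrM => by
    have hrT' := hrT r hr hrM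
    constructor
    · have h1 := hqL r hrT'
      unfold Lf at h1
      split_ifs at h1 with h2
      · subst h2
        exact one_dvd _
      · exact h1
    · exact (dvd_pow_self r (by omega)).trans (hqd r hrT')
  -- membership in a class
  have hcls : ∀ f ∈ II T, ((x : ℤ) ≡ (η f : ℤ) * c [ZMOD D]) ↔
      ∀ ℓ : {ℓ // ℓ ∈ T}, x ≡ h ℓ ^ f ℓ * c [MOD ℓ.1 ^ (a ℓ - e)] := by
    intro f hf
    have h1 : ((x : ℤ) ≡ (η f : ℤ) * c [ZMOD D]) ↔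
        ∀ ℓ ∈ T, ((ℓ ^ (a ℓ - e) : ℕ) : ℤ) ∣ (η f : ℤ) * c - x := by
      rw [Int.modEq_iff_dvd, hDdef]
      exact prod_dvd_iff hT (fun ℓ => a ℓ - e) _
    rw [h1]
    have h2 : ∀ ℓ : {ℓ // ℓ ∈ T}, η f * c ≡ h ℓ ^ f ℓ * c [MOD ℓ.1 ^ (a ℓ - e)] := fun ℓ =>
      ((hη f hf ℓ).mul_right c).of_dvd (pow_dvd_pow _ (Nat.sub_le _ _))
    constructor
    · intro h3 ℓ
      have h4 : x ≡ η f * c [MOD ℓ.1 ^ (a ℓ - e)] := by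
        rw [Nat.modEq_iff_dvd]
        have := h3 ℓ.1 ℓ.2
        push_cast at this ⊢
        exact this
      exact h4.trans (h2 ℓ)
    · intro h3 ℓ hℓ
      have h4 := (h3 ⟨ℓ, hℓ⟩).trans (h2 ⟨ℓ, hℓ⟩).symm
      have h5 := Nat.modEq_iff_dvd.1 h4
      push_cast at h5 ⊢
      exact h5
  -- uniqueness
  have huniq : ∀ f ∈ II T, ∀ f' ∈ II T, ((x : ℤ) ≡ (η f : ℤ) * c [ZMOD D]) →
      ((x : ℤ) ≡ (η f' : ℤ) * c [ZMOD D]) → f = f' := by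
    intro f hf f' hf' h1 h2
    funext ℓ
    have h3 := ((hcls f hf).1 h1 ℓ)
    have h4 := ((hcls f' hf').1 h2 ℓ)
    have h5 := h3.symm.trans h4
    have hmd : mf ℓ.1 ∣ ℓ.1 ^ (a ℓ - e) := mf_dvd (by have := ha ℓ.1 ℓ.2; omega)
    have h6 := h5.of_dvd hmd
    have hcℓ : c.Coprime ℓ.1 := hc.coprime_dvd_right (hℓM ℓ.1 ℓ.2)
    have hcm : Nat.gcd (mf ℓ.1) c = 1 := by
      have : mf ℓ.1 ∣ ℓ.1 ^ 2 := mf_dvd le_rfl
      exact (Nat.Coprime.coprime_dvd_left this (hcℓ.symm.pow_left 2))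
    have h7 := Nat.ModEq.cancel_right_of_coprime hcm h6
    exact (hh ℓ.1 ℓ.2).inj _ (mem_II.1 hf ℓ) _ (mem_II.1 hf' ℓ) h7
  -- the kernel
  have hker : (∃ f ∈ II T, ((x : ℤ) ≡ (η f : ℤ) * c [ZMOD D])) ↔
      (χ (x : ZMod M) ≠ 0 ∧ χ (x : ZMod M) ^ (q - 1) = χ (c : ZMod M) ^ (q - 1)) := by
    constructor
    · rintro ⟨f, hf, h1⟩
      refine ⟨hx, ?_⟩
      have h2 : x ^ (q - 1) ≡ c ^ (q - 1) [MOD M] := by
        rw [Nat.modEq_iff_dvd, hMdef, prod_dvd_iff hT a]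
        intro ℓ hℓ
        have h3 := (hcls f hf).1 h1 ⟨ℓ, hℓ⟩
        exact Nat.modEq_iff_dvd.1 (pow_of_class (hh ℓ hℓ) (ha ℓ hℓ) (hqd ℓ hℓ) (hqL ℓ hℓ) h3)
      rw [← map_pow, ← map_pow, ← Nat.cast_pow, ← Nat.cast_pow, (ZMod.natCast_eq_natCast_iff _ _ _).2 h2]
    · rintro ⟨-, h1⟩
      have h2 := ker_sub hM0 hsq χ hprim hMq hxM hc hx0 h1
      have h3 : ∀ ℓ : {ℓ // ℓ ∈ T}, ∃ i < Lf ℓ.1, x ≡ h ℓ ^ i * c [MOD ℓ.1 ^ (a ℓ - e)] := fun ℓ =>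
        class_of_pow (hT ℓ.1 ℓ.2) (hh ℓ.1 ℓ.2) (by have := ha ℓ.1 ℓ.2; omega) hq (hqe ℓ.1 ℓ.2) (hqL ℓ.1 ℓ.2)
          (hxM.coprime_dvd_right (hℓM ℓ.1 ℓ.2)) (hc.coprime_dvd_right (hℓM ℓ.1 ℓ.2)) hx0
          (h2.of_dvd (hdM ℓ.1 ℓ.2))
      choose f hf1 hf2 using h3
      exact ⟨f, mem_II.2 hf1, (hcls f (mem_II.2 hf1)).2 hf2⟩
  by_cases hex : ∃ f ∈ II T, ((x : ℤ) ≡ (η f : ℤ) * c [ZMOD D])
  · rw [if_pos (hker.1 hex)]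
    obtain ⟨f, hf, h1⟩ := hex
    rw [Finset.sum_eq_single_of_mem f hf (fun f' hf' hne => if_neg fun h2 => hne (huniq f' hf' f hf h2 h1)),
      if_pos h1]
  · rw [if_neg (fun h1 => hex (hker.2 h1))]
    refine sum_eq_zero fun f hf => if_neg fun h1 => hex ⟨f, hf, h1⟩

end

end Pool.Agent.J6H69.GB
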