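import Mathlib

/-!
# Linear forms on `A[X] / (Φ_L)` and small solutions of congruences
-/

set_option autoImplicit false

namespace Pool.Agent.J6H69.GB

open Polynomial Finset

section lam
variable {A : Type} [CommRing A]

/-- The value at `P` of the linear form on `A[X] / (Φ_L)` with the value `w j` at `X ^ j`, `j < φ(L)`. -/
noncomputable def lam (L : ℕ) (w : ℕ → A) (P : A[X]) : A :=
  ∑ j ∈ range L.totient, (P %ₘ cyclotomic L A).coeff j * w j

lemma lam_add (L : ℕ) (w : ℕ → A) (P Q : A[X]) : lam L w (P + Q) = lam L w P + lam L w Q := by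
  unfold lam
  rw [add_modByMonic, ← Finset.sum_add_distrib]
  refine sum_congr rfl fun j _ => ?_
  rw [coeff_add, add_mul]

lemma lam_C_mul (L : ℕ) (w : ℕ → A) (c : A) (P : A[X]) : lam L w (C c * P) = c * lam L w P := by
  unfold lam
  rw [← smul_eq_C_mul, smul_modByMonic, mul_sum]
  refine sum_congr rfl fun j _ => ?_
  rw [coeff_smul, smul_eq_mul, mul_assoc]

lemma lam_zero (L : ℕ) (w : ℕ → A) : lam L w 0 = 0 := by
  unfold lam
  rw [zero_modByMonic]
  simp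

lemma lam_sum (L : ℕ) (w : ℕ → A) {ι : Type} (s : Finset ι) (P : ι → A[X]) :
    lam L w (∑ i ∈ s, P i) = ∑ i ∈ s, lam L w (P i) := by
  classical
  induction s using Finset.induction_on with
  | empty => rw [Finset.sum_empty, Finset.sum_empty, lam_zero]
  | insert a s ha ih => rw [Finset.sum_insert ha, Finset.sum_insert ha, lam_add, ih]

lemma lam_cyc_mul (L : ℕ) (w : ℕ → A) (Q : A[X]) : lam L w (cyclotomic L A * Q) = 0 := by
  unfold lam
  rw [(modByMonic_eq_zero_iff_dvd (cyclotomic.monic L A)).2 (dvd_mul_right _ _)]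
  simp

lemma lam_sub (L : ℕ) (w : ℕ → A) (P Q : A[X]) : lam L w (P - Q) = lam L w P - lam L w Q := by
  have h := lam_add L w (P - Q) Q
  rw [sub_add_cancel] at h
  rw [h, add_sub_cancel_right]

lemma lam_congr (L : ℕ) (w : ℕ → A) {P Q : A[X]} (h : cyclotomic L A ∣ P - Q) : lam L w P = lam L w Q := by
  obtain ⟨R, hR⟩ := h
  have h1 := lam_sub L w P Q
  rw [hR, lam_cyc_mul] at h1
  exact sub_eq_zero.1 h1.symm

lemma lam_w_add (L : ℕ) (w w' : ℕ → A) (P : A[X]) :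
    lam L (fun j => w j + w' j) P = lam L w P + lam L w' P := by
  unfold lam
  rw [← Finset.sum_add_distrib]
  refine sum_congr rfl fun j _ => ?_
  ring

lemma lam_w_mul (L : ℕ) (w : ℕ → A) (c : A) (P : A[X]) :
    lam L (fun j => c * w j) P = c * lam L w P := by
  unfold lam
  rw [mul_sum]
  refine sum_congr rfl fun j _ => ?_
  ring

lemma lam_w_congr (L : ℕ) {w w' : ℕ → A} (P : A[X]) (h : ∀ j < L.totient, w j = w' j) :
    lam L w P = lam L w' P := by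
  unfold lam
  refine sum_congr rfl fun j hj => ?_
  rw [h j (mem_range.1 hj)]

lemma lam_w_zero (L : ℕ) {w : ℕ → A} (P : A[X]) (h : ∀ j < L.totient, w j = 0) :
    lam L w P = 0 := by
  unfold lam
  refine sum_eq_zero fun j hj => ?_
  rw [h j (mem_range.1 hj), mul_zero]

variable [Nontrivial A]

lemma lam_X_pow {L : ℕ} (w : ℕ → A) {j : ℕ} (hj : j < L.totient) : lam L w (X ^ j) = w j := by
  unfold lam
  have h1 : (X ^ j : A[X]) %ₘ cyclotomic L A = X ^ j := by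
    rw [modByMonic_eq_self_iff (cyclotomic.monic L A), degree_cyclotomic, degree_X_pow]
    exact_mod_cast hj
  rw [h1, Finset.sum_eq_single j]
  · simp
  · intro b _ hb
    rw [coeff_X_pow, if_neg hb, zero_mul]
  · intro h
    exact absurd (mem_range.2 hj) h

lemma cyc_ne_one {L : ℕ} (hL : 1 ≤ L) : cyclotomic L A ≠ 1 := by
  intro h
  have h1 := natDegree_cyclotomic L A
  rw [h, natDegree_one] at h1
  have := Nat.totient_pos.2 hL
  omega

lemma mod_sum {L : ℕ} (hL : 1 ≤ L) (P : A[X]) :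
    P %ₘ cyclotomic L A = ∑ j ∈ range L.totient, C ((P %ₘ cyclotomic L A).coeff j) * X ^ j := by
  have h1 : (P %ₘ cyclotomic L A).natDegree < L.totient := by
    have := natDegree_modByMonic_lt P (cyclotomic.monic L A) (cyc_ne_one hL)
    rwa [natDegree_cyclotomic] at this
  exact as_sum_range_C_mul_X_pow' _ h1

lemma lam_mul {L : ℕ} (hL : 1 ≤ L) (w : ℕ → A) (G P : A[X]) :
    lam L (fun i => lam L w (X ^ i * G)) P = lam L w (P * G) := by
  have h1 : lam L w (P * G) = lam L w ((P %ₘ cyclotomic L A) * G) := by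
    apply lam_congr
    refine ⟨(P /ₘ cyclotomic L A) * G, ?_⟩
    have h2 := modByMonic_add_div P (cyclotomic L A)
    linear_combination (-G) * h2
  rw [h1, mod_sum hL P, sum_mul, lam_sum]
  rw [lam]
  refine sum_congr rfl fun j _ => ?_
  rw [mul_assoc, lam_C_mul]

lemma lam_map {B : Type} [CommRing B] (f : A →+* B) (L : ℕ) (w : ℕ → A) (P : A[X]) :
    lam L (fun j => f (w j)) (P.map f) = f (lam L w P) := by
  unfold lam
  rw [map_sum]
  refine sum_congr rfl fun j _ => ?_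
  rw [map_mul, ← map_cyclotomic L f, ← map_modByMonic f (cyclotomic.monic L A), coeff_map]

end lam

/-- nondegeneracy -/
theorem det_ne {L : ℕ} (hL : 1 ≤ L) (w : ℕ → ℤ) (hw : ∃ j < L.totient, w j ≠ 0) :
    (Matrix.of fun i j : Fin L.totient => lam L w (X ^ ((i : ℕ) + j))).det ≠ 0 := by
  intro hdet
  obtain ⟨g, hg0, hg⟩ := Matrix.exists_mulVec_eq_zero_iff.2 hdet
  set G : ℤ[X] := ∑ j : Fin L.totient, C (g j) * X ^ (j : ℕ) with hG
  -- the sequence of `G`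
  have hu : ∀ i < L.totient, lam L w (X ^ i * G) = 0 := by
    intro i hi
    have h1 := congrFun hg ⟨i, hi⟩
    rw [Matrix.mulVec, dotProduct, Pi.zero_apply] at h1
    rw [hG, mul_sum, lam_sum, ← h1]
    refine sum_congr rfl fun j _ => ?_
    rw [Matrix.of_apply]
    have h2 : (X ^ i * (C (g j) * X ^ (j : ℕ)) : ℤ[X]) = C (g j) * X ^ (i + j) := by
      rw [pow_add]
      ring
    rw [h2, lam_C_mul, mul_comm]
  -- `G` is prime to `Φ`
  set f := Int.castRingHom ℚ with hf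
  have hGc : ∀ i : Fin L.totient, G.coeff i = g i := by
    intro i
    rw [hG, finset_sum_coeff, Finset.sum_eq_single i]
    · rw [coeff_C_mul, coeff_X_pow, if_pos rfl, mul_one]
    · intro b _ hb
      rw [coeff_C_mul, coeff_X_pow, if_neg (fun h => hb (Fin.ext h.symm)), mul_zero]
    · intro h
      exact absurd (mem_univ _) h
  have hG0 : G.map f ≠ 0 := by
    intro h
    apply hg0
    funext i
    have h1 : (G.map f).coeff i = 0 := by rw [h, coeff_zero]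
    rw [coeff_map, hGc] at h1
    simpa [hf] using h1
  have hdeg : (G.map f).natDegree < L.totient := by
    refine lt_of_le_of_lt natDegree_map_le ?_
    rw [hG]
    have h1 : (∑ j : Fin L.totient, C (g j) * X ^ (j : ℕ) : ℤ[X]).natDegree ≤ L.totient - 1 := by
      apply natDegree_sum_le_of_forall_le
      intro i _
      refine (natDegree_C_mul_X_pow_le _ _).trans ?_
      have := i.2
      omega
    have := Nat.totient_pos.2 hL
    omega
  have hcop : IsCoprime (G.map f) (cyclotomic L ℚ) := by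
    rw [isCoprime_comm, (cyclotomic.irreducible_rat hL).coprime_iff_not_dvd]
    intro h
    have h1 := natDegree_le_of_dvd h hG0
    rw [natDegree_cyclotomic] at h1
    omega
  obtain ⟨a, b, hab⟩ := hcop
  have hzero : ∀ P : ℚ[X], lam L (fun j => f (w j)) (P * G.map f) = 0 := by
    intro P
    rw [← lam_mul hL]
    apply lam_w_zero
    intro i hi
    have h1 : (X ^ i * G.map f : ℚ[X]) = (X ^ i * G).map f := by simp
    rw [h1, lam_map, hu i hi, map_zero]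
  obtain ⟨j, hj, hwj⟩ := hw
  apply hwj
  have h2 : lam L (fun j => f (w j)) (X ^ j) = 0 := by
    have h3 : (X ^ j : ℚ[X]) = (X ^ j * a) * G.map f + cyclotomic L ℚ * (X ^ j * b) := by
      linear_combination (-(X ^ j : ℚ[X])) * hab
    rw [h3, lam_add, hzero, lam_cyc_mul, add_zero]
  rw [lam_X_pow _ hj] at h2
  simpa [hf] using h2

/-- approximation of real vectors by the multiples of a nonzero sequence -/
theorem approx {L : ℕ} (hL : 1 ≤ L) (w : ℕ → ℤ) (hw : ∃ j < L.totient, w j ≠ 0) {B : ℝ} (hB0 : 0 ≤ B)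
    (hB : ∀ i < 2 * L.totient, |((lam L w (X ^ i) : ℤ) : ℝ)| ≤ B) (τ : ℕ → ℝ) :
    ∃ G : ℤ[X], ∀ i < L.totient, |((lam L w (X ^ i * G) : ℤ) : ℝ) - τ i| ≤ L.totient * B := by
  set d := L.totient with hd
  set V : Matrix (Fin d) (Fin d) ℝ :=
    (Matrix.of fun i j : Fin d => lam L w (X ^ ((i : ℕ) + j))).map (Int.castRingHom ℝ) with hV
  have hdet : V.det ≠ 0 := by
    rw [hV, ← RingHom.mapMatrix_apply, ← RingHom.map_det]
    intro h
    apply det_ne hL w hw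
    simpa using h
  set g : Fin d → ℝ := V⁻¹.mulVec (fun i : Fin d => τ i) with hg
  have hVg : V.mulVec g = fun i : Fin d => τ i := by
    rw [hg, Matrix.mulVec_mulVec, Matrix.mul_nonsing_inv _ (isUnit_iff_ne_zero.2 hdet), Matrix.one_mulVec]
  refine ⟨∑ j : Fin d, C (round (g j)) * X ^ (j : ℕ), fun i hi => ?_⟩
  have h1 : ((lam L w (X ^ i * ∑ j : Fin d, C (round (g j)) * X ^ (j : ℕ)) : ℤ) : ℝ) =
      ∑ j : Fin d, (round (g j) : ℝ) * ((lam L w (X ^ (i + j)) : ℤ) : ℝ) := by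
    rw [mul_sum, lam_sum, Int.cast_sum]
    refine sum_congr rfl fun j _ => ?_
    have h2 : (X ^ i * (C (round (g j)) * X ^ (j : ℕ)) : ℤ[X]) = C (round (g j)) * X ^ (i + j) := by
      rw [pow_add]
      ring
    rw [h2, lam_C_mul]
    push_cast
    ring
  have h2 : τ i = ∑ j : Fin d, g j * ((lam L w (X ^ (i + j)) : ℤ) : ℝ) := by
    have h3 := congrFun hVg ⟨i, hi⟩
    rw [Matrix.mulVec, dotProduct] at h3
    have h4 : τ i = ∑ j : Fin d, V ⟨i, hi⟩ j * g j := h3.symm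
    rw [h4]
    refine sum_congr rfl fun j _ => ?_
    rw [hV, Matrix.map_apply, Matrix.of_apply, mul_comm]
    rfl
  rw [h1, h2, ← Finset.sum_sub_distrib]
  calc |∑ j : Fin d, ((round (g j) : ℝ) * ((lam L w (X ^ (i + j)) : ℤ) : ℝ) -
        g j * ((lam L w (X ^ (i + j)) : ℤ) : ℝ))|
      ≤ ∑ j : Fin d, |(round (g j) : ℝ) * ((lam L w (X ^ (i + j)) : ℤ) : ℝ) -
        g j * ((lam L w (X ^ (i + j)) : ℤ) : ℝ)| := Finset.abs_sum_le_sum_abs _ _
    _ ≤ ∑ j : Fin d, B := by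
        refine sum_le_sum fun j _ => ?_
        rw [← sub_mul, abs_mul]
        have h5 : |(round (g j) : ℝ) - g j| ≤ 1 := by
          rw [abs_sub_comm]
          exact (abs_sub_round (g j)).trans (by norm_num)
        have h6 := hB (i + j) (by have := j.2; omega)
        calc |(round (g j) : ℝ) - g j| * |((lam L w (X ^ (i + j)) : ℤ) : ℝ)| ≤ 1 * B :=
              mul_le_mul h5 h6 (abs_nonneg _) zero_le_one
          _ = B := one_mul B
    _ = d * B := by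
        rw [Finset.sum_const, Finset.card_univ, Fintype.card_fin, nsmul_eq_mul]

/-- a constant -/
noncomputable def cst (L K : ℕ) : ℕ :=
  ∑ i ∈ range K, ∑ j ∈ range L.totient, (((X ^ i : ℤ[X]) %ₘ cyclotomic L ℤ).coeff j).natAbs

lemma lam_bound {L K i : ℕ} (hi : i < K) (w : ℕ → ℝ) {B : ℝ} (hB0 : 0 ≤ B)
    (hB : ∀ j < L.totient, |w j| ≤ B) : |lam L w (X ^ i)| ≤ cst L K * B := by
  have h1 : ∀ j, ((X ^ i : ℝ[X]) %ₘ cyclotomic L ℝ).coeff j =
      ((((X ^ i : ℤ[X]) %ₘ cyclotomic L ℤ).coeff j : ℤ) : ℝ) := by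
    intro j
    have h2 : (X ^ i : ℝ[X]) = (X ^ i : ℤ[X]).map (Int.castRingHom ℝ) := by simp
    rw [h2, ← map_cyclotomic L (Int.castRingHom ℝ), ← map_modByMonic _ (cyclotomic.monic L ℤ), coeff_map]
    rfl
  unfold lam
  simp only [h1]
  calc |∑ j ∈ range L.totient, ((((X ^ i : ℤ[X]) %ₘ cyclotomic L ℤ).coeff j : ℤ) : ℝ) * w j|
      ≤ ∑ j ∈ range L.totient, |((((X ^ i : ℤ[X]) %ₘ cyclotomic L ℤ).coeff j : ℤ) : ℝ) * w j| :=
        Finset.abs_sum_le_sum_abs _ _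
    _ ≤ ∑ j ∈ range L.totient, ((((X ^ i : ℤ[X]) %ₘ cyclotomic L ℤ).coeff j).natAbs : ℝ) * B := by
        refine sum_le_sum fun j hj => ?_
        rw [abs_mul]
        refine mul_le_mul ?_ (hB j (mem_range.1 hj)) (abs_nonneg _) (Nat.cast_nonneg _)
        rw [Nat.cast_natAbs, Int.cast_abs]
    _ = ((∑ j ∈ range L.totient, (((X ^ i : ℤ[X]) %ₘ cyclotomic L ℤ).coeff j).natAbs : ℕ) : ℝ) * B := by
        rw [Nat.cast_sum, sum_mul]
    _ ≤ cst L K * B := by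
        refine mul_le_mul_of_nonneg_right ?_ hB0
        rw [Nat.cast_le]
        exact Finset.single_le_sum (f := fun i => ∑ j ∈ range L.totient,
          (((X ^ i : ℤ[X]) %ₘ cyclotomic L ℤ).coeff j).natAbs) (fun _ _ => Nat.zero_le _) (mem_range.2 hi)

lemma lam_castR (L : ℕ) (w : ℕ → ℤ) (i : ℕ) :
    ((lam L w (X ^ i) : ℤ) : ℝ) = lam L (fun j => (w j : ℝ)) (X ^ i) := by
  have h := lam_map (Int.castRingHom ℝ) L w (X ^ i)
  rw [Polynomial.map_pow, map_X] at h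
  exact h.symm

lemma lam_boundZ {L K i : ℕ} (hi : i < K) (w : ℕ → ℤ) {B : ℝ} (hB0 : 0 ≤ B)
    (hB : ∀ j < L.totient, |(w j : ℝ)| ≤ B) : |((lam L w (X ^ i) : ℤ) : ℝ)| ≤ cst L K * B := by
  rw [lam_castR]
  exact lam_bound hi _ hB0 hB

/-- congruences -/
lemma lam_modEq {L : ℕ} (hL : 1 ≤ L) {n h : ℤ} (hn : n ∣ (cyclotomic L ℤ).eval h) (w : ℕ → ℤ)
    (hw : ∀ j < L.totient, w j ≡ h ^ j * w 0 [ZMOD n]) (P : ℤ[X]) :
    lam L w P ≡ P.eval h * w 0 [ZMOD n] := by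
  have h1 : lam L w P ≡ (P %ₘ cyclotomic L ℤ).eval h * w 0 [ZMOD n] := by
    conv_rhs => rw [mod_sum hL P]
    rw [eval_finset_sum, sum_mul]
    unfold lam
    rw [Int.modEq_iff_dvd, ← Finset.sum_sub_distrib]
    refine Finset.dvd_sum fun j hj => ?_
    rw [eval_mul, eval_C, eval_pow, eval_X]
    have h2 := (hw j (mem_range.1 hj)).dvd
    have h3 : (P %ₘ cyclotomic L ℤ).coeff j * h ^ j * w 0 - (P %ₘ cyclotomic L ℤ).coeff j * w j =
        (P %ₘ cyclotomic L ℤ).coeff j * (h ^ j * w 0 - w j) := by ring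
    rw [h3]
    exact h2.mul_left _
  refine h1.trans ?_
  have h2 : P.eval h = (P %ₘ cyclotomic L ℤ).eval h + (cyclotomic L ℤ).eval h * (P /ₘ cyclotomic L ℤ).eval h := by
    conv_lhs => rw [← modByMonic_add_div P (cyclotomic L ℤ)]
    rw [eval_add, eval_mul]
  rw [h2, Int.modEq_iff_dvd]
  obtain ⟨t, ht⟩ := hn
  refine ⟨t * (P /ₘ cyclotomic L ℤ).eval h * w 0, ?_⟩
  rw [ht]
  ring

/-- pigeonhole -/
lemma pigeon {q J d : ℕ} (hJ : 0 < J) (hq : J ^ d < q) (x : ℕ → ℕ → ℕ) (hx : ∀ c j, x c j < q) :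
    ∃ c c', c < q ∧ c' < q ∧ c ≠ c' ∧ ∀ j < d, |(x c j : ℤ) - x c' j| * J ≤ q := by
  have hq0 : 0 < q := by omega
  obtain ⟨c, hc, c', hc', hne, heq⟩ := Finset.exists_ne_map_eq_of_card_lt_of_maps_to
    (s := range q) (t := Fintype.piFinset (fun _ : Fin d => range J))
    (f := fun c => fun j : Fin d => J * x c j / q) (by
      rw [Fintype.card_piFinset]
      simpa using hq) (by
      intro c _
      rw [Finset.mem_coe, Fintype.mem_piFinset]
      intro j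
      rw [mem_range, Nat.div_lt_iff_lt_mul hq0]
      exact Nat.mul_lt_mul_of_pos_left (hx c j) hJ)
  refine ⟨c, c', mem_range.1 hc, mem_range.1 hc', hne, fun j hj => ?_⟩
  have h1 : J * x c j / q = J * x c' j / q := congrFun heq ⟨j, hj⟩
  have h2 := Nat.div_add_mod (J * x c j) q
  have h3 := Nat.div_add_mod (J * x c' j) q
  have h4 := Nat.mod_lt (J * x c j) hq0
  have h5 := Nat.mod_lt (J * x c' j) hq0
  rw [h1] at h2
  have h6 : |(x c j : ℤ) - x c' j| * J = |(J : ℤ) * x c j - J * x c' j| := by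
    rw [← mul_sub, abs_mul, Nat.abs_cast]
    ring
  rw [h6, abs_le]
  generalize J * x c j % q = r at *
  generalize J * x c' j % q = r' at *
  generalize J * x c' j / q = k at *
  have e2 : (J : ℤ) * x c j = q * k + r := by exact_mod_cast h2.symm
  have e3 : (J : ℤ) * x c' j = q * k + r' := by exact_mod_cast h3.symm
  have e4 : (r : ℤ) < q := by exact_mod_cast h4
  have e5 : (r' : ℤ) < q := by exact_mod_cast h5
  have e6 : (0 : ℤ) ≤ r := Int.natCast_nonneg r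
  have e7 : (0 : ℤ) ≤ r' := Int.natCast_nonneg r'
  rw [e2, e3]
  constructor <;> linarith

/-- a nonzero small solution -/
lemma small_sol {q J d : ℕ} (hJ : 0 < J) (hd : 0 < d) (hq : J ^ d < q) (h : ℤ) :
    ∃ w : ℕ → ℤ, w 0 ≠ 0 ∧ (∀ j < d, w j ≡ h ^ j * w 0 [ZMOD q]) ∧ ∀ j < d, |w j| * J ≤ q := by
  have hq0 : (0 : ℤ) < q := by exact_mod_cast (by omega : 0 < q)
  obtain ⟨c, c', hc, hc', hne, hb⟩ := pigeon (q := q) (J := J) (d := d) hJ hq
    (fun c j => ((h ^ j * c) % (q : ℤ)).toNat) (fun c j => by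
      have h1 := Int.emod_nonneg (h ^ j * c) hq0.ne'
      have h2 := Int.emod_lt_of_pos (h ^ j * c) hq0
      zify
      rw [Int.toNat_of_nonneg h1]
      exact h2)
  have hx : ∀ (c j : ℕ), ((((h ^ j * c) % (q : ℤ)).toNat : ℕ) : ℤ) = (h ^ j * c) % (q : ℤ) := fun c j =>
    Int.toNat_of_nonneg (Int.emod_nonneg _ hq0.ne')
  simp only [hx] at hb
  have h00 : (h ^ 0 * (c : ℤ)) % (q : ℤ) - (h ^ 0 * (c' : ℤ)) % (q : ℤ) = c - c' := by
    rw [pow_zero, one_mul, one_mul, Int.emod_eq_of_lt (by positivity) (by exact_mod_cast hc),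
      Int.emod_eq_of_lt (by positivity) (by exact_mod_cast hc')]
  refine ⟨fun j => (h ^ j * c) % (q : ℤ) - (h ^ j * c') % (q : ℤ), ?_, fun j _ => ?_, hb⟩
  · show (h ^ 0 * (c : ℤ)) % (q : ℤ) - (h ^ 0 * (c' : ℤ)) % (q : ℤ) ≠ 0
    rw [h00]
    intro h1
    apply hne
    omega
  · show (h ^ j * (c : ℤ)) % (q : ℤ) - (h ^ j * (c' : ℤ)) % (q : ℤ) ≡
      h ^ j * ((h ^ 0 * (c : ℤ)) % (q : ℤ) - (h ^ 0 * (c' : ℤ)) % (q : ℤ)) [ZMOD q]
    rw [h00, mul_sub]
    exact (Int.mod_modEq _ _).sub (Int.mod_modEq _ _)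

/-- division by powers of `p` -/
lemma prim_sol {q d : ℕ} {p : ℕ} (hp : p.Prime) (hpq : IsCoprime (p : ℤ) (q : ℤ)) (h : ℤ) {B : ℤ} (s : ℕ) :
    ∀ w : ℕ → ℤ, (∑ j ∈ range d, (w j).natAbs = s) → (∃ j < d, w j ≠ 0) →
      (∀ j < d, w j ≡ h ^ j * w 0 [ZMOD q]) → (∀ j < d, |w j| ≤ B) →
      ∃ w' : ℕ → ℤ, (∃ j < d, ¬ (p : ℤ) ∣ w' j) ∧ (∀ j < d, w' j ≡ h ^ j * w' 0 [ZMOD q]) ∧
        ∀ j < d, |w' j| ≤ B := by
  induction s using Nat.strong_induction_on with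
  | _ s ih =>
    intro w hs hw0 hw hB
    by_cases hdvd : ∃ j < d, ¬ (p : ℤ) ∣ w j
    · exact ⟨w, hdvd, hw, hB⟩
    · push Not at hdvd
      obtain ⟨j₀, hj₀, hj₀'⟩ := hw0
      have hd0 : 0 < d := by omega
      set w' : ℕ → ℤ := fun j => w j / p with hw'
      have hmul : ∀ j < d, w j = p * w' j := fun j hj => (Int.mul_ediv_cancel' (hdvd j hj)).symm
      have hp2 := hp.two_le
      have hlt : ∑ j ∈ range d, (w' j).natAbs < s := by
        rw [← hs]
        refine Finset.sum_lt_sum (fun j hj => ?_) ⟨j₀, mem_range.2 hj₀, ?_⟩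
        · rw [hmul j (mem_range.1 hj), Int.natAbs_mul, Int.natAbs_natCast]
          exact Nat.le_mul_of_pos_left _ hp.pos
        · rw [hmul j₀ hj₀, Int.natAbs_mul, Int.natAbs_natCast]
          have h1 : 0 < (w' j₀).natAbs := by
            rw [Int.natAbs_pos]
            intro h2
            apply hj₀'
            rw [hmul j₀ hj₀, h2, mul_zero]
          nlinarith
      refine ih _ hlt w' rfl ⟨j₀, hj₀, ?_⟩ ?_ ?_
      · intro h2
        apply hj₀'
        rw [hmul j₀ hj₀, h2, mul_zero]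
      · intro j hj
        have h1 := (hw j hj).dvd
        rw [hmul j hj, hmul 0 hd0] at h1
        have h2 : h ^ j * ((p : ℤ) * w' 0) - p * w' j = p * (h ^ j * w' 0 - w' j) := by ring
        rw [h2] at h1
        rw [Int.modEq_iff_dvd]
        exact hpq.symm.dvd_of_dvd_mul_left h1
      · intro j hj
        refine le_trans ?_ (hB j hj)
        rw [hmul j hj, abs_mul, Nat.abs_cast]
        have h1 := abs_nonneg (w' j)
        have h2 : (1 : ℤ) ≤ p := by exact_mod_cast hp.one_lt.le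
        nlinarith

/-- The sequences which are congruent to a geometric progression. -/
def Geo (L : ℕ) (q : ℕ) (h : ℤ) (u : ℕ → ℤ) : Prop := ∀ j < L.totient, u j ≡ h ^ j * u 0 [ZMOD q]

lemma Geo.ext {L q : ℕ} {h : ℤ} {u : ℕ → ℤ} (hu : Geo L q h u) (hL : 1 ≤ L)
    (hn : (q : ℤ) ∣ (cyclotomic L ℤ).eval h) (i : ℕ) : lam L u (X ^ i) ≡ h ^ i * u 0 [ZMOD q] := by
  have := lam_modEq hL hn u hu (X ^ i)
  rwa [eval_pow, eval_X] at this

lemma Geo.shift {L q : ℕ} {h : ℤ} {u : ℕ → ℤ} (hu : Geo L q h u) (hL : 1 ≤ L)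
    (hn : (q : ℤ) ∣ (cyclotomic L ℤ).eval h) (G : ℤ[X]) : Geo L q h (fun i => lam L u (X ^ i * G)) := by
  intro j _
  have h1 := lam_modEq hL hn u hu (X ^ j * G)
  have h2 := lam_modEq hL hn u hu (X ^ 0 * G)
  refine h1.trans ?_
  have h3 := h2.mul_left (h ^ j)
  refine Int.ModEq.trans ?_ h3.symm
  rw [eval_mul, eval_pow, eval_X, pow_zero, one_mul]
  rw [mul_assoc]

/-- small solutions which are not divisible by `p` -/
theorem short {L : ℕ} (hL : 1 ≤ L) {ℓ : ℕ} (hℓ : ℓ.Prime) {J : ℕ} (hJ : 0 < J) :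
    ∃ a₀ : ℕ, ∀ a, a₀ ≤ a → ∀ h : ℤ, ((ℓ ^ a : ℕ) : ℤ) ∣ (cyclotomic L ℤ).eval h → ∀ p : ℕ, p.Prime → p ≠ ℓ →
      ∃ v : ℕ → ℤ, Geo L (ℓ ^ a) h v ∧ (∀ j < L.totient, |v j| * J ≤ (ℓ ^ a : ℕ)) ∧ ¬ (p : ℤ) ∣ v 0 := by
  set d := L.totient with hd
  have hd0 : 0 < d := Nat.totient_pos.2 hL
  set J' := (cst L (2 * d) + 1) * J with hJ'
  have hJ'0 : 0 < J' := Nat.mul_pos (Nat.succ_pos _) hJ
  refine ⟨J' ^ d + 1, fun a ha h hh p hp hpℓ => ?_⟩
  have hq : J' ^ d < ℓ ^ a := lt_of_lt_of_le (by omega : J' ^ d < a) (Nat.lt_pow_self hℓ.one_lt).le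
  obtain ⟨w, hw0, hw, hwb⟩ := small_sol (q := ℓ ^ a) hJ'0 hd0 hq h
  have hpq : IsCoprime (p : ℤ) ((ℓ ^ a : ℕ) : ℤ) := by
    rw [Nat.isCoprime_iff_coprime]
    exact Nat.Coprime.pow_right _ ((Nat.coprime_primes hp hℓ).2 hpℓ)
  have hwB : ∀ j < d, |w j| ≤ ((ℓ ^ a : ℕ) : ℤ) / J' := by
    intro j hj
    rw [Int.le_ediv_iff_mul_le (by exact_mod_cast hJ'0)]
    exact hwb j hj
  obtain ⟨w', ⟨j₀, hj₀, hj₀'⟩, hw', hw'B⟩ := prim_sol (d := d) hp hpq h _ w rfl ⟨0, hd0, hw0⟩ hw hwB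
  have hG : Geo L (ℓ ^ a) h w' := hw'
  refine ⟨fun i => lam L w' (X ^ i * X ^ j₀), hG.shift hL hh _, fun j hj => ?_, ?_⟩
  · show |lam L w' (X ^ j * X ^ j₀)| * (J : ℤ) ≤ (ℓ ^ a : ℕ)
    rw [← pow_add]
    have h1 : |((lam L w' (X ^ (j + j₀)) : ℤ) : ℝ)| ≤ cst L (2 * d) * ((((ℓ ^ a : ℕ) : ℤ) / J' : ℤ) : ℝ) := by
      refine lam_boundZ (by omega) w' ?_ ?_
      · have : (0 : ℤ) ≤ ((ℓ ^ a : ℕ) : ℤ) / J' := Int.ediv_nonneg (by positivity) (by positivity)
        exact_mod_cast this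
      · intro j hj
        have := hw'B j hj
        exact_mod_cast this
    have h2 : |lam L w' (X ^ (j + j₀))| ≤ cst L (2 * d) * (((ℓ ^ a : ℕ) : ℤ) / J') := by exact_mod_cast h1
    have h3 : (((ℓ ^ a : ℕ) : ℤ) / J') * J' ≤ (ℓ ^ a : ℕ) := Int.ediv_mul_le _ (by exact_mod_cast hJ'0.ne')
    have h4 : (0 : ℤ) ≤ ((ℓ ^ a : ℕ) : ℤ) / J' := Int.ediv_nonneg (by positivity) (by positivity)
    calc |lam L w' (X ^ (j + j₀))| * J ≤ (cst L (2 * d) * (((ℓ ^ a : ℕ) : ℤ) / J')) * J :=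
          mul_le_mul_of_nonneg_right h2 (by positivity)
      _ ≤ (((ℓ ^ a : ℕ) : ℤ) / J') * J' := by
          rw [hJ']
          push_cast
          have h5 : (0 : ℤ) ≤ (((ℓ ^ a : ℕ) : ℤ) / J') * J := mul_nonneg h4 (by positivity)
          rw [hJ'] at h5
          push_cast at h5
          nlinarith
      _ ≤ _ := h3
  · show ¬ (p : ℤ) ∣ lam L w' (X ^ 0 * X ^ j₀)
    rw [pow_zero, one_mul, lam_X_pow _ hj₀]
    exact hj₀'

/-- density -/
theorem dense {L : ℕ} (hL : 1 ≤ L) {ℓ : ℕ} (hℓ : ℓ.Prime) {J : ℕ} (hJ : 0 < J) :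
    ∃ a₀ : ℕ, ∀ a, a₀ ≤ a → ∀ h : ℤ, ((ℓ ^ a : ℕ) : ℤ) ∣ (cyclotomic L ℤ).eval h → ∀ τ : ℕ → ℝ,
      ∃ u : ℕ → ℤ, Geo L (ℓ ^ a) h u ∧ ∀ j < L.totient, |(u j : ℝ) - τ j| * J ≤ (ℓ ^ a : ℕ) := by
  set d := L.totient with hd
  have hd0 : 0 < d := Nat.totient_pos.2 hL
  set J' := (cst L (2 * d) + 1) * J * d with hJ'
  have hJ'0 : 0 < J' := Nat.mul_pos (Nat.mul_pos (Nat.succ_pos _) hJ) hd0
  refine ⟨J' ^ d + 1, fun a ha h hh τ => ?_⟩
  have hq : J' ^ d < ℓ ^ a := lt_of_lt_of_le (by omega : J' ^ d < a) (Nat.lt_pow_self hℓ.one_lt).le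
  obtain ⟨w, hw0, hw, hwb⟩ := small_sol (q := ℓ ^ a) hJ'0 hd0 hq h
  have hJ'r : (0 : ℝ) < J' := by exact_mod_cast hJ'0
  have hwB : ∀ j < d, |(w j : ℝ)| ≤ ((ℓ ^ a : ℕ) : ℝ) / J' := by
    intro j hj
    rw [le_div_iff₀ hJ'r]
    have := hwb j hj
    exact_mod_cast this
  have hG : Geo L (ℓ ^ a) h w := hw
  have hB0 : (0 : ℝ) ≤ cst L (2 * d) * (((ℓ ^ a : ℕ) : ℝ) / J') := by positivity
  obtain ⟨G, hGap⟩ := approx hL w ⟨0, hd0, hw0⟩ hB0 (fun i hi => lam_boundZ hi w (by positivity) hwB) τ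
  refine ⟨_, hG.shift hL hh G, fun j hj => ?_⟩
  calc |((lam L w (X ^ j * G) : ℤ) : ℝ) - τ j| * J ≤
        (d * (cst L (2 * d) * (((ℓ ^ a : ℕ) : ℝ) / J'))) * J :=
        mul_le_mul_of_nonneg_right (hGap j hj) (by positivity)
    _ = ((cst L (2 * d) : ℝ) * J * d) * (((ℓ ^ a : ℕ) : ℝ) / J') := by ring
    _ ≤ (J' : ℝ) * (((ℓ ^ a : ℕ) : ℝ) / J') := by
        refine mul_le_mul_of_nonneg_right ?_ (by positivity)
        rw [hJ']
        push_cast
        have : (0 : ℝ) ≤ (J : ℝ) * d := by positivity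
        nlinarith
    _ = (ℓ ^ a : ℕ) := by field_simp

end Pool.Agent.J6H69.GB
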