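import Pool.Agent.J6H69.GB.Kern
import Pool.Agent.J6H69.GB.Seq

/-!
# Roots of unity modulo prime powers
-/

set_option autoImplicit false

namespace Pool.Agent.J6H69.GB

open Finset Polynomial

/-- the order of the group of roots of unity in `ℤ_ℓ` -/
def Lf (ℓ : ℕ) : ℕ := if ℓ = 2 then 2 else ℓ - 1

/-- `4` for `ℓ = 2`, and `ℓ` otherwise -/
def mf (ℓ : ℕ) : ℕ := if ℓ = 2 then 4 else ℓ

lemma Lf_two_le {ℓ : ℕ} (hℓ : ℓ.Prime) : 2 ≤ Lf ℓ := by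
  unfold Lf
  split_ifs with h
  · exact le_rfl
  · have := hℓ.two_le
    omega

lemma Lf_even {ℓ : ℕ} (hℓ : ℓ.Prime) : Even (Lf ℓ) := by
  unfold Lf
  split_ifs with h
  · exact even_two
  · exact hℓ.even_sub_one h

lemma mf_dvd {ℓ a : ℕ} (ha : 2 ≤ a) : mf ℓ ∣ ℓ ^ a := by
  unfold mf
  split_ifs with h
  · subst h
    exact pow_dvd_pow 2 ha
  · exact dvd_pow_self ℓ (by omega)

/-- `h` is a root of unity of order `L` modulo `ℓ ^ a`, and its powers are a system of representatives -/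
structure IsRoot (ℓ a h : ℕ) : Prop where
  cyc : ((ℓ ^ a : ℕ) : ℤ) ∣ (cyclotomic (Lf ℓ) ℤ).eval (h : ℤ)
  pow : h ^ Lf ℓ ≡ 1 [MOD ℓ ^ a]
  surj : ∀ x : ℕ, x.Coprime ℓ → ∃ i < Lf ℓ, x ≡ h ^ i [MOD mf ℓ]
  inj : ∀ i < Lf ℓ, ∀ j < Lf ℓ, h ^ i ≡ h ^ j [MOD mf ℓ] → i = j
  cop : h.Coprime ℓ

lemma exists_root_two (a : ℕ) : ∃ h, IsRoot 2 a h := by
  have h4 : (2 ^ (a + 2) - 1) % 4 = 3 := by
    have h1 : 2 ^ (a + 2) = 4 * 2 ^ a := by rw [pow_add]; ring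
    have h2 : 1 ≤ 2 ^ a := Nat.one_le_pow _ _ (by norm_num)
    rw [h1]
    omega
  have hL : Lf 2 = 2 := rfl
  have hm : mf 2 = 4 := rfl
  refine ⟨2 ^ (a + 2) - 1, ⟨?_, ?_, ?_, ?_, ?_⟩⟩
  · rw [hL, cyclotomic_two, eval_add, eval_X, eval_one, Nat.cast_sub (Nat.one_le_pow _ _ (by norm_num))]
    push_cast
    rw [sub_add_cancel]
    exact pow_dvd_pow 2 (by omega)
  · rw [hL]
    have h1 : 1 ≤ 2 ^ (a + 2) := Nat.one_le_pow _ _ (by norm_num)
    refine ((Nat.modEq_iff_dvd' (Nat.one_le_pow _ _ (by omega))).2 ?_).symm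
    have h2 : (2 ^ (a + 2) - 1) ^ 2 - 1 = 2 ^ a * (4 * (2 ^ (a + 2) - 2)) := by
      obtain ⟨c, hc⟩ : ∃ c, 2 ^ (a + 2) = c + 2 := ⟨2 ^ (a + 2) - 2, by
        have : 2 ^ (a + 2) = 4 * 2 ^ a := by rw [pow_add]; ring
        have h2 : 1 ≤ 2 ^ a := Nat.one_le_pow _ _ (by norm_num)
        omega⟩
      have hc' : 2 ^ a * 4 = c + 2 := by rw [← hc, pow_add]; norm_num
      rw [hc, show c + 2 - 1 = c + 1 by omega, show c + 2 - 2 = c by omega, ← mul_assoc, hc']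
      rw [show (c + 1) ^ 2 = (c + 2) * c + 1 by ring]
      omega
    rw [h2]
    exact dvd_mul_right _ _
  · intro x hx
    rw [hL, hm]
    have hodd : x % 2 = 1 := by
      have := (Nat.coprime_comm.1 hx)
      rw [Nat.Prime.coprime_iff_not_dvd Nat.prime_two] at this
      omega
    have h1 : x % 4 = 1 ∨ x % 4 = 3 := by omega
    rcases h1 with h1 | h1
    · exact ⟨0, by norm_num, by rw [pow_zero]; exact h1⟩
    · exact ⟨1, by norm_num, by rw [pow_one]; exact h1.trans h4.symm⟩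
  · intro i hi j hj hij
    rw [hL] at hi hj
    rw [hm] at hij
    have key : ¬ (1 ≡ 2 ^ (a + 2) - 1 [MOD 4]) := by
      intro h
      have h1 : 1 % 4 = (2 ^ (a + 2) - 1) % 4 := h
      rw [h4] at h1
      norm_num at h1
    interval_cases i <;> interval_cases j
    · rfl
    · rw [pow_zero, pow_one] at hij
      exact absurd hij key
    · rw [pow_zero, pow_one] at hij
      exact absurd hij.symm key
    · rfl
  · rw [Nat.coprime_comm, Nat.Prime.coprime_iff_not_dvd Nat.prime_two]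
    omega

lemma exists_root_odd {ℓ : ℕ} (hℓ : ℓ.Prime) (h2 : ℓ ≠ 2) (a : ℕ) : ∃ h, IsRoot ℓ a h := by
  have hFact : Fact ℓ.Prime := ⟨hℓ⟩
  have hL : Lf ℓ = ℓ - 1 := if_neg h2
  have hm : mf ℓ = ℓ := if_neg h2
  obtain ⟨g, hg⟩ := IsCyclic.exists_generator (α := (ZMod ℓ)ˣ)
  have hord : orderOf g = ℓ - 1 := by
    rw [orderOf_eq_card_of_forall_mem_zpowers hg, Nat.card_eq_fintype_card, ZMod.card_units_eq_totient,
      Nat.totient_prime hℓ]
  set gn := (g : ZMod ℓ).val with hgn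
  have hgz : ((gn : ℕ) : ZMod ℓ) = g := ZMod.natCast_zmod_val _
  set h := gn ^ ℓ ^ a with hh
  have hhz : ((h : ℕ) : ZMod ℓ) = g := by
    rw [hh]
    push_cast
    rw [hgz, ZMod.pow_card_pow]
  have hgn0 : 0 < gn := by
    rcases Nat.eq_zero_or_pos gn with h0 | h0
    · exfalso
      rw [h0, Nat.cast_zero] at hgz
      exact g.ne_zero hgz.symm
    · exact h0
  have hpow : h ^ (ℓ - 1) ≡ 1 [MOD ℓ ^ a] := by
    have h1 : ℓ ∣ gn ^ (ℓ - 1) - 1 := by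
      refine (Nat.modEq_iff_dvd' (Nat.one_le_pow _ _ hgn0)).1 ?_
      refine Nat.ModEq.symm ?_
      rw [← ZMod.natCast_eq_natCast_iff]
      push_cast
      rw [hgz, ZMod.pow_card_sub_one_eq_one g.ne_zero]
    have h3 := pow_pow_dvd (b := a) (Nat.one_le_pow _ _ hgn0) h1
    refine Nat.ModEq.symm ((Nat.modEq_iff_dvd' (Nat.one_le_pow _ _ (pow_pos hgn0 _))).2 ?_)
    rw [← pow_mul, mul_comm, pow_mul]
    exact (pow_dvd_pow ℓ (Nat.le_succ a)).trans h3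
  have hcopn : ∀ d, d ∣ ℓ - 1 → d < ℓ - 1 → ¬ (ℓ : ℤ) ∣ (h : ℤ) ^ d - 1 := by
    intro d _ hd' hdvd
    have h3 : ((h : ℕ) : ZMod ℓ) ^ d = 1 := by
      have h4 := (ZMod.intCast_zmod_eq_zero_iff_dvd ((h : ℤ) ^ d - 1) ℓ).2 hdvd
      push_cast at h4
      exact sub_eq_zero.1 h4
    rw [hhz, ← Units.val_pow_eq_pow_val, ← Units.val_one] at h3
    have h5 := orderOf_dvd_of_pow_eq_one (Units.ext h3)
    rw [hord] at h5
    rcases Nat.eq_zero_or_pos d with h0 | h0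
    · subst h0
      have := hℓ.two_le
      rename_i hd
      rw [Nat.zero_dvd] at hd
      omega
    · have := Nat.le_of_dvd h0 h5
      omega
  refine ⟨h, ⟨?_, ?_, ?_, ?_, ?_⟩⟩
  · rw [hL]
    have hLpos : 0 < ℓ - 1 := by
      have := hℓ.two_le
      omega
    have h3 := prod_cyclotomic_eq_X_pow_sub_one hLpos ℤ
    rw [← Nat.insert_self_properDivisors hLpos.ne', Finset.prod_insert Nat.self_notMem_properDivisors] at h3
    have h4 := congrArg (fun P : ℤ[X] => P.eval (h : ℤ)) h3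
    simp only [eval_mul, eval_sub, eval_pow, eval_X, eval_one] at h4
    have h5 : ((ℓ ^ a : ℕ) : ℤ) ∣ (h : ℤ) ^ (ℓ - 1) - 1 := by
      have h6 := Nat.modEq_iff_dvd.1 hpow.symm
      push_cast at h6 ⊢
      exact h6
    rw [← h4] at h5
    refine IsCoprime.dvd_of_dvd_mul_right ?_ h5
    push_cast
    apply IsCoprime.pow_left
    rw [Int.isCoprime_iff_gcd_eq_one, Int.gcd_comm, Int.gcd_eq_natAbs, Int.natAbs_natCast, Nat.gcd_comm]
    refine (Nat.Prime.coprime_iff_not_dvd hℓ).2 fun h6 => ?_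
    have h7 : (ℓ : ℤ) ∣ eval (h : ℤ) (∏ d ∈ (ℓ - 1).properDivisors, cyclotomic d ℤ) := Int.natCast_dvd.2 h6
    rw [eval_prod] at h7
    have hpz : Prime (ℓ : ℤ) := Nat.prime_iff_prime_int.1 hℓ
    obtain ⟨d, hd, hd'⟩ := (hpz.dvd_finset_prod_iff _).1 h7
    rw [Nat.mem_properDivisors] at hd
    apply hcopn d hd.1 hd.2
    refine hd'.trans ?_
    obtain ⟨w, hw⟩ := cyclotomic.dvd_X_pow_sub_one d ℤ
    refine ⟨eval (h : ℤ) w, ?_⟩
    have h8 := congrArg (fun P : ℤ[X] => P.eval (h : ℤ)) hw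
    simpa using h8
  · rw [hL]
    exact hpow
  · intro x hx
    rw [hL, hm]
    have hxm := hg (ZMod.unitOfCoprime x hx)
    obtain ⟨i, hi⟩ := (isOfFinOrder_of_finite g).mem_zpowers_iff_mem_range_orderOf.1 hxm |> Finset.mem_image.1
    refine ⟨i, ?_, ?_⟩
    · have := mem_range.1 hi.1
      rwa [hord] at this
    · rw [← ZMod.natCast_eq_natCast_iff]
      push_cast
      rw [hhz, ← Units.val_pow_eq_pow_val, hi.2, ZMod.coe_unitOfCoprime]
  · intro i hi j hj hij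
    rw [hL] at hi hj
    rw [hm] at hij
    have h3 := (ZMod.natCast_eq_natCast_iff _ _ _).2 hij
    push_cast at h3
    rw [hhz, ← Units.val_pow_eq_pow_val, ← Units.val_pow_eq_pow_val] at h3
    have h4 := Units.ext h3
    rw [← hord] at hi hj
    exact pow_injOn_Iio_orderOf hi hj h4
  · rw [Nat.coprime_comm, Nat.Prime.coprime_iff_not_dvd hℓ]
    intro h3
    have h4 := (ZMod.natCast_eq_zero_iff h ℓ).2 h3
    rw [hhz] at h4
    exact g.ne_zero h4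

theorem exists_root {ℓ : ℕ} (hℓ : ℓ.Prime) (a : ℕ) : ∃ h, IsRoot ℓ a h := by
  by_cases h2 : ℓ = 2
  · subst h2
    exact exists_root_two a
  · exact exists_root_odd hℓ h2 a

lemma cyc_half {L : ℕ} (hL : 2 ≤ L) (he : Even L) : cyclotomic L ℤ ∣ X ^ (L / 2) + 1 := by
  obtain ⟨c, hc⟩ := he
  have hc2 : L / 2 = c := by omega
  have hmem : c ∈ L.properDivisors := by
    rw [Nat.mem_properDivisors]
    exact ⟨⟨2, by omega⟩, by omega⟩
  have h1 := X_pow_sub_one_mul_cyclotomic_dvd_X_pow_sub_one_of_dvd ℤ hmem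
  have h2 : (X ^ L - 1 : ℤ[X]) = (X ^ c - 1) * (X ^ c + 1) := by
    rw [hc, pow_add]
    ring
  rw [h2] at h1
  have h3 : (X ^ c - 1 : ℤ[X]) ≠ 0 := (monic_X_pow_sub_C (1 : ℤ) (by omega : c ≠ 0)).ne_zero
  rw [hc2]
  exact (mul_dvd_mul_iff_left h3).1 h1

lemma lam_half {L : ℕ} (hL : 2 ≤ L) (he : Even L) (w : ℕ → ℤ) : lam L w (X ^ (L / 2)) = - w 0 := by
  have h1 : lam L w (X ^ (L / 2)) = lam L w (C (-1) * X ^ 0) := by
    apply lam_congr
    have h2 : (X ^ (L / 2) - C (-1) * X ^ 0 : ℤ[X]) = X ^ (L / 2) + 1 := by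
      rw [pow_zero, mul_one, C_neg, C_1]
      ring
    rw [h2]
    exact cyc_half hL he
  rw [h1, lam_C_mul, lam_X_pow _ (Nat.totient_pos.2 (by omega))]
  ring

/-- classes: necessity -/
lemma class_of_pow {ℓ a e q h x c : ℕ} (hℓ : ℓ.Prime) (hr : IsRoot ℓ a h) (ha : 2 ≤ a)
    (hq : 1 < q) (he : padicValNat ℓ (q - 1) = e) (hLq : Lf ℓ ∣ q - 1)
    (hx : x.Coprime ℓ) (hc : c.Coprime ℓ) (hx0 : 0 < x)
    (hxc : x ^ (q - 1) ≡ c ^ (q - 1) [MOD ℓ ^ a]) :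
    ∃ i < Lf ℓ, x ≡ h ^ i * c [MOD ℓ ^ (a - e)] := by
  have hFact : Fact ℓ.Prime := ⟨hℓ⟩
  have h1M : 1 < ℓ ^ a := Nat.one_lt_pow (by omega) hℓ.one_lt
  obtain ⟨c', -, hcc'⟩ := Nat.exists_mul_mod_eq_one_of_coprime (hc.pow_right a) h1M
  have hcc : c * c' ≡ 1 [MOD ℓ ^ a] := by
    show (c * c') % ℓ ^ a = 1 % ℓ ^ a
    rw [hcc', Nat.mod_eq_of_lt h1M]
  have hc'cop : c'.Coprime ℓ := by
    have h1 : (c * c').Coprime (ℓ ^ a) := by
      rw [Nat.coprime_iff_gcd_eq_one, hcc.gcd_eq]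
      exact Nat.gcd_one_left _
    exact Nat.Coprime.coprime_mul_left (h1.coprime_dvd_right (dvd_pow_self ℓ (by omega)))
  have hc'0 : 0 < c' := by
    rcases Nat.eq_zero_or_pos c' with h2 | h2
    · subst h2
      rw [mul_zero, Nat.zero_mod] at hcc'
      omega
    · exact h2
  have hh0 : 0 < h := by
    rcases Nat.eq_zero_or_pos h with h2 | h2
    · exfalso
      have h3 := hr.cop
      rw [h2, Nat.coprime_zero_left] at h3
      exact hℓ.one_lt.ne' h3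
    · exact h2
  obtain ⟨i, hi, hxi⟩ := hr.surj (x * c') (hx.mul_left hc'cop)
  refine ⟨i, hi, ?_⟩
  set y := x * c' * h ^ (Lf ℓ - i) with hy
  have hy1 : 1 ≤ y := Nat.mul_pos (Nat.mul_pos hx0 hc'0) (pow_pos hh0 _)
  have hpow := hr.pow
  have hym : y ≡ 1 [MOD mf ℓ] := by
    have h1 := hxi.mul_right (h ^ (Lf ℓ - i))
    rw [← pow_add, Nat.add_sub_cancel' hi.le] at h1
    exact h1.trans (hpow.of_dvd (mf_dvd ha))
  have hyq : y ^ (q - 1) ≡ 1 [MOD ℓ ^ a] := by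
    have h1 : y ^ (q - 1) = x ^ (q - 1) * c' ^ (q - 1) * (h ^ (q - 1)) ^ (Lf ℓ - i) := by
      rw [hy, mul_pow, mul_pow, ← pow_mul, ← pow_mul, mul_comm (Lf ℓ - i)]
    rw [h1]
    have h2 : h ^ (q - 1) ≡ 1 [MOD ℓ ^ a] := by
      obtain ⟨w, hw⟩ := hLq
      rw [hw, pow_mul]
      have := hpow.pow w
      rwa [one_pow] at this
    have h3 : x ^ (q - 1) * c' ^ (q - 1) ≡ 1 [MOD ℓ ^ a] := by
      have h4 := hxc.mul_right (c' ^ (q - 1))
      rw [← mul_pow] at h4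
      rw [← mul_pow]
      rw [← mul_pow] at h4
      have h5 := hcc.pow (q - 1)
      rw [one_pow] at h5
      exact h4.trans h5
    have h6 := h3.mul (h2.pow (Lf ℓ - i))
    rwa [one_pow, mul_one] at h6
  have hyd : ℓ ^ (a - e) ∣ y - 1 := by
    rcases Nat.eq_or_lt_of_le hy1 with h1 | h1
    · rw [← h1]
      exact dvd_zero _
    · have hmd : mf ℓ ∣ y - 1 := (Nat.modEq_iff_dvd' hy1).1 hym.symm
      have hℓd : ℓ ∣ y - 1 := by
        refine dvd_trans ?_ hmd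
        unfold mf
        split_ifs with h2
        · subst h2; norm_num
        · exact dvd_rfl
      have h4d : ℓ = 2 → 4 ∣ y - 1 := by
        intro h2
        subst h2
        exact hmd
      have h2 := vpow hℓ h1 hℓd h4d (show q - 1 ≠ 0 by omega)
      have h3 : y ^ (q - 1) - 1 ≠ 0 := by
        have := Nat.one_lt_pow (show q - 1 ≠ 0 by omega) h1
        omega
      have h4 := (padicValNat_dvd_iff_le h3).1
        ((Nat.modEq_iff_dvd' (Nat.one_le_pow _ _ hy1)).1 hyq.symm)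
      exact (padicValNat_dvd_iff_le (by omega)).2 (by omega)
  have h1 : y ≡ 1 [MOD ℓ ^ (a - e)] := ((Nat.modEq_iff_dvd' hy1).2 hyd).symm
  have hd : ℓ ^ (a - e) ∣ ℓ ^ a := pow_dvd_pow ℓ (Nat.sub_le _ _)
  have h2 : y * (h ^ i * c) ≡ x [MOD ℓ ^ (a - e)] := by
    have h3 : y * (h ^ i * c) = x * (c * c') * h ^ (Lf ℓ) := by
      rw [hy]
      have : h ^ Lf ℓ = h ^ (Lf ℓ - i) * h ^ i := by rw [← pow_add, Nat.sub_add_cancel hi.le]
      rw [this]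
      ring
    rw [h3]
    have h4 := ((hcc.mul_left x).mul hpow).of_dvd hd
    rwa [mul_one, mul_one] at h4
  have h5 := h1.mul_right (h ^ i * c)
  rw [one_mul] at h5
  exact h2.symm.trans h5

/-- classes: sufficiency -/
lemma pow_of_class {ℓ a e q h x c i : ℕ} (hr : IsRoot ℓ a h) (ha : 2 * e ≤ a)
    (he : ℓ ^ e ∣ q - 1) (hLq : Lf ℓ ∣ q - 1) (hxc : x ≡ h ^ i * c [MOD ℓ ^ (a - e)]) :
    x ^ (q - 1) ≡ c ^ (q - 1) [MOD ℓ ^ a] := by
  rw [← Int.natCast_modEq_iff]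
  obtain ⟨t, ht⟩ := Nat.modEq_iff_dvd.1 hxc.symm
  have hx : (x : ℤ) = (h : ℤ) ^ i * c + ((ℓ ^ (a - e) : ℕ) : ℤ) * t := by
    push_cast at ht ⊢
    linarith
  have h2 : h ^ (q - 1) ≡ 1 [MOD ℓ ^ a] := by
    obtain ⟨w, hw⟩ := hLq
    rw [hw, pow_mul]
    have := hr.pow.pow w
    rwa [one_pow] at this
  have h3 : ((h : ℤ) ^ i * c) ^ (q - 1) ≡ (c : ℤ) ^ (q - 1) [ZMOD (ℓ ^ a : ℕ)] := by
    have h4 := ((h2.pow i).mul_right (c ^ (q - 1)))
    rw [one_pow, one_mul] at h4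
    have h5 := Int.natCast_modEq_iff.2 h4
    push_cast at h5 ⊢
    rw [mul_pow, ← pow_mul, mul_comm i, pow_mul]
    exact h5
  push_cast
  rw [hx]
  obtain ⟨kk, hkk⟩ := Polynomial.powAddExpansion ((h : ℤ) ^ i * c) (((ℓ ^ (a - e) : ℕ) : ℤ) * t) (q - 1)
  rw [hkk]
  push_cast at h3
  refine Int.ModEq.trans ?_ h3
  rw [Int.modEq_iff_dvd]
  obtain ⟨w, hw⟩ := he
  have hw' : ((q - 1 : ℕ) : ℤ) = (ℓ : ℤ) ^ e * w := by exact_mod_cast hw
  have e1 : (ℓ : ℤ) ^ a = (ℓ : ℤ) ^ e * (ℓ : ℤ) ^ (a - e) := by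
    rw [← pow_add]
    congr 1
    omega
  have e2 : (ℓ : ℤ) ^ (a - e) * (ℓ : ℤ) ^ (a - e) = (ℓ : ℤ) ^ a * (ℓ : ℤ) ^ (a - 2 * e) := by
    rw [← pow_add, ← pow_add]
    congr 1
    omega
  rw [hw']
  push_cast
  refine ⟨-(((h : ℤ) ^ i * c) ^ (q - 1 - 1) * w * t) - kk * (ℓ : ℤ) ^ (a - 2 * e) * t ^ 2, ?_⟩
  have e3 : kk * ((ℓ : ℤ) ^ (a - e) * t) ^ 2 = kk * t ^ 2 * ((ℓ : ℤ) ^ (a - e) * (ℓ : ℤ) ^ (a - e)) := by ring
  rw [e3, e2]
  rw [mul_sub]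
  rw [e1]
  ring

end Pool.Agent.J6H69.GB
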