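import Mathlib

/-!
# Sums over a Frobenius orbit
-/

set_option autoImplicit false

namespace Pool.Agent.J6H69.GB

open Finset

/-- the power of `r` in `q ^ t - 1` -/
lemma vpow {r q t : ℕ} (hr : r.Prime) (hq : 1 < q) (h1 : r ∣ q - 1) (h2 : r = 2 → 4 ∣ q - 1) (ht : t ≠ 0) :
    padicValNat r (q ^ t - 1) = padicValNat r (q - 1) + padicValNat r t := by
  have : Fact r.Prime := ⟨hr⟩
  have hrq : ¬ r ∣ q := by
    intro h
    have h3 := (Nat.dvd_sub h h1)
    have h4 : q - (q - 1) = 1 := by omega
    rw [h4] at h3
    exact hr.one_lt.ne' (Nat.dvd_one.1 h3)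
  rcases hr.eq_two_or_odd' with h | h
  · subst h
    have h4 := h2 rfl
    rcases Nat.even_or_odd t with he | ho
    · have h5 := padicValNat.pow_two_sub_pow (x := q) (y := 1) hq h1 hrq ht he
      rw [one_pow] at h5
      have h6 : padicValNat 2 (q + 1) = 1 := by
        obtain ⟨c, hc⟩ := h4
        have h7 : q + 1 = 2 * (2 * c + 1) := by omega
        rw [h7, padicValNat.mul (by norm_num) (by omega)]
        have h8 : padicValNat 2 (2 * c + 1) = 0 := padicValNat.eq_zero_of_not_dvd (by omega)
        rw [h8]
        simp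
      omega
    · have h5 : q ^ t - 1 = (q - 1) * ∑ i ∈ range t, q ^ i := by
        have := Nat.geomSum_eq (m := q) (by omega) t
        rw [this, Nat.mul_div_cancel']
        simpa using Nat.sub_dvd_pow_sub_pow q 1 t
      have hodd : ¬ 2 ∣ ∑ i ∈ range t, q ^ i := by
        have h6 : (∑ i ∈ range t, q ^ i) ≡ (∑ i ∈ range t, 1) [MOD 2] := by
          have hq2 : q ≡ 1 [MOD 2] := by
            have : q % 2 = 1 := by omega
            exact this
          have : ∀ s : ℕ, (∑ i ∈ range s, q ^ i) ≡ (∑ i ∈ range s, 1) [MOD 2] := by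
            intro s
            induction s with
            | zero => rfl
            | succ s ih =>
              rw [Finset.sum_range_succ, Finset.sum_range_succ]
              have h7 := hq2.pow s
              rw [one_pow] at h7
              exact ih.add h7
          exact this t
        rw [Finset.sum_const, card_range, smul_eq_mul, mul_one] at h6
        intro h7
        have h8 : (∑ i ∈ range t, q ^ i) % 2 = t % 2 := h6
        obtain ⟨w, hw⟩ := ho
        omega
      have hne : ∑ i ∈ range t, q ^ i ≠ 0 := fun h => hodd (h ▸ dvd_zero 2)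
      rw [h5, padicValNat.mul (by omega) hne, padicValNat.eq_zero_of_not_dvd hodd]
      have h8 : padicValNat 2 t = 0 := padicValNat.eq_zero_of_not_dvd (by
        obtain ⟨w, hw⟩ := ho
        omega)
      rw [h8]
  · have h5 := padicValNat.pow_sub_pow (p := r) h (x := q) (y := 1) hq h1 hrq (n := t) ht
    rw [one_pow] at h5
    exact h5

/-- `M` divides `1 + q + ... + q ^ (t - 1)` only if it divides `t` -/
lemma dvd_geom {M q t : ℕ} (hq : 1 < q) (hM : ∀ r : ℕ, r.Prime → r ∣ M → r ∣ q - 1 ∧ (r = 2 → 4 ∣ q - 1))
    (ht : t ≠ 0) (h : M ∣ ∑ i ∈ range t, q ^ i) : M ∣ t := by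
  rw [Nat.dvd_iff_prime_pow_dvd_dvd]
  intro r k hr hrk
  rcases Nat.eq_zero_or_pos k with hk | hk
  · rw [hk, pow_zero]
    exact one_dvd t
  · have : Fact r.Prime := ⟨hr⟩
    obtain ⟨h1, h2⟩ := hM r hr ((dvd_pow_self r hk.ne').trans hrk)
    have h3 : (q - 1) * ∑ i ∈ range t, q ^ i = q ^ t - 1 := by
      rw [Nat.geomSum_eq (by omega) t, Nat.mul_div_cancel']
      simpa using Nat.sub_dvd_pow_sub_pow q 1 t
    have hs0 : ∑ i ∈ range t, q ^ i ≠ 0 := by
      have : 1 ≤ ∑ i ∈ range t, q ^ i := by
        calc 1 = q ^ 0 := (pow_zero q).symm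
          _ ≤ ∑ i ∈ range t, q ^ i := Finset.single_le_sum (f := fun i => q ^ i) (fun _ _ => Nat.zero_le _)
            (mem_range.2 (Nat.pos_of_ne_zero ht))
      omega
    have h4 := vpow hr hq h1 h2 ht
    rw [← h3, padicValNat.mul (by omega) hs0] at h4
    have h5 : k ≤ padicValNat r (∑ i ∈ range t, q ^ i) :=
      (padicValNat_dvd_iff_le hs0).1 (hrk.trans h)
    exact (padicValNat_dvd_iff_le ht).2 (by omega)

section
variable {k : Type} [Field k]

open scoped Classical in
/-- the sum over the orbit -/
theorem orbit_sum {M q : ℕ} (hM0 : 0 < M) (hq : 1 < q)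
    (hM : ∀ r : ℕ, r.Prime → r ∣ M → r ∣ q - 1 ∧ (r = 2 → 4 ∣ q - 1)) (z : k)
    (hz : (z ^ (q - 1)) ^ M = 1) :
    ∑ j ∈ range M, z ^ q ^ j = if z ^ (q - 1) = 1 then (M : k) * z else 0 := by
  set s : ℕ → ℕ := fun j => ∑ i ∈ range j, q ^ i with hs
  have hpow : ∀ j, z ^ q ^ j = z * (z ^ (q - 1)) ^ s j := by
    intro j
    rw [← pow_mul, ← pow_succ']
    congr 1
    have h3 : (q - 1) * s j = q ^ j - 1 := by
      rw [hs]
      simp only
      rw [Nat.geomSum_eq (by omega) j, Nat.mul_div_cancel']
      simpa using Nat.sub_dvd_pow_sub_pow q 1 j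
    rw [h3]
    have := Nat.one_le_pow j q (by omega)
    omega
  simp only [hpow, ← mul_sum]
  split_ifs with h1
  · rw [h1]
    simp [mul_comm]
  · -- the exponents run through all classes modulo `M`
    have hmod : ∀ j, (z ^ (q - 1)) ^ s j = (z ^ (q - 1)) ^ (s j % M) := by
      intro j
      conv_lhs => rw [← Nat.div_add_mod (s j) M, pow_add, pow_mul, hz, one_pow, one_mul]
    have hinj : Set.InjOn (fun j => s j % M) (range M : Finset ℕ) := by
      have key : ∀ i j, i < j → j < M → s i % M ≠ s j % M := by
        intro i j hij hj heq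
        have h2 : s j = s i + q ^ i * s (j - i) := by
          rw [hs]
          simp only
          have h3 : j = i + (j - i) := by omega
          conv_lhs => rw [h3, Finset.sum_range_add]
          congr 1
          rw [mul_sum]
          exact sum_congr rfl fun x _ => by rw [pow_add]
        have h3 : M ∣ q ^ i * s (j - i) := by
          have h4 : s i ≡ s i + q ^ i * s (j - i) [MOD M] := by rw [← h2]; exact heq
          have h5 := (Nat.modEq_iff_dvd' (by omega)).1 h4
          rwa [Nat.add_sub_cancel_left] at h5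
        have hcop : M.Coprime (q ^ i) := by
          apply Nat.Coprime.pow_right
          rw [Nat.coprime_iff_gcd_eq_one]
          by_contra hg
          obtain ⟨r, hr, hrd⟩ := Nat.exists_prime_and_dvd hg
          have h6 := (hM r hr (hrd.trans (Nat.gcd_dvd_left _ _))).1
          have h7 := hrd.trans (Nat.gcd_dvd_right M q)
          have h8 := Nat.dvd_sub h7 h6
          have h9 : q - (q - 1) = 1 := by omega
          rw [h9] at h8
          exact hr.one_lt.ne' (Nat.dvd_one.1 h8)
        have h4 := hcop.dvd_of_dvd_mul_left h3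
        have h5 := dvd_geom hq hM (by omega) h4
        have := Nat.le_of_dvd (by omega) h5
        omega
      intro i hi j hj heq
      rw [Finset.mem_coe, mem_range] at hi hj
      rcases lt_trichotomy i j with h | h | h
      · exact absurd heq (key i j h hj)
      · exact h
      · exact absurd heq.symm (key j i h hi)
    have himg : (range M).image (fun j => s j % M) = range M := by
      apply Finset.eq_of_subset_of_card_le
      · intro x hx
        rw [mem_image] at hx
        obtain ⟨j, _, rfl⟩ := hx
        exact mem_range.2 (Nat.mod_lt _ hM0)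
      · rw [Finset.card_image_of_injOn hinj]
    have h2 : ∑ j ∈ range M, (z ^ (q - 1)) ^ s j = ∑ i ∈ range M, (z ^ (q - 1)) ^ i := by
      simp only [hmod]
      conv_rhs => rw [← himg]
      rw [Finset.sum_image hinj]
    rw [h2]
    have h3 := mul_neg_geom_sum (z ^ (q - 1)) M
    rw [hz, sub_self] at h3
    have h4 : (1 : k) - z ^ (q - 1) ≠ 0 := sub_ne_zero.2 (Ne.symm h1)
    rw [(mul_eq_zero.1 h3).resolve_left h4, mul_zero]

end

end Pool.Agent.J6H69.GB
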