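import Pool.Agent.J6H69.GB.Two

/-!
# Two wild primes: levels `2 ^ a * 3 ^ b`, a fixed weight and almost all primes `p` with bounded powers of `2`
and `3` in `p ^ 2 - 1`
-/

set_option autoImplicit false

namespace Pool.Agent.J6H69.GB

open Pool.Agent.Results.MP_c2a07f_nt.FiveAndPowersOfThree (lValue IsUnitAt)

theorem two_wild {m : ℕ} (n r : ℕ) (hm1 : 1 ≤ m) :
    ∃ P : ℕ, ∀ p : ℕ, p.Prime → P < p → ¬ 2 ^ (n + 1) ∣ p ^ 2 - 1 → ¬ 3 ^ (r + 1) ∣ p ^ 2 - 1 →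
      ∀ a b : ℕ, ∀ ψ : DirichletCharacter ℂ (2 ^ a * 3 ^ b), ψ.IsPrimitive →
        ψ (-1) = (-1) ^ m → ¬ (m = 1 ∧ ψ (p : ZMod (2 ^ a * 3 ^ b)) = 1) → IsUnitAt p (lValue p m ψ) := by
  set C := (m + 1) * 4 ^ n * 9 ^ r with hC
  obtain ⟨P, hP⟩ := bounded (C * C) hm1
  refine ⟨max (max P m) 5, fun p hp hlt hn hr a b ψ hprim hpar hexc => ?_⟩
  have hPp : P < p := lt_of_le_of_lt ((le_max_left _ _).trans (le_max_left _ _)) hlt
  have hmp : m < p := lt_of_le_of_lt ((le_max_right _ _).trans (le_max_left _ _)) hlt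
  have h5 : 5 < p := lt_of_le_of_lt (le_max_right _ _) hlt
  have hq : 1 < p ^ 2 := Nat.one_lt_pow (by norm_num) hp.one_lt
  have hne : p ^ 2 - 1 ≠ 0 := by omega
  have hex : ∀ (ℓ k : ℕ), ℓ.Prime → ¬ ℓ ^ (k + 1) ∣ p ^ 2 - 1 →
      ∃ e, e ≤ k ∧ ℓ ^ e ∣ p ^ 2 - 1 ∧ ¬ ℓ ^ (e + 1) ∣ p ^ 2 - 1 := by
    intro ℓ k hℓ hk
    have : Fact ℓ.Prime := ⟨hℓ⟩
    refine ⟨padicValNat ℓ (p ^ 2 - 1), ?_, pow_padicValNat_dvd, ?_⟩
    · by_contra hcon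
      exact hk ((pow_dvd_pow _ (by omega)).trans (pow_padicValNat_dvd (p := ℓ)))
    · rw [padicValNat_dvd_iff_le hne]
      omega
  obtain ⟨n', hn1, hn2, hn3⟩ := hex 2 n Nat.prime_two hn
  obtain ⟨r', hr1, hr2, hr3⟩ := hex 3 r Nat.prime_three hr
  have hCC : (m + 1) * 4 ^ n' * 9 ^ r' ≤ C :=
    Nat.mul_le_mul (Nat.mul_le_mul_left _ (Nat.pow_le_pow_right (by norm_num) hn1))
      (Nat.pow_le_pow_right (by norm_num) hr1)
  by_cases hs : C ≤ 2 ^ a ∨ C ≤ 3 ^ b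
  · rw [DirichletCharacter.isPrimitive_def] at hprim
    exact two_large hp h5.le hn2 hn3 hr2 hr3 hm1 (by omega) (M := m + 1) (by omega) (by omega)
      (hs.imp hCC.trans hCC.trans) (2 ^ a * 3 ^ b) (mul_comm _ _) ψ hprim hpar
  · push Not at hs
    exact hP p hp hPp (2 ^ a * 3 ^ b) (by positivity) (Nat.mul_le_mul hs.1.le hs.2.le) ψ hprim hpar hexc

end Pool.Agent.J6H69.GB
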