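import Pool.Agent.J6H69.GB.CoreS
import Pool.Agent.J6H1.GX.RedTwo
import Pool.Agent.Results.MP_c2a07f_nt.FiveAndPowersOfThree

/-!
# Conductors with large wild parts: the values are units
-/

set_option autoImplicit false

namespace Pool.Agent.J6H69.GB

open Finset Polynomial Pool.Agent.Y18.GX
open Pool.Agent.Results.MP_c2a07f_nt.FiveAndPowersOfThree (lValue lValue_eq)

lemma padicVal_prod {T : Finset ℕ} (hT : ∀ ℓ ∈ T, ℓ.Prime) (b : ℕ → ℕ) {ℓ : ℕ} (hℓ : ℓ ∈ T) :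
    padicValNat ℓ (∏ r ∈ T, r ^ b r) = b ℓ := by
  have hFact : Fact ℓ.Prime := ⟨hT ℓ hℓ⟩
  classical
  rw [← Finset.mul_prod_erase T (fun r => r ^ b r) hℓ]
  have hT' : ∀ r ∈ T.erase ℓ, r.Prime := fun r hr => hT r (Finset.mem_of_mem_erase hr)
  have h1 : (∏ r ∈ T.erase ℓ, r ^ b r) ≠ 0 := Finset.prod_ne_zero_iff.2 fun r hr => pow_ne_zero _ (hT' r hr).ne_zero
  rw [padicValNat.mul (pow_ne_zero _ (hT ℓ hℓ).ne_zero) h1, padicValNat.prime_pow,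
    padicValNat.eq_zero_of_not_dvd, add_zero]
  intro h2
  exact Finset.notMem_erase ℓ T (prime_mem hT' b (hT ℓ hℓ) h2)

/-- the choice of the exponent `g` -/
theorem exists_g {T : Finset ℕ} (hT : ∀ ℓ ∈ T, ℓ.Prime) {N₂ : ℕ} (hN₂ : 0 < N₂) (n : ℕ) :
    ∃ e : ℕ, 2 ≤ e ∧ ∀ p : ℕ, p.Prime → 2 < p → (∀ ℓ ∈ T, ℓ < p) → N₂ < p →
      (∀ ℓ ∈ T, ¬ ℓ ^ (n + 1) ∣ p ^ (ℓ * (ℓ - 1)) - 1) →
      ∃ g : ℕ, (∀ ℓ ∈ T, padicValNat ℓ (p ^ g - 1) = e) ∧ (∀ ℓ ∈ T, Lf ℓ ∣ p ^ g - 1) ∧ 1 < p ^ g ∧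
        N₂.totient ∣ g ∧ N₂.totient ∣ p ^ g - 1 := by
  classical
  set G : ℕ := N₂.totient * N₂.totient.totient * (∏ ℓ ∈ T, (ℓ * (ℓ - 1))) * ∏ ℓ ∈ T, (Lf ℓ).totient with hG
  have hφ : 0 < N₂.totient := Nat.totient_pos.2 hN₂
  have hG0 : 0 < G := by
    rw [hG]
    refine Nat.mul_pos (Nat.mul_pos (Nat.mul_pos hφ (Nat.totient_pos.2 hφ)) ?_) ?_
    · exact Finset.prod_pos fun ℓ hℓ => Nat.mul_pos (hT ℓ hℓ).pos (by have := (hT ℓ hℓ).two_le; omega)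
    · exact Finset.prod_pos fun ℓ hℓ => Nat.totient_pos.2 (by have := Lf_two_le (hT ℓ hℓ); omega)
  refine ⟨n + G + 2, by omega, fun p hp h2p hTp hNp hn => ?_⟩
  have hdvd : ∀ d : ℕ, 0 < d → d < p → d.totient ∣ G → ∀ c : ℕ, d ∣ p ^ (G * c) - 1 := by
    intro d hd0 hd hdG c
    have hcop : p.Coprime d := (Nat.Prime.coprime_iff_not_dvd hp).2 fun h => by
      have := Nat.le_of_dvd hd0 h
      omega
    obtain ⟨w, hw⟩ := hdG
    have h1 : p ^ (G * c) ≡ 1 [MOD d] := by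
      rw [hw, mul_assoc, pow_mul]
      simpa using (Nat.ModEq.pow_totient hcop).pow (w * c)
    exact (Nat.modEq_iff_dvd' (Nat.one_le_pow _ _ hp.pos)).1 h1.symm
  have hLG : ∀ ℓ ∈ T, (Lf ℓ).totient ∣ G := fun ℓ hℓ =>
    (Finset.dvd_prod_of_mem (fun ℓ => (Lf ℓ).totient) hℓ).mul_left _
  have hlG : ∀ ℓ ∈ T, ℓ * (ℓ - 1) ∣ G := fun ℓ hℓ =>
    ((Finset.dvd_prod_of_mem (fun ℓ => ℓ * (ℓ - 1)) hℓ).mul_left _).mul_right _
  have hLp : ∀ ℓ ∈ T, Lf ℓ < p := by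
    intro ℓ hℓ
    have := hTp ℓ hℓ
    unfold Lf
    split_ifs <;> omega
  -- `ℓ` divides `p ^ (ℓ (ℓ - 1)) - 1`
  have h0 : ∀ ℓ ∈ T, ℓ ∣ p ^ (ℓ * (ℓ - 1)) - 1 ∧ (ℓ = 2 → 4 ∣ p ^ (ℓ * (ℓ - 1)) - 1) := by
    intro ℓ hℓ
    have hℓp := hT ℓ hℓ
    constructor
    · have hcop : p.Coprime ℓ := (Nat.Prime.coprime_iff_not_dvd hp).2 fun h => by
        have := Nat.le_of_dvd hℓp.pos h
        have := hTp ℓ hℓ
        omega
      have h1 : p ^ (ℓ * (ℓ - 1)) ≡ 1 [MOD ℓ] := by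
        rw [mul_comm, pow_mul, ← Nat.totient_prime hℓp]
        simpa using (Nat.ModEq.pow_totient hcop).pow ℓ
      exact (Nat.modEq_iff_dvd' (Nat.one_le_pow _ _ hp.pos)).1 h1.symm
    · intro h2
      subst h2
      have hodd : p % 4 = 1 ∨ p % 4 = 3 := by
        obtain ⟨w, hw⟩ := hp.odd_of_ne_two (by omega)
        omega
      have h1 : p ^ 2 % 4 = 1 := by
        rw [Nat.pow_mod]
        rcases hodd with h | h <;> rw [h]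
      have h2 : 2 * (2 - 1) = 2 := rfl
      rw [h2]
      have : 1 ≤ p ^ 2 := Nat.one_le_pow _ _ hp.pos
      omega
  have hq0 : ∀ ℓ ∈ T, 1 < p ^ (ℓ * (ℓ - 1)) := fun ℓ hℓ => by
    have := (hT ℓ hℓ).two_le
    refine Nat.one_lt_pow (Nat.mul_pos (by omega) (by omega)).ne' hp.one_lt
  have hv0 : ∀ ℓ ∈ T, padicValNat ℓ (p ^ (ℓ * (ℓ - 1)) - 1) ≤ n := by
    intro ℓ hℓ
    have hFact : Fact ℓ.Prime := ⟨hT ℓ hℓ⟩
    by_contra hcon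
    exact hn ℓ hℓ ((pow_dvd_pow _ (by omega)).trans (pow_padicValNat_dvd (p := ℓ)))
  -- the valuation of `p ^ G - 1`
  have hvG : ∀ ℓ ∈ T, padicValNat ℓ (p ^ G - 1) ≤ n + G ∧ ℓ ∣ p ^ G - 1 ∧ (ℓ = 2 → 4 ∣ p ^ G - 1) := by
    intro ℓ hℓ
    have hFact : Fact ℓ.Prime := ⟨hT ℓ hℓ⟩
    obtain ⟨t, ht⟩ := hlG ℓ hℓ
    have ht0 : t ≠ 0 := by
      rintro rfl
      rw [mul_zero] at ht
      omega
    have hpd : p ^ (ℓ * (ℓ - 1)) - 1 ∣ p ^ G - 1 := by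
      rw [ht, pow_mul p (ℓ * (ℓ - 1)) t]
      have h6 := Nat.sub_dvd_pow_sub_pow (p ^ (ℓ * (ℓ - 1))) 1 t
      rwa [one_pow] at h6
    refine ⟨?_, (h0 ℓ hℓ).1.trans hpd, fun h2 => ((h0 ℓ hℓ).2 h2).trans hpd⟩
    have h1 := vpow (hT ℓ hℓ) (hq0 ℓ hℓ) (h0 ℓ hℓ).1 (h0 ℓ hℓ).2 ht0
    rw [ht, pow_mul, h1, ← ht]
    have h2 : padicValNat ℓ t ≤ G := by
      have h3 : ℓ ^ padicValNat ℓ t ≤ t := Nat.le_of_dvd (by omega) pow_padicValNat_dvd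
      have h4 : padicValNat ℓ t < ℓ ^ padicValNat ℓ t := Nat.lt_pow_self (hT ℓ hℓ).one_lt
      have h5 : t ≤ G := Nat.le_of_dvd hG0 (Dvd.intro_left _ ht.symm)
      omega
    have := hv0 ℓ hℓ
    omega
  set b : ℕ → ℕ := fun ℓ => n + G + 2 - padicValNat ℓ (p ^ G - 1) with hb
  have hB0 : (∏ r ∈ T, r ^ b r) ≠ 0 := Finset.prod_ne_zero_iff.2 fun r hr => pow_ne_zero _ (hT r hr).ne_zero
  have hqG : 1 < p ^ G := Nat.one_lt_pow hG0.ne' hp.one_lt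
  refine ⟨G * ∏ r ∈ T, r ^ b r, fun ℓ hℓ => ?_, fun ℓ hℓ => ?_, ?_, ?_, ?_⟩
  · rw [pow_mul, vpow (hT ℓ hℓ) hqG (hvG ℓ hℓ).2.1 (hvG ℓ hℓ).2.2 hB0, padicVal_prod hT b hℓ]
    have := (hvG ℓ hℓ).1
    simp only [hb]
    omega
  · exact hdvd _ (by have := Lf_two_le (hT ℓ hℓ); omega) (hLp ℓ hℓ) (hLG ℓ hℓ) _
  · exact Nat.one_lt_pow (Nat.mul_ne_zero hG0.ne' hB0) hp.one_lt
  · exact (((dvd_mul_right _ _).mul_right _).mul_right _).mul_right _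
  · exact hdvd _ hφ (lt_of_le_of_lt (Nat.totient_le _) hNp) (((dvd_mul_left _ _).mul_right _).mul_right _) _

/-- primitivity of the second component -/
lemma snd_prim' {N₂ M : ℕ} (h : N₂.Coprime M) (hN : N₂ ≠ 0) (hM : M ≠ 0) (ψ : DirichletCharacter ℂ (N₂ * M))
    (hprim : ψ.conductor = N₂ * M) {r : ℕ} (hr : r.Prime) (hrM : r ∣ M) :
    ∃ y : ℤ, ((M / r : ℕ) : ℤ) ∣ y - 1 ∧ snd h ψ (y : ZMod M) ≠ 1 := by
  by_contra hcon
  push Not at hcon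
  have : NeZero (N₂ * M) := ⟨mul_ne_zero hN hM⟩
  have : NeZero M := ⟨hM⟩
  have hMr : M / r ∣ M := Nat.div_dvd_of_dvd hrM
  have hd : N₂ * (M / r) ∣ N₂ * M := Nat.mul_dvd_mul_left _ hMr
  have h2 : ψ.FactorsThrough (N₂ * (M / r)) := by
    rw [DirichletCharacter.factorsThrough_iff_ker_unitsMap hd]
    intro U hU
    rw [MonoidHom.mem_ker] at hU ⊢
    have h3 : ((U : ZMod (N₂ * M)).cast : ZMod (N₂ * (M / r))) = 1 := by
      have := congrArg Units.val hU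
      simpa [ZMod.unitsMap] using this
    set a := (U : ZMod (N₂ * M)).val with ha
    have haU : ((a : ℕ) : ZMod (N₂ * M)) = U := by rw [ha, ZMod.natCast_val, ZMod.cast_id', id_eq]
    have h4 : a ≡ 1 [MOD N₂ * (M / r)] := by
      rw [← ZMod.natCast_eq_natCast_iff, Nat.cast_one, ← h3, ha, ZMod.natCast_val]
    have h5 : ((a : ℕ) : ZMod N₂) = 1 := by
      rw [← Nat.cast_one, ZMod.natCast_eq_natCast_iff]
      exact h4.of_dvd (dvd_mul_right _ _)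
    have h6 : a ≡ 1 [MOD M / r] := h4.of_dvd (dvd_mul_left _ _)
    have h7 : ((M / r : ℕ) : ℤ) ∣ (a : ℤ) - 1 := by
      have := Nat.modEq_iff_dvd.1 h6.symm
      simpa using this
    have h8 : snd h ψ ((a : ℕ) : ZMod M) = 1 := by
      have := hcon a h7
      rwa [Int.cast_natCast] at this
    have h9 : ψ (U : ZMod (N₂ * M)) = 1 := by
      rw [← haU, dec_nat h ψ, h5, h8, map_one, one_mul]
    apply Units.ext
    rw [MulChar.coe_toUnitHom, h9, Units.val_one]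
  have h3 := DirichletCharacter.conductor_dvd_of_mem_conductorSet (χ := ψ) (d := N₂ * (M / r)) h2
  rw [hprim] at h3
  have h4 : M ∣ M / r := Nat.dvd_of_mul_dvd_mul_left (Nat.pos_of_ne_zero hN) h3
  have h5 := Nat.le_of_dvd (Nat.div_pos (Nat.le_of_dvd (Nat.pos_of_ne_zero hM) hrM) hr.pos) h4
  have h6 := Nat.div_lt_self (Nat.pos_of_ne_zero hM) hr.one_lt
  omega

lemma not_dvd_totient {T : Finset ℕ} (hT : ∀ ℓ ∈ T, ℓ.Prime) (a : ℕ → ℕ) {p : ℕ} (hp : p.Prime)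
    (hpT : ∀ ℓ ∈ T, ℓ < p) : ¬ p ∣ (∏ ℓ ∈ T, ℓ ^ a ℓ).totient := by
  intro h
  set M := ∏ ℓ ∈ T, ℓ ^ a ℓ with hM
  have h1 : p ∣ M * ∏ r ∈ M.primeFactors, (r - 1) := by
    rw [← Nat.totient_mul_prod_primeFactors]
    exact h.mul_right _
  rcases (hp.dvd_mul).1 h1 with h2 | h2
  · have h3 := prime_mem hT a hp h2
    exact absurd (hpT p h3) (lt_irrefl _)
  · obtain ⟨r, hr, h3⟩ := (hp.prime.dvd_finset_prod_iff _).1 h2
    have hrp := Nat.prime_of_mem_primeFactors hr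
    have h4 := prime_mem hT a hrp (Nat.dvd_of_mem_primeFactors hr)
    have h5 := hpT r h4
    have h6 := Nat.le_of_dvd (by have := hrp.two_le; omega) h3
    omega

theorem unitS {T : Finset ℕ} (hT : ∀ ℓ ∈ T, ℓ.Prime) (hne : T.Nonempty) {N₂ : ℕ} (hN₂ : 0 < N₂) (n : ℕ) {m : ℕ}
    (hm1 : 1 ≤ m) :
    ∃ A P : ℕ, ∀ p : ℕ, p.Prime → P < p → (∀ ℓ ∈ T, ¬ ℓ ^ (n + 1) ∣ p ^ (ℓ * (ℓ - 1)) - 1) →
      ∀ a : ℕ → ℕ, (∀ ℓ ∈ T, A ≤ a ℓ) → ∀ M : ℕ, M = ∏ ℓ ∈ T, ℓ ^ a ℓ → N₂.Coprime M → ∀ N : ℕ, N = N₂ * M →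
      ∀ ψ : DirichletCharacter ℂ N, ψ.IsPrimitive → ψ (-1) = (-1) ^ m →
      Pool.Agent.Results.MP_c2a07f_nt.FiveAndPowersOfThree.IsUnitAt p (lValue p m ψ) := by
  classical
  obtain ⟨e, he, hg⟩ := exists_g hT hN₂ n
  obtain ⟨A, hA⟩ := coreS hT hne hN₂ he hm1
  refine ⟨A + 1, N₂ + m + 2 + ∑ ℓ ∈ T, ℓ, fun p hp hP hn a ha M hM hcop N hN ψ hprim hpar => ?_⟩
  have hTp : ∀ ℓ ∈ T, ℓ < p := by
    intro ℓ hℓ
    have := Finset.single_le_sum (f := fun ℓ => ℓ) (fun _ _ => Nat.zero_le _) hℓ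
    omega
  obtain ⟨g, hge, hgL, hg1, hgφ, hgq⟩ := hg p hp (by omega) hTp (by omega) hn
  subst hN
  have hM0 : 0 < M := by
    rw [hM]
    exact Finset.prod_pos fun ℓ hℓ => pow_pos (hT ℓ hℓ).pos _
  have hpT : p ∉ T := fun h => absurd (hTp p h) (lt_irrefl _)
  have hpM : ¬ p ∣ M := fun h => hpT (prime_mem hT a hp (hM ▸ h))
  have hpφM : ¬ p ∣ M.totient := by
    rw [hM]
    exact not_dvd_totient hT a hp hTp
  have hpN : ¬ p ∣ N₂ := fun h => by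
    have := Nat.le_of_dvd hN₂ h
    omega
  have hpφ : ¬ p ∣ N₂.totient := fun h => by
    have h1 := Nat.le_of_dvd (Nat.totient_pos.2 hN₂) h
    have h2 := Nat.totient_le N₂
    omega
  obtain ⟨l₀, hl₀⟩ := hne
  have hM1 : 1 < M := by
    have h1 : 1 < l₀ ^ a l₀ := Nat.one_lt_pow (by have := ha l₀ hl₀; omega) (hT l₀ hl₀).one_lt
    exact lt_of_lt_of_le h1 (Nat.le_of_dvd hM0 (hM ▸ Finset.dvd_prod_of_mem (fun ℓ => ℓ ^ a ℓ) hl₀))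
  have hN1 : N₂ * M ≠ 1 := by
    intro h
    have h1 : M ∣ 1 := h ▸ dvd_mul_left M N₂
    have := Nat.dvd_one.1 h1
    omega
  rw [DirichletCharacter.isPrimitive_def] at hprim
  have hψ1 : ψ ≠ 1 := by
    have : NeZero (N₂ * M) := ⟨mul_ne_zero hN₂.ne' hM0.ne'⟩
    intro h
    rw [h, DirichletCharacter.conductor_one] at hprim
    exact hN1 hprim.symm
  have hsum : ∑ x ∈ range (N₂ * M), fst hcop ψ (x : ZMod N₂) * snd hcop ψ (x : ZMod M) = 0 := by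
    rw [← sum_char (mul_ne_zero hN₂.ne' hM0.ne') ψ hψ1]
    exact Finset.sum_congr rfl fun a _ => (dec_nat hcop ψ a).symm
  have key := Pool.Agent.J6H1.GX.unit_gen2 hp (fst hcop ψ) (snd hcop ψ) hpN hpM hpφ hpφM
    (by rw [← dec_neg, hpar]) hm1 (by omega) (by
      intro k _ _ _ χ₁ χ₂ h1 h2 h3
      refine hA a (fun ℓ hℓ => by have := ha ℓ hℓ; omega) p g hp (by omega) (by omega) hpT hpN hge hgL hg1 hgφ M
        hM hcop k χ₁ χ₂ ?_ ?_ h3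
      · intro x
        by_cases hx : IsUnit x
        · obtain ⟨U, rfl⟩ := hx
          obtain ⟨w, hw⟩ := hgq
          have h4 : χ₁ (U : ZMod N₂) ^ N₂.totient = 1 := by
            rw [← map_pow, ← Units.val_pow_eq_pow_val, ZMod.pow_totient, Units.val_one, map_one]
          have h5 : p ^ g = N₂.totient * w + 1 := by omega
          rw [h5, pow_succ, pow_mul, h4, one_pow, one_mul]
        · rw [χ₁.map_nonunit hx, zero_pow (by omega)]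
      · intro r hr hrM
        obtain ⟨y, hy, hy1⟩ := snd_prim' hcop hN₂.ne' hM0.ne' ψ hprim hr hrM
        exact ⟨y, hy, fun h => hy1 (h2 _ h)⟩) hsum
  simp only [← dec_nat] at key
  rw [lValue_eq hN1]
  exact key

end Pool.Agent.J6H69.GB
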